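import Pool.Agent.Helper90.RK.KDefs

/-!
# RK-A01: elementary properties of the cone `PP` and its base `KK` (about 120 lines)

All statements are direct.  Hints:
* `PP_le`: induction on `n` with `p w ≤ p []` for all `w` of length `n`: write `w = w' ++ [b]`
  (or induct on `w` with the left additivity: `p (b :: w) ≤ p w`).
* `PP_closed`: intersections of closed conditions on coordinates.  `KK_compact`: closed subset of the compact
  set `Set.pi univ (fun _ => Icc 0 1)` (`isCompact_univ_pi`).
* `KK_nonempty`: `p w = 1` if all letters of `w` are `false`, and `0` otherwise (or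
  `p w = (1/2)^(w.length)`).
* `PP_scale`: if `p ∈ PP`, `p ≠ 0`, then `0 < p []` (otherwise `p w ≤ p [] = 0`), and `(p [])⁻¹ • p ∈ KK`.
* `mem_cone`: if `v.1 = v.2 • x`, `x ∈ KK`, `0 ≤ v.2` then `v.1 ∈ PP`, `v.1 [] = v.2`.  Conversely `x = v.2⁻¹ • v.1` if
  `v.2 > 0`, and any element of `KK` if `v.2 = 0` (then `v.1 = 0` by `PP_le`).
* `KK_metrizable`: `List Bool` is countable, instances.
-/

namespace RK

open Set Filter Topology

theorem PP_zero : (0 : V) ∈ PP := by
  refine ⟨fun w => by simp, fun w => by simp, fun w => by simp⟩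

theorem PP_add {p q : V} (hp : p ∈ PP) (hq : q ∈ PP) : p + q ∈ PP := by
  obtain ⟨h1, h2, h3⟩ := hp
  obtain ⟨k1, k2, k3⟩ := hq
  refine ⟨fun w => ?_, fun w => ?_, fun w => ?_⟩
  · simp only [Pi.add_apply]
    linarith [h1 w, k1 w]
  · simp only [Pi.add_apply]
    linarith [h2 w, k2 w]
  · simp only [Pi.add_apply]
    linarith [h3 w, k3 w]

theorem PP_smul {p : V} (hp : p ∈ PP) {t : ℝ} (ht : 0 ≤ t) : t • p ∈ PP := by
  obtain ⟨h1, h2, h3⟩ := hp
  refine ⟨fun w => ?_, fun w => ?_, fun w => ?_⟩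
  · simp only [Pi.smul_apply, smul_eq_mul]
    exact mul_nonneg ht (h1 w)
  · simp only [Pi.smul_apply, smul_eq_mul]
    rw [h2 w]
    ring
  · simp only [Pi.smul_apply, smul_eq_mul]
    rw [h3 w]
    ring

theorem PP_sum {ι : Type*} (s : Finset ι) (p : ι → V) (hp : ∀ i ∈ s, p i ∈ PP) :
    ∑ i ∈ s, p i ∈ PP := by
  classical
  induction s using Finset.induction_on with
  | empty => simpa using PP_zero
  | insert a s ha ih =>
    rw [Finset.sum_insert ha]
    exact PP_add (hp a (Finset.mem_insert_self a s))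
      (ih fun i hi => hp i (Finset.mem_insert_of_mem hi))

theorem PP_le {p : V} (hp : p ∈ PP) (w : List Bool) : p w ≤ p [] := by
  obtain ⟨h1, h2, h3⟩ := hp
  induction w with
  | nil => exact le_rfl
  | cons b w ih =>
    refine le_trans ?_ ih
    have e := h3 w
    have e1 := h1 (false :: w)
    have e2 := h1 (true :: w)
    cases b
    · linarith
    · linarith

theorem PP_eq_zero {p : V} (hp : p ∈ PP) (h : p [] = 0) : p = 0 := by
  funext w
  have e := PP_le hp w
  have e1 := hp.1 w
  rw [h] at e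
  exact le_antisymm e e1

/-- the cone is pointed -/
theorem PP_pointed {p : V} (hp : p ∈ PP) (hp' : -p ∈ PP) : p = 0 := by
  apply PP_eq_zero hp
  have e := hp.1 []
  have e1 := hp'.1 []
  simp only [Pi.neg_apply] at e1
  linarith

theorem PP_pos {p : V} (hp : p ∈ PP) (h : p ≠ 0) : 0 < p [] := by
  rcases (hp.1 []).lt_or_eq with h1 | h1
  · exact h1
  · exact absurd (PP_eq_zero hp h1.symm) h

theorem PP_scale {p : V} (hp : p ∈ PP) (h : p ≠ 0) : (p [])⁻¹ • p ∈ KK := by
  have h0 := PP_pos hp h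
  refine ⟨PP_smul hp (inv_nonneg.mpr h0.le), ?_⟩
  simp only [Pi.smul_apply, smul_eq_mul]
  exact inv_mul_cancel₀ h0.ne'

theorem PP_closed : IsClosed PP := by
  have e : PP = (⋂ w, {p : V | 0 ≤ p w}) ∩ ((⋂ w, {p : V | p w = p (w ++ [false]) + p (w ++ [true])}) ∩
      ⋂ w, {p : V | p w = p (false :: w) + p (true :: w)}) := by
    ext p
    simp only [PP, Set.mem_inter_iff, Set.mem_iInter, Set.mem_ofPred_eq]
  rw [e]
  refine IsClosed.inter ?_ (IsClosed.inter ?_ ?_)
  · exact isClosed_iInter fun w => isClosed_le continuous_const (continuous_apply w)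
  · exact isClosed_iInter fun w => isClosed_eq (by fun_prop) (by fun_prop)
  · exact isClosed_iInter fun w => isClosed_eq (by fun_prop) (by fun_prop)

theorem KK_nonempty : KK.Nonempty := by
  refine ⟨fun w => (1 / 2 : ℝ) ^ w.length, ⟨fun w => by positivity, fun w => ?_, fun w => ?_⟩, ?_⟩
  · simp only [List.length_append, List.length_cons, List.length_nil, pow_succ, zero_add]
    ring
  · simp only [List.length_cons, pow_succ]
    ring
  · simp

theorem KK_convex : Convex ℝ KK := by
  intro p hp q hq a b ha hb hab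
  refine ⟨PP_add (PP_smul hp.1 ha) (PP_smul hq.1 hb), ?_⟩
  have h1 := hp.2
  have h2 := hq.2
  simp only [Pi.add_apply, Pi.smul_apply, smul_eq_mul]
  rw [h1, h2]
  linarith

theorem KK_closed : IsClosed KK := by
  have e : KK = PP ∩ {p : V | p [] = 1} := by
    ext p
    rfl
  rw [e]
  exact PP_closed.inter (isClosed_eq (continuous_apply _) continuous_const)

theorem KK_compact : IsCompact KK := by
  have hc : IsCompact (Set.pi (univ : Set (List Bool)) (fun _ => Set.Icc (0 : ℝ) 1)) :=
    isCompact_univ_pi fun _ => isCompact_Icc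
  refine hc.of_isClosed_subset KK_closed ?_
  intro p hp w _
  refine ⟨hp.1.1 w, ?_⟩
  have e := PP_le hp.1 w
  rwa [hp.2] at e

theorem KK_metrizable : TopologicalSpace.MetrizableSpace KK := by
  infer_instance

theorem mem_cone {v : V × ℝ} : v ∈ coneOver KK ↔ v.1 ∈ PP ∧ v.1 [] = v.2 := by
  constructor
  · rintro ⟨h0, x, hx, h⟩
    rw [h]
    refine ⟨PP_smul hx.1 h0, ?_⟩
    simp only [Pi.smul_apply, smul_eq_mul]
    rw [hx.2, mul_one]
  · rintro ⟨h, h2⟩
    by_cases h0 : v.1 = 0
    · obtain ⟨x, hx⟩ := KK_nonempty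
      have hz : v.2 = 0 := by
        rw [← h2, h0]
        rfl
      refine ⟨by rw [hz], x, hx, ?_⟩
      rw [h0, hz, zero_smul]
    · have hp := PP_pos h h0
      refine ⟨by rw [← h2]; exact hp.le, (v.1 [])⁻¹ • v.1, PP_scale h h0, ?_⟩
      rw [← h2, smul_smul, mul_inv_cancel₀ hp.ne', one_smul]

end RK
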