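import Pool.Agent.Helper90.RK.A01

/-!
# RK-A02: the cone `PP` is a lattice (about 120 lines)

Given `p, q ∈ PP`, define `S 0 w = max (p w) (q w)`, `S (n+1) w = S n (w ++ [false]) + S n (w ++ [true])`.
By induction on `n`, for all `w`:
1. `S n w ≤ S (n+1) w` (`max (a+b) (c+d) ≤ max a c + max b d` for `n = 0`; then the recursion).
2. `p w ≤ S n w`, `q w ≤ S n w`, `S n w ≤ p w + q w`.
3. `S n w ≤ S n (false :: w) + S n (true :: w)` (`n = 0`: left additivity of `p, q` and `max (a+b) (c+d) ≤ ...`; step:
   `false :: (w ++ [b]) = (false :: w) ++ [b]` definitionally).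
4. If `u ∈ PP`, `u - p ∈ PP`, `u - q ∈ PP` then `S n w ≤ u w`.
So `z w = ⨆ n, S n w = lim S n w` exists (`tendsto_atTop_ciSup`, monotone and bounded), `z` is right additive (take limits in the
recursion), `z w ≤ z (false :: w) + z (true :: w)`, `p, q ≤ z ≤ u` pointwise.
Left additivity of `z`: `D w = z (false :: w) + z (true :: w) - z w ≥ 0` is right additive, and
`D [] = z [false] + z [true] - z [] = 0` by right additivity of `z` at `[]`.  A nonnegative right additive function with
`D [] = 0` vanishes (induction on words from the right, `List.reverseRecOn`).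
`z - p`, `z - q`, `u - z` are nonnegative, left and right additive (differences of such functions).
`KK_simplex`: translate with `mem_cone`: for `x, y ∈ coneOver KK` take `z = (z', z' [])` with `z'` the supremum of `x.1`, `y.1`.
-/

namespace RK

open Set Filter Topology

/-- the approximations of the supremum -/
private noncomputable def SS (p q : V) : ℕ → List Bool → ℝ
  | 0, w => max (p w) (q w)
  | n + 1, w => SS p q n (w ++ [false]) + SS p q n (w ++ [true])

private theorem SS_le_succ {p q : V} (hp : p ∈ PP) (hq : q ∈ PP) (n : ℕ) (w : List Bool) :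
    SS p q n w ≤ SS p q (n + 1) w := by
  induction n generalizing w with
  | zero =>
    simp only [SS]
    refine max_le ?_ ?_
    · rw [hp.2.1 w]
      exact add_le_add (le_max_left _ _) (le_max_left _ _)
    · rw [hq.2.1 w]
      exact add_le_add (le_max_right _ _) (le_max_right _ _)
  | succ n ih =>
    rw [SS, SS]
    exact add_le_add (ih _) (ih _)

private theorem le_SS {p q : V} (hp : p ∈ PP) (n : ℕ) (w : List Bool) :
    p w ≤ SS p q n w := by
  induction n generalizing w with
  | zero => exact le_max_left _ _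
  | succ n ih =>
    rw [SS, hp.2.1 w]
    exact add_le_add (ih _) (ih _)

private theorem le_SS' {p q : V} (hq : q ∈ PP) (n : ℕ) (w : List Bool) :
    q w ≤ SS p q n w := by
  induction n generalizing w with
  | zero => exact le_max_right _ _
  | succ n ih =>
    rw [SS, hq.2.1 w]
    exact add_le_add (ih _) (ih _)

private theorem SS_le {p q u : V} (hu : ∀ w, u w = u (w ++ [false]) + u (w ++ [true]))
    (h1 : ∀ w, p w ≤ u w) (h2 : ∀ w, q w ≤ u w) (n : ℕ) (w : List Bool) :
    SS p q n w ≤ u w := by
  induction n generalizing w with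
  | zero => exact max_le (h1 w) (h2 w)
  | succ n ih =>
    rw [SS, hu w]
    exact add_le_add (ih _) (ih _)

private theorem SS_left {p q : V} (hp : p ∈ PP) (hq : q ∈ PP) (n : ℕ) (w : List Bool) :
    SS p q n w ≤ SS p q n (false :: w) + SS p q n (true :: w) := by
  induction n generalizing w with
  | zero =>
    simp only [SS]
    refine max_le ?_ ?_
    · rw [hp.2.2 w]
      exact add_le_add (le_max_left _ _) (le_max_left _ _)
    · rw [hq.2.2 w]
      exact add_le_add (le_max_right _ _) (le_max_right _ _)
  | succ n ih =>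
    have h1 := ih (w ++ [false])
    have h2 := ih (w ++ [true])
    simp only [SS, List.cons_append]
    linarith

theorem PP_lub {p q : V} (hp : p ∈ PP) (hq : q ∈ PP) : ∃ z ∈ PP, z - p ∈ PP ∧ z - q ∈ PP ∧
    ∀ u ∈ PP, u - p ∈ PP → u - q ∈ PP → u - z ∈ PP := by
  have hex : ∀ w, ∃ c, Tendsto (fun n => SS p q n w) atTop (𝓝 c) := fun w =>
    ⟨_, tendsto_atTop_ciSup (monotone_nat_of_le_succ fun n => SS_le_succ hp hq n w)
      ⟨p w + q w, by
        rintro _ ⟨n, rfl⟩
        refine SS_le (u := p + q) (fun w => ?_) (fun w => ?_) (fun w => ?_) n w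
        · simp only [Pi.add_apply]
          rw [hp.2.1 w, hq.2.1 w]
          ring
        · simp only [Pi.add_apply]
          linarith [hq.1 w]
        · simp only [Pi.add_apply]
          linarith [hp.1 w]⟩⟩
  choose z hz using hex
  have hr : ∀ w, z w = z (w ++ [false]) + z (w ++ [true]) := fun w =>
    tendsto_nhds_unique ((tendsto_add_atTop_iff_nat 1).2 (hz w)) ((hz _).add (hz _))
  have hpz : ∀ w, p w ≤ z w := fun w => ge_of_tendsto' (hz w) fun n => le_SS hp n w
  have hqz : ∀ w, q w ≤ z w := fun w => ge_of_tendsto' (hz w) fun n => le_SS' hq n w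
  have hl1 : ∀ w, z w ≤ z (false :: w) + z (true :: w) := fun w =>
    le_of_tendsto_of_tendsto' (hz w) ((hz _).add (hz _)) fun n => SS_left hp hq n w
  have hl : ∀ w, z (false :: w) + z (true :: w) - z w = 0 := by
    intro w
    induction w using List.reverseRecOn with
    | nil =>
      have := hr []
      simp only [List.nil_append] at this
      linarith
    | append_singleton w b ih =>
      have e1 := hr (false :: w)
      have e2 := hr (true :: w)
      have e3 := hr w
      have e4 := hl1 (w ++ [false])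
      have e5 := hl1 (w ++ [true])
      simp only [List.cons_append] at e1 e2
      cases b <;> linarith
  have hzl : ∀ w, z w = z (false :: w) + z (true :: w) := fun w => by linarith [hl w]
  have hsub : ∀ {a b : V}, (∀ w, b w ≤ a w) → (∀ w, a w = a (w ++ [false]) + a (w ++ [true])) →
      (∀ w, a w = a (false :: w) + a (true :: w)) →
      (∀ w, b w = b (w ++ [false]) + b (w ++ [true])) →
      (∀ w, b w = b (false :: w) + b (true :: w)) → a - b ∈ PP := by
    intro a b h0 h1 h2 h3 h4
    refine ⟨fun w => ?_, fun w => ?_, fun w => ?_⟩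
    · simp only [Pi.sub_apply]
      linarith [h0 w]
    · simp only [Pi.sub_apply]
      rw [h1 w, h3 w]
      ring
    · simp only [Pi.sub_apply]
      rw [h2 w, h4 w]
      ring
  refine ⟨z, ⟨fun w => (hp.1 w).trans (hpz w), hr, hzl⟩, hsub hpz hr hzl hp.2.1 hp.2.2,
    hsub hqz hr hzl hq.2.1 hq.2.2, fun u hu h1 h2 => hsub (fun w => ?_) hu.2.1 hu.2.2 hr hzl⟩
  refine le_of_tendsto' (hz w) fun n => SS_le hu.2.1 (fun w => ?_) (fun w => ?_) n w
  · have := h1.1 w
    simp only [Pi.sub_apply] at this
    linarith
  · have := h2.1 w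
    simp only [Pi.sub_apply] at this
    linarith

theorem KK_simplex : IsSimplex KK := by
  refine ⟨KK_nonempty, KK_compact, KK_convex, fun x hx y hy => ?_⟩
  rw [mem_cone] at hx hy
  obtain ⟨z, hz, hzx, hzy, hzu⟩ := PP_lub hx.1 hy.1
  refine ⟨(z, z []), mem_cone.2 ⟨hz, rfl⟩, mem_cone.2 ⟨hzx, ?_⟩, mem_cone.2 ⟨hzy, ?_⟩,
    fun w hw h1 h2 => ?_⟩
  · simp only [Prod.fst_sub, Prod.snd_sub, Pi.sub_apply, hx.2]
  · simp only [Prod.fst_sub, Prod.snd_sub, Pi.sub_apply, hy.2]
  · rw [mem_cone] at hw h1 h2 ⊢
    refine ⟨hzu w.1 hw.1 h1.1 h2.1, ?_⟩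
    simp only [Prod.fst_sub, Prod.snd_sub, Pi.sub_apply, hw.2]

end RK
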