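import Pool.Agent.Helper90.RK.A02

/-!
# RK-A03: Riesz decomposition and extreme rays (about 150 lines)

Write `a ≤ b` for `b - a ∈ PP`.
* `riesz2`: let `z` be the least upper bound of `y` and `a` (`PP_lub`).  `a + b` is an upper bound of `y` and of `a`
  (`(a+b) - a = b`), so `z ≤ a + b`.  `y + a` is an upper bound, so `z ≤ y + a`.  Put `y₁ = y + a - z`, `y₂ = z - a`.  Then `y₁ ∈ PP`,
  `a - y₁ = z - y ∈ PP`, `y₂ ∈ PP`, `b - y₂ = a + b - z ∈ PP`, `y₁ + y₂ = y`.
* `riesz_sum`: induction on the finset `s` with `riesz2`.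
* `ext_ray`: let `e` be an extreme point of `KK`, `y ∈ PP`, `l • e - y ∈ PP`.  Then `y = y [] • e`.  Proof: if `y = 0` clear.  Let `t = y [] > 0`; then
  `l - t = (l • e - y) [] ≥ 0`, so `l ≥ t > 0`.  If `l = t` then `l • e - y = 0` by `PP_eq_zero`.  Otherwise
  `e = (t/l) • (t⁻¹ • y) + ((l-t)/l) • ((l-t)⁻¹ • (l • e - y))` is a proper convex combination of elements of `KK`, so
  `t⁻¹ • y = e` by extremality.
-/

namespace RK

open Set Filter Topology

theorem riesz2 {y a b : V} (hy : y ∈ PP) (ha : a ∈ PP) (hb : b ∈ PP) (h : a + b - y ∈ PP) :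
    ∃ y₁ ∈ PP, ∃ y₂ ∈ PP, y = y₁ + y₂ ∧ a - y₁ ∈ PP ∧ b - y₂ ∈ PP := by
  obtain ⟨z, hz, hzy, hza, hzu⟩ := PP_lub hy ha
  have h1 : a + b - z ∈ PP := by
    refine hzu (a + b) (PP_add ha hb) h ?_
    rw [add_sub_cancel_left]
    exact hb
  have h2 : y + a - z ∈ PP := by
    refine hzu (y + a) (PP_add hy ha) ?_ ?_
    · rw [add_sub_cancel_left]
      exact ha
    · rw [add_sub_cancel_right]
      exact hy
  refine ⟨y + a - z, h2, z - a, hza, ?_, ?_, ?_⟩
  · abel
  · have h3 : a - (y + a - z) = z - y := by abel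
    rw [h3]
    exact hzy
  · have h3 : b - (z - a) = a + b - z := by abel
    rw [h3]
    exact h1

theorem riesz_sum {ι : Type*} [DecidableEq ι] (s : Finset ι) (a : ι → V) (ha : ∀ i ∈ s, a i ∈ PP)
    {y : V} (hy : y ∈ PP) (h : ∑ i ∈ s, a i - y ∈ PP) :
    ∃ z : ι → V, (∀ i ∈ s, z i ∈ PP ∧ a i - z i ∈ PP) ∧ y = ∑ i ∈ s, z i := by
  induction s using Finset.induction_on generalizing y with
  | empty =>
    refine ⟨fun _ => 0, fun i hi => absurd hi (Finset.notMem_empty i), ?_⟩
    rw [Finset.sum_empty, zero_sub] at h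
    rw [Finset.sum_empty]
    exact PP_pointed hy h
  | insert i0 s hi0 ih =>
    rw [Finset.sum_insert hi0] at h
    obtain ⟨y₁, hy₁, y₂, hy₂, hyy, h1, h2⟩ := riesz2 hy (ha i0 (Finset.mem_insert_self i0 s))
      (PP_sum s a fun i hi => ha i (Finset.mem_insert_of_mem hi)) h
    obtain ⟨z, hz, hzs⟩ := ih (fun i hi => ha i (Finset.mem_insert_of_mem hi)) hy₂ h2
    have hne : ∀ i ∈ s, Function.update z i0 y₁ i = z i := by
      intro i hi
      rw [Function.update_of_ne]
      intro h3
      rw [h3] at hi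
      exact hi0 hi
    refine ⟨Function.update z i0 y₁, fun i hi => ?_, ?_⟩
    · rcases Finset.mem_insert.mp hi with h3 | h3
      · subst h3
        rw [Function.update_self]
        exact ⟨hy₁, h1⟩
      · rw [hne i h3]
        exact hz i h3
    · rw [Finset.sum_insert hi0, Function.update_self, Finset.sum_congr rfl hne, ← hzs]
      exact hyy

theorem ext_ray {e : V} (he : e ∈ KK.extremePoints ℝ) {y : V} (hy : y ∈ PP) {l : ℝ}
    (h : l • e - y ∈ PP) : y = y [] • e := by
  have heK : e ∈ KK := he.1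
  have he1 : e [] = 1 := heK.2
  by_cases hy0 : y = 0
  · subst hy0
    simp
  · have ht := PP_pos hy hy0
    have hq0 : (l • e - y) [] = l - y [] := by
      simp only [Pi.sub_apply, Pi.smul_apply, smul_eq_mul]
      rw [he1, mul_one]
    have hlt : 0 ≤ l - y [] := by
      rw [← hq0]
      exact h.1 []
    rcases hlt.lt_or_eq with h1 | h1
    · have hl : 0 < l := by linarith
      have hx1 : (y [])⁻¹ • y ∈ KK := PP_scale hy hy0
      have hqne : l • e - y ≠ 0 := by
        intro h2
        rw [h2] at hq0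
        have h3 : (0 : V) [] = 0 := rfl
        rw [h3] at hq0
        linarith
      have hx2 : ((l • e - y) [])⁻¹ • (l • e - y) ∈ KK := PP_scale h hqne
      have hseg : e ∈ openSegment ℝ ((y [])⁻¹ • y) (((l • e - y) [])⁻¹ • (l • e - y)) := by
        refine ⟨y [] / l, (l - y []) / l, div_pos ht hl, div_pos h1 hl, ?_, ?_⟩
        · field_simp
          ring
        · rw [hq0, smul_smul, smul_smul]
          have h4 : y [] / l * (y [])⁻¹ = l⁻¹ := by
            field_simp
          have h5 : (l - y []) / l * (l - y [])⁻¹ = l⁻¹ := by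
            field_simp
          rw [h4, h5, ← smul_add, add_sub_cancel, smul_smul, inv_mul_cancel₀ hl.ne', one_smul]
      have h6 := ((mem_extremePoints.mp he).2 _ hx1 _ hx2 hseg).1
      have h7 : y [] • ((y [])⁻¹ • y) = y [] • e := by rw [h6]
      rw [smul_smul, mul_inv_cancel₀ ht.ne', one_smul] at h7
      exact h7
    · have h2 : l • e - y = 0 := PP_eq_zero h (by rw [hq0, ← h1])
      have h3 : l = y [] := by linarith
      rw [← h3]
      exact (sub_eq_zero.mp h2).symm

/-- what is below a combination of extreme points is a combination of them -/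
theorem below_combo {ι : Type*} [DecidableEq ι] (s : Finset ι) (e : ι → V)
    (he : ∀ i ∈ s, e i ∈ KK.extremePoints ℝ) (p : ι → ℝ) (hp : ∀ i ∈ s, 0 ≤ p i) {y : V} (hy : y ∈ PP)
    (h : ∑ i ∈ s, p i • e i - y ∈ PP) :
    ∃ t : ι → ℝ, (∀ i ∈ s, 0 ≤ t i ∧ t i ≤ p i) ∧ y = ∑ i ∈ s, t i • e i := by
  have heP : ∀ i ∈ s, p i • e i ∈ PP := fun i hi => PP_smul (he i hi).1.1 (hp i hi)
  obtain ⟨z, hz, hzs⟩ := riesz_sum s (fun i => p i • e i) heP hy h
  have hzt : ∀ i ∈ s, z i = z i [] • e i := fun i hi => ext_ray (he i hi) (hz i hi).1 (hz i hi).2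
  refine ⟨fun i => z i [], fun i hi => ⟨(hz i hi).1.1 [], ?_⟩, ?_⟩
  · have h1 := (hz i hi).2.1 []
    simp only [Pi.sub_apply, Pi.smul_apply, smul_eq_mul] at h1
    have h2 : e i [] = 1 := (he i hi).1.2
    rw [h2, mul_one] at h1
    linarith
  · rw [hzs]
    exact Finset.sum_congr rfl hzt

private theorem ei_pos {ι : Type*} [Fintype ι] [DecidableEq ι] (e : ι → V)
    (he : ∀ i, e i ∈ KK.extremePoints ℝ) (hinj : Function.Injective e) (g : ι → ℝ)
    (hg : ∑ i, g i • e i = 0) (i0 : ι) : ¬ 0 < g i0 := by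
  intro hpos
  have he1 : ∀ i, e i [] = 1 := fun i => (he i).1.2
  have heP : ∀ i, e i ∈ PP := fun i => (he i).1.1
  set B := Finset.univ.filter fun j => g j < 0 with hB
  have hy : g i0 • e i0 ∈ PP := PP_smul (heP i0) hpos.le
  have hi0 : i0 ∈ Finset.univ.filter fun j => ¬ g j < 0 := by
    rw [Finset.mem_filter]
    exact ⟨Finset.mem_univ _, by linarith⟩
  have hsplit := Finset.sum_filter_add_sum_filter_not Finset.univ (fun j => g j < 0)
    (fun j => g j • e j)
  rw [hg, ← Finset.add_sum_erase _ _ hi0] at hsplit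
  have hbel : ∑ j ∈ B, (-g j) • e j - g i0 • e i0 ∈ PP := by
    have h1 : ∑ j ∈ B, (-g j) • e j - g i0 • e i0 =
        ∑ j ∈ (Finset.univ.filter fun j => ¬ g j < 0).erase i0, g j • e j := by
      have h2 : ∑ j ∈ B, (-g j) • e j = -∑ j ∈ B, g j • e j := by
        rw [← Finset.sum_neg_distrib]
        exact Finset.sum_congr rfl fun j _ => neg_smul _ _
      rw [h2]
      have h3 : -∑ j ∈ B, g j • e j = g i0 • e i0 +
          ∑ j ∈ (Finset.univ.filter fun j => ¬ g j < 0).erase i0, g j • e j :=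
        (eq_neg_of_add_eq_zero_right hsplit).symm ▸ rfl
      rw [h3, add_sub_cancel_left]
    rw [h1]
    refine PP_sum _ _ fun j hj => PP_smul (heP j) ?_
    have h4 := (Finset.mem_filter.mp (Finset.mem_of_mem_erase hj)).2
    linarith
  obtain ⟨t, ht, hts⟩ := below_combo B e (fun i _ => he i) (fun j => -g j)
    (fun j hj => by
      have h5 := (Finset.mem_filter.mp hj).2
      show 0 ≤ -g j
      linarith) hy hbel
  have ht0 : ∀ j ∈ B, t j = 0 := by
    intro j hj
    by_contra hne
    have h6 : (g i0) • e i0 - t j • e j ∈ PP := by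
      rw [hts, ← Finset.add_sum_erase _ _ hj, add_sub_cancel_left]
      exact PP_sum _ _ fun k hk => PP_smul (heP k) (ht k (Finset.mem_of_mem_erase hk)).1
    have h7 := ext_ray (he i0) (PP_smul (heP j) (ht j hj).1) h6
    have h8 : (t j • e j) [] = t j := by
      simp only [Pi.smul_apply, smul_eq_mul]
      rw [he1, mul_one]
    rw [h8] at h7
    have h9 : e j = e i0 := smul_right_injective V hne h7
    have h10 := hinj h9
    rw [h10] at hj
    have h11 := (Finset.mem_filter.mp hj).2
    linarith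
  have h12 : g i0 • e i0 = 0 := by
    rw [hts]
    exact Finset.sum_eq_zero fun j hj => by rw [ht0 j hj, zero_smul]
  have h13 := congrFun h12 []
  simp only [Pi.smul_apply, smul_eq_mul, Pi.zero_apply] at h13
  rw [he1, mul_one] at h13
  linarith

/-- distinct extreme points are linearly independent.  Proof: if not, there are disjoint finite sets `A`, `B` and
coefficients `a, b > 0` with `∑_A a i • e i = ∑_B b j • e j`, `A` nonempty (move the negative terms to the other side; both sides are not `0`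
by evaluating at `[]`, where all `e i [] = 1`).  Let `i ∈ A`.  Then `a i • e i ≤ ∑_B b j • e j`, so by `riesz_sum` it is a sum of
`y j ∈ PP` with `y j ≤ b j • e j`; `y j ≤ a i • e i` too.  By `ext_ray` twice `y j = y j [] • e j = y j [] • e i`; as
`e j ≠ e i`, `y j [] = 0`, so `y j = 0`.  So `a i • e i = 0`, contradiction. -/
theorem ext_indep {ι : Type*} [Fintype ι] [DecidableEq ι] (e : ι → V)
    (he : ∀ i, e i ∈ KK.extremePoints ℝ) (hinj : Function.Injective e) :
    LinearIndependent ℝ e := by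
  rw [Fintype.linearIndependent_iff]
  intro g hg i
  have h1 := ei_pos e he hinj g hg i
  have h2 := ei_pos e he hinj (fun j => -g j) (by
    have h3 : ∑ j, (-g j) • e j = -∑ j, g j • e j := by
      rw [← Finset.sum_neg_distrib]
      exact Finset.sum_congr rfl fun j _ => neg_smul _ _
    rw [h3, hg, neg_zero]) i
  have h4 : ¬ 0 < -g i := h2
  linarith [not_lt.mp h1, not_lt.mp h4]

end RK
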