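import Pool.Agent.Helper90.RK.A03

/-!
# RK-A04: combinations of `m` extreme points (about 80 lines)

`Ind_combo`: `y i = e i`: linearly independent by `ext_indep`; `(p i)⁻¹ • x - e i = ∑_{j ≠ i} (p j / p i) • e j ∈ PP`.
`not_Ind_combo`: let `y : Fin (m+1) → V` be linearly independent, `y i ∈ PP`, `l • x - y i ∈ PP`.  As `y i ≠ 0`, `l ≥ 0`
(evaluate at `[]`).  By `below_combo` (with coefficients `l * p i`) every `y i` is in the span of the `e j`, `j < m`, which
has dimension `≤ m`; contradiction (`LinearIndependent.fintype_card_le_finrank` or similar).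
`rK_combo`: `Ind` is decreasing in `m` (restrict the family: `Fin.castLE`), so `{m | Ind m x} = {0, ..., m}`.
`Ind_one`: `y 0 = x`, `l = 1`; `x ≠ 0`.
-/

namespace RK

open Set Filter Topology

theorem Ind_mono {m n : ℕ} (h : m ≤ n) {x : V} (hx : Ind n x) : Ind m x := by
  obtain ⟨y, hli, hy⟩ := hx
  exact ⟨fun i => y (Fin.castLE h i), hli.comp _ (Fin.castLE_injective h), fun i => hy _⟩

theorem Ind_one {x : V} (hx : x ∈ KK) : Ind 1 x := by
  have hne : x ≠ 0 := by
    intro h
    have h1 := hx.2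
    rw [h] at h1
    exact zero_ne_one h1
  refine ⟨fun _ => x, ?_, fun _ => ⟨hx.1, 1, ?_⟩⟩
  · rw [Fintype.linearIndependent_iff]
    intro g hg i
    rw [Fin.sum_univ_one] at hg
    have h1 := (smul_eq_zero.mp hg).resolve_right hne
    rw [Subsingleton.elim i 0]
    exact h1
  · rw [one_smul, sub_self]
    exact PP_zero

theorem Ind_combo {m : ℕ} {e : Fin m → V} {p : Fin m → ℝ} {x : V} (hinj : Function.Injective e)
    (he : ∀ i, e i ∈ KK.extremePoints ℝ) (hp : ∀ i, 0 < p i) (hx : x = ∑ i, p i • e i) :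
    Ind m x := by
  refine ⟨e, ext_indep e he hinj, fun i => ⟨(he i).1.1, (p i)⁻¹, ?_⟩⟩
  have h1 : (p i)⁻¹ • x - e i = (p i)⁻¹ • ∑ j ∈ Finset.univ.erase i, p j • e j := by
    rw [hx, ← Finset.add_sum_erase _ _ (Finset.mem_univ i), smul_add, smul_smul,
      inv_mul_cancel₀ (hp i).ne', one_smul, add_sub_cancel_left]
  rw [h1]
  exact PP_smul (PP_sum _ _ fun j _ => PP_smul (he j).1.1 (hp j).le) (inv_nonneg.mpr (hp i).le)

theorem not_Ind_combo {m : ℕ} {e : Fin m → V} {p : Fin m → ℝ} {x : V}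
    (he : ∀ i, e i ∈ KK.extremePoints ℝ) (hp : ∀ i, 0 < p i) (hx : x = ∑ i, p i • e i) :
    ¬ Ind (m + 1) x := by
  rintro ⟨y, hli, hy⟩
  have hmem : ∀ i, y i ∈ Submodule.span ℝ (Set.range e) := by
    intro i
    obtain ⟨hyi, l, hl⟩ := hy i
    have hpos := PP_pos hyi (hli.ne_zero i)
    have h1 := hl.1 []
    simp only [Pi.sub_apply, Pi.smul_apply, smul_eq_mul] at h1
    have hxP : x ∈ PP := by
      rw [hx]
      exact PP_sum _ _ fun j _ => PP_smul (he j).1.1 (hp j).le
    have hx0 := hxP.1 []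
    have hl0 : 0 ≤ l := by
      by_contra h2
      push Not at h2
      nlinarith
    have h3 : l • x = ∑ j, (l * p j) • e j := by
      rw [hx, Finset.smul_sum]
      exact Finset.sum_congr rfl fun j _ => smul_smul _ _ _
    rw [h3] at hl
    obtain ⟨t, _, ht⟩ := below_combo Finset.univ e (fun j _ => he j) (fun j => l * p j)
      (fun j _ => mul_nonneg hl0 (hp j).le) hyi hl
    rw [ht]
    exact Submodule.sum_mem _ fun j _ => Submodule.smul_mem _ _
      (Submodule.subset_span (Set.mem_range_self j))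
  have hli2 : LinearIndependent ℝ (fun i => (⟨y i, hmem i⟩ :
      Submodule.span ℝ (Set.range e))) := by
    apply LinearIndependent.of_comp (Submodule.subtype _)
    exact hli
  have : FiniteDimensional ℝ (Submodule.span ℝ (Set.range e)) :=
    FiniteDimensional.span_of_finite ℝ (Set.finite_range e)
  have h4 := hli2.fintype_card_le_finrank
  have h5 := finrank_range_le_card (R := ℝ) e
  have h6 : Set.finrank ℝ (Set.range e) =
      Module.finrank ℝ (Submodule.span ℝ (Set.range e)) := rfl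
  rw [h6] at h5
  rw [Fintype.card_fin] at h4 h5
  omega

theorem rK_combo {m : ℕ} {e : Fin m → V} {p : Fin m → ℝ} (x : KK) (hinj : Function.Injective e)
    (he : ∀ i, e i ∈ KK.extremePoints ℝ) (hp : ∀ i, 0 < p i) (hx : (x : V) = ∑ i, p i • e i) :
    rK x = m := by
  have h1 : Ind m (x : V) := Ind_combo hinj he hp hx
  have h2 : ¬ Ind (m + 1) (x : V) := not_Ind_combo he hp hx
  unfold rK
  refine le_antisymm (iSup₂_le fun m' hm' => ?_) (le_iSup₂ (f := fun (m : ℕ) (_ : Ind m (x : V)) =>
    (m : ℕ∞)) m h1)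
  by_contra h3
  push Not at h3
  have h4 : m < m' := by exact_mod_cast h3
  exact h2 (Ind_mono h4 hm')

theorem rK_ge (x : KK) (m : ℕ) : ((m : ℕ∞) + 1 ≤ rK x) ↔ Ind (m + 1) (x : V) := by
  constructor
  · intro h
    by_contra h2
    have h3 : rK x ≤ m := by
      unfold rK
      refine iSup₂_le fun m' hm' => ?_
      by_contra h4
      push Not at h4
      have h5 : m < m' := by exact_mod_cast h4
      exact h2 (Ind_mono h5 hm')
    have h6 := h.trans h3
    have h7 : (m : ℕ∞) < (m : ℕ∞) + 1 := by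
      exact_mod_cast Nat.lt_succ_self m
    exact absurd h6 (not_le.mpr h7)
  · intro h
    unfold rK
    have h1 := le_iSup₂ (f := fun (m : ℕ) (_ : Ind m (x : V)) => (m : ℕ∞)) (m + 1) h
    exact_mod_cast h1

end RK
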