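import Pool.Agent.Helper90.RK.A04

/-!
# RK-A05: elements of finite rank are finite combinations of extreme points (about 200 lines)

Claim, by induction on `m`: if `x ∈ KK` and `¬ Ind (m + 1) x` then `x = ∑ i, p i • e i` with finitely many extreme points `e i`
and `p i > 0`, `∑ p i = 1`.  (`m = 0` is impossible by `Ind_one`.)
Write `a ≤ b` for `b - a ∈ PP`.  Let `m ≥ 1`, `¬ Ind (m + 1) x`.
1. Let `I = {y ∈ PP | ∃ l, y ≤ l • x}` and let `y₁, ..., y_d ∈ I` be a linearly independent family of maximal length (`d ≤ m`);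
   `W` its span.  Every `y ∈ I` is in `W`.
2. `KK ∩ W = KK ∩ I`: if `z = ∑ c_i y_i ∈ KK` then `z ≤ (∑ |c_i| l_i) • x`.  `W` is closed (finite dimensional:
   `Submodule.closed_of_finiteDimensional`), so `C = KK ∩ W` is compact; it is convex and contains `x`.
3. By Krein-Milman (`IsCompact.extremePoints_nonempty`; `V` is a locally convex Hausdorff space) `C` has an extreme point `e`.  It is an extreme point
   of `KK`: if `e` is in the open segment of `a, b ∈ KK`, then `a ≤ (const) • e`, so `a ∈ I`, similarly `b`; so `a, b ∈ C`.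
4. `e ≤ l • x` with `l > 0`.  Let `t = sup {s ∈ [0,1] | s • e ≤ x}`; the set is compact, nonempty, contains `1/l` if `l ≥ 1` (else `1`), so `t > 0` is
   attained.  (`s • e ≤ x` implies `s ≤ 1` by evaluation at `[]`.)
5. If `t = 1` then `x - e ∈ PP` and `(x - e) [] = 0`, `x = e`.
6. If `t < 1` put `x' = (1-t)⁻¹ • (x - t • e) ∈ KK`.  `x' ≤ (1-t)⁻¹ • x`.  Claim `¬ Ind m x'`: suppose `y : Fin m → V` is linearly independent, `y i ≤ l' • x'`.
   `e` is not in the span of the `y i`: otherwise `e ≤ L • x'` for some `L > 0`, so `x = t • e + (1-t) • x' ≥ (t + (1-t)/L) • e`, contradicting the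
   maximality of `t`.  So the `m + 1` vectors `y i`, `e` are linearly independent (`LinearIndependent.fin_cons'` or `fin_snoc`) and all below multiples
   of `x`: `Ind (m+1) x`, contradiction.
7. By induction `x' = ∑ p_i e_i`, and `x = t • e + (1-t) • x'`.
The statement does not ask that the `e i` are distinct.
-/

namespace RK

open Set Filter Topology

theorem a05_span {n : ℕ} {y : Fin n → V} {x : V} (hy : ∀ i, y i ∈ PP ∧ ∃ l : ℝ, l • x - y i ∈ PP)
    {z : V} (hz : z ∈ Submodule.span ℝ (range y)) : ∃ L : ℝ, L • x - z ∈ PP := by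
  obtain ⟨c, rfl⟩ := (Submodule.mem_span_range_iff_exists_fun ℝ).1 hz
  choose hyP l hl using hy
  refine ⟨∑ i, |c i| * l i, ?_⟩
  have h : (∑ i, |c i| * l i) • x - ∑ i, c i • y i =
      ∑ i, (|c i| • (l i • x - y i) + (|c i| - c i) • y i) := by
    rw [Finset.sum_smul, ← Finset.sum_sub_distrib]
    refine Finset.sum_congr rfl fun i _ => ?_
    module
  rw [h]
  refine PP_sum _ _ fun i _ => PP_add (PP_smul (hl i) (abs_nonneg _))
    (PP_smul (hyP i) (sub_nonneg.2 (le_abs_self _)))

theorem a05_indep {n : ℕ} {y : Fin n → V} {x : V} (hli : LinearIndependent ℝ y)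
    (hy : ∀ i, y i ∈ PP ∧ ∃ l : ℝ, l • x - y i ∈ PP) {z : V} (hzP : z ∈ PP)
    (hzl : ∃ l : ℝ, l • x - z ∈ PP) (hz : z ∉ Submodule.span ℝ (range y)) : Ind (n + 1) x := by
  refine ⟨Fin.cons z y, ?_, ?_⟩
  · rw [linearIndependent_finCons]
    exact ⟨hli, hz⟩
  · intro i
    refine Fin.cases ?_ (fun j => ?_) i
    · simpa using ⟨hzP, hzl⟩
    · simpa using hy j

theorem combo_of_not_Ind (m : ℕ) : ∀ x ∈ KK, ¬ Ind (m + 1) x →
    ∃ (n : ℕ) (e : Fin n → V) (p : Fin n → ℝ), (∀ i, e i ∈ KK.extremePoints ℝ) ∧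
      (∀ i, 0 < p i) ∧ ∑ i, p i = 1 ∧ x = ∑ i, p i • e i := by
  induction m with
  | zero => exact fun x hx h => absurd (Ind_one hx) h
  | succ m ih =>
  intro x hx h
  -- a maximal independent family
  obtain ⟨d, hd, hd'⟩ : ∃ d, Ind d x ∧ ¬ Ind (d + 1) x := by
    classical
    by_contra hcon
    push Not at hcon
    have : ∀ k, Ind k x := by
      intro k
      induction k with
      | zero => exact Ind_mono (Nat.zero_le 1) (Ind_one hx)
      | succ k ihk => exact hcon k ihk
    exact h (this _)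
  obtain ⟨y, hli, hy⟩ := hd
  set W := Submodule.span ℝ (range y) with hW
  have hIW : ∀ z ∈ PP, (∃ l : ℝ, l • x - z ∈ PP) → z ∈ W := by
    intro z hz hzl
    by_contra hcon
    exact hd' (a05_indep hli hy hz hzl hcon)
  have : FiniteDimensional ℝ W := FiniteDimensional.span_of_finite ℝ (finite_range y)
  have hWc : IsClosed (W : Set V) := Submodule.closed_of_finiteDimensional W
  have hxW : x ∈ W := hIW x hx.1 ⟨1, by rw [one_smul, sub_self]; exact PP_zero⟩
  have hCc : IsCompact (KK ∩ (W : Set V)) := KK_compact.inter_right hWc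
  obtain ⟨e, he⟩ := hCc.extremePoints_nonempty ⟨x, hx, hxW⟩
  have heC : e ∈ KK ∩ (W : Set V) := he.1
  obtain ⟨L, hL⟩ := a05_span hy heC.2
  have heK : e ∈ KK.extremePoints ℝ := by
    rw [mem_extremePoints]
    refine ⟨heC.1, fun x₁ hx₁ x₂ hx₂ hseg => ?_⟩
    obtain ⟨a, b, ha, hb, hab, hE⟩ := hseg
    have key : ∀ (a b : ℝ) (u v : V), 0 < a → 0 < b → u ∈ KK → v ∈ KK → a • u + b • v = e →
        u ∈ W := by
      intro a b u v ha hb hu hv huv
      refine hIW u hu.1 ⟨L / a, ?_⟩
      have h1 : (L / a) • x - u = (1 / a) • (L • x - e) + (b / a) • v := by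
        rw [← huv]
        have ha' : a ≠ 0 := ha.ne'
        ext w
        simp only [Pi.sub_apply, Pi.smul_apply, Pi.add_apply, smul_eq_mul]
        field_simp
        ring
      rw [h1]
      exact PP_add (PP_smul hL (by positivity)) (PP_smul hv.1 (by positivity))
    have h1 : x₁ ∈ W := key a b x₁ x₂ ha hb hx₁ hx₂ hE
    have h2 : x₂ ∈ W := key b a x₂ x₁ hb ha hx₂ hx₁ (by rw [add_comm]; exact hE)
    exact (mem_extremePoints.1 he).2 x₁ ⟨hx₁, h1⟩ x₂ ⟨hx₂, h2⟩ ⟨a, b, ha, hb, hab, hE⟩
  have heP : e ∈ PP := heC.1.1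
  have he1 : e [] = 1 := heC.1.2
  have hx1 : x [] = 1 := hx.2
  -- evaluation
  have hev : ∀ (s : ℝ) (z : V), z [] = 1 → s • z - e ∈ PP → 1 ≤ s := by
    intro s z hz hs
    have h1 := hs.1 []
    simp only [Pi.sub_apply, Pi.smul_apply, smul_eq_mul, hz, he1, mul_one] at h1
    linarith
  have hL1 : 1 ≤ L := hev L x hx1 hL
  set S : Set ℝ := {s | x - s • e ∈ PP} with hS
  have hSc : IsClosed S := by
    have hc : Continuous fun s : ℝ => x - s • e := by fun_prop
    exact PP_closed.preimage hc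
  have hSb : ∀ s ∈ S, s ≤ 1 := by
    intro s hs
    have h1 := hs.1 []
    simp only [Pi.sub_apply, Pi.smul_apply, smul_eq_mul, hx1, he1, mul_one] at h1
    linarith
  have hLS : 1 / L ∈ S := by
    have h1 : x - (1 / L) • e = (1 / L) • (L • x - e) := by
      have hL0 : L ≠ 0 := by positivity
      rw [smul_sub, smul_smul, one_div, inv_mul_cancel₀ hL0, one_smul]
    show x - (1 / L) • e ∈ PP
    rw [h1]
    exact PP_smul hL (by positivity)
  set t := sSup S with ht
  have htS : t ∈ S := hSc.csSup_mem ⟨_, hLS⟩ ⟨1, hSb⟩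
  have ht0 : 0 < t := lt_of_lt_of_le (by positivity : (0 : ℝ) < 1 / L) (le_csSup ⟨1, hSb⟩ hLS)
  have ht1 : t ≤ 1 := hSb t htS
  rcases eq_or_lt_of_le ht1 with h1 | h1
  · have h2 : x - e ∈ PP := by
      have h3 : x - t • e ∈ PP := htS
      rwa [h1, one_smul] at h3
    have h3 : x - e = 0 := PP_eq_zero h2 (by
      simp only [Pi.sub_apply, hx1, he1, sub_self])
    refine ⟨1, fun _ => e, fun _ => 1, fun _ => heK, fun _ => one_pos, by simp, ?_⟩
    simpa using sub_eq_zero.1 h3
  · have h1t : 0 < 1 - t := sub_pos.2 h1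
    obtain ⟨x', hx'⟩ : ∃ x' : V, x' = (1 - t)⁻¹ • (x - t • e) := ⟨_, rfl⟩
    have htP : x - t • e ∈ PP := htS
    have hx'P : x' ∈ PP := by
      rw [hx']
      exact PP_smul htP (by positivity)
    have hx'1 : x' [] = 1 := by
      simp only [hx', Pi.smul_apply, Pi.sub_apply, smul_eq_mul, hx1, he1, mul_one]
      exact inv_mul_cancel₀ h1t.ne'
    have hxx' : x = t • e + (1 - t) • x' := by
      rw [hx', smul_smul, mul_inv_cancel₀ h1t.ne', one_smul]
      abel
    have hnot : ¬ Ind (m + 1) x' := by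
      rintro ⟨y', hli', hy'⟩
      have hy'x : ∀ i, y' i ∈ PP ∧ ∃ l : ℝ, l • x - y' i ∈ PP := by
        intro i
        obtain ⟨hi, l, hl⟩ := hy' i
        refine ⟨hi, l * (1 - t)⁻¹, ?_⟩
        have hl0 : 0 ≤ l := by
          have h2 := hl.1 []
          have h3 := hi.1 []
          simp only [Pi.sub_apply, Pi.smul_apply, smul_eq_mul, hx'1, mul_one] at h2
          linarith
        have h2 : (l * (1 - t)⁻¹) • x - y' i = (l • x' - y' i) + (l * (1 - t)⁻¹ * t) • e := by
          rw [hx']
          module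
        rw [h2]
        exact PP_add hl (PP_smul heP (by positivity))
      have hesp : e ∉ Submodule.span ℝ (range y') := by
        intro hcon
        obtain ⟨L', hL'⟩ := a05_span hy' hcon
        have hL'1 : 1 ≤ L' := hev L' x' hx'1 hL'
        have h2 : t + (1 - t) / L' ∈ S := by
          show x - (t + (1 - t) / L') • e ∈ PP
          have h3 : x - (t + (1 - t) / L') • e = ((1 - t) / L') • (L' • x' - e) := by
            conv_lhs => rw [hxx']
            rw [smul_sub, smul_smul, div_mul_cancel₀ _ (by positivity : L' ≠ 0)]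
            module
          rw [h3]
          exact PP_smul hL' (by positivity)
        have h3 := le_csSup ⟨1, hSb⟩ h2
        have h4 : 0 < (1 - t) / L' := by positivity
        rw [← ht] at h3
        linarith
      exact h (a05_indep hli' hy'x heP ⟨L, hL⟩ hesp)
    obtain ⟨n, e', p, h2, h3, h4, h5⟩ := ih x' ⟨hx'P, hx'1⟩ hnot
    refine ⟨n + 1, Fin.cons e e', Fin.cons t (fun i => (1 - t) * p i), ?_, ?_, ?_, ?_⟩
    · intro i
      refine Fin.cases ?_ (fun j => ?_) i
      · simpa using heK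
      · simpa using h2 j
    · intro i
      refine Fin.cases ?_ (fun j => ?_) i
      · simpa using ht0
      · simpa using mul_pos h1t (h3 j)
    · rw [Fin.sum_univ_succ]
      simp only [Fin.cons_zero, Fin.cons_succ]
      rw [← Finset.mul_sum, h4]
      ring
    · rw [Fin.sum_univ_succ]
      simp only [Fin.cons_zero, Fin.cons_succ]
      rw [hxx', h5, Finset.smul_sum]
      simp only [smul_smul]

end RK
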