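import Pool.Agent.Helper90.RK.A04

/-!
# RK-A06: `{x ∈ KK | Ind (m+1) x}` is an increasing union of closed sets (about 150 lines)

1. The set `D` of the linearly dependent families `y : Fin n → V` is closed in `Fin n → V`: the set
   `{(c, y) | c ∈ sphere, ∑ c i • y i = 0}`, `c : Fin n → ℝ` with `‖c‖ = 1` (a compact space), is closed, and `D` is its image under the projection, which is a
   closed map (`isClosedMap_snd_of_compactSpace`).  (`¬ LinearIndependent` iff there is `c ≠ 0` with `∑ c i • y i = 0`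
   (`Fintype.linearIndependent_iff`), normalize `c`.)
2. So its complement `U` is open; `Fin n → V` is metrizable (`List Bool` is countable), so `U = ⋃ j, C j` with `C j` closed, increasing
   (`IsOpen.exists_iUnion_isClosed`, after `letI := TopologicalSpace.metrizableSpaceMetric _`).
3. For `x ∈ KK`: `Ind n x` iff there are `j : ℕ` and `y ∈ C j` with `y i ∈ KK`, `(j : ℝ) • x - y i ∈ PP` for all `i`.
   (Given `y i ∈ PP` with `l i • x - y i ∈ PP`, linearly independent, so `y i ≠ 0`; replace `y i` by `(y i [])⁻¹ • y i`; `l` may be increased, as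
   `x ∈ PP`; `C j` increases.)
4. `F j = {x : KK | ∃ y ∈ C j, ∀ i, y i ∈ KK ∧ (j : ℝ) • x - y i ∈ PP}` is closed: projection of a closed subset of
   `KK × (compact set of the y)` along a compact factor.
-/

namespace RK

open Set Filter Topology

private theorem isClosed_dep (n : ℕ) : IsClosed {y : Fin n → V | ¬ LinearIndependent ℝ y} := by
  have hK : IsCompact (Metric.sphere (0 : Fin n → ℝ) 1) := isCompact_sphere _ _
  have : CompactSpace (Metric.sphere (0 : Fin n → ℝ) 1) := isCompact_iff_compactSpace.mp hK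
  have e : {y : Fin n → V | ¬ LinearIndependent ℝ y} =
      Prod.snd '' {p : (Metric.sphere (0 : Fin n → ℝ) 1) × (Fin n → V) |
        ∑ i, (p.1 : Fin n → ℝ) i • p.2 i = 0} := by
    ext y
    simp only [Set.mem_ofPred_eq, Set.mem_image, Prod.exists]
    constructor
    · intro h
      rw [Fintype.linearIndependent_iff] at h
      push Not at h
      obtain ⟨g, hg, i, hi⟩ := h
      have hg0 : g ≠ 0 := fun h0 => hi (by rw [h0]; rfl)
      have hn : ‖g‖ ≠ 0 := norm_ne_zero_iff.mpr hg0
      refine ⟨⟨‖g‖⁻¹ • g, ?_⟩, y, ?_, rfl⟩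
      · rw [mem_sphere_zero_iff_norm, norm_smul, norm_inv, norm_norm, inv_mul_cancel₀ hn]
      · have e1 : ∑ i, (‖g‖⁻¹ • g) i • y i = ‖g‖⁻¹ • ∑ i, g i • y i := by
          rw [Finset.smul_sum]
          refine Finset.sum_congr rfl fun i _ => ?_
          rw [Pi.smul_apply, smul_eq_mul, mul_smul]
        exact e1.trans (by rw [hg, smul_zero])
    · rintro ⟨c, z, hz, rfl⟩ hl
      rw [Fintype.linearIndependent_iff] at hl
      have h0 : (c : Fin n → ℝ) = 0 := funext fun i => hl _ hz i
      have h1 : ‖(c : Fin n → ℝ)‖ = 1 := mem_sphere_zero_iff_norm.mp c.2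
      rw [h0, norm_zero] at h1
      exact zero_ne_one h1
  rw [e]
  refine isClosedMap_snd_of_compactSpace _ (isClosed_eq ?_ continuous_const)
  refine continuous_finsetSum _ fun i _ => ?_
  exact ((continuous_apply i).comp (continuous_subtype_val.comp continuous_fst)).smul
    ((continuous_apply i).comp continuous_snd)

private theorem exists_closed_cover (n : ℕ) : ∃ C : ℕ → Set (Fin n → V), (∀ j, IsClosed (C j)) ∧
    Monotone C ∧ ⋃ j, C j = {y : Fin n → V | LinearIndependent ℝ y} := by
  let _ : MetricSpace (Fin n → V) := TopologicalSpace.metrizableSpaceMetric _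
  have ho : IsOpen {y : Fin n → V | LinearIndependent ℝ y} := by
    have e := (isClosed_dep n).isOpen_compl
    have e2 : {y : Fin n → V | ¬ LinearIndependent ℝ y}ᶜ = {y : Fin n → V | LinearIndependent ℝ y} := by
      ext y
      simp only [Set.mem_compl_iff, Set.mem_ofPred_eq, not_not]
    rwa [e2] at e
  obtain ⟨F, h1, h2, h3, h4⟩ := ho.exists_iUnion_isClosed
  exact ⟨F, h1, h4, h3⟩

theorem Ind_Fsigma (n : ℕ) : ∃ F : ℕ → Set KK, (∀ j, IsClosed (F j)) ∧ Monotone F ∧
    ⋃ j, F j = {x : KK | Ind n (x : V)} := by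
  obtain ⟨C, hC, hCm, hCu⟩ := exists_closed_cover n
  have : CompactSpace KK := isCompact_iff_compactSpace.mp KK_compact
  have hmono : ∀ (x : KK) (a b : ℝ) (y : V), a ≤ b → a • (x : V) - y ∈ PP → b • (x : V) - y ∈ PP := by
    intro x a b y hab h
    have e : b • (x : V) - y = (a • (x : V) - y) + (b - a) • (x : V) := by
      rw [sub_smul]
      abel
    rw [e]
    exact PP_add h (PP_smul x.2.1 (sub_nonneg.mpr hab))
  refine ⟨fun j => {x : KK | ∃ y : Fin n → KK, (fun i => (y i : V)) ∈ C j ∧
    ∀ i, (j : ℝ) • (x : V) - (y i : V) ∈ PP}, ?_, ?_, ?_⟩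
  · intro j
    have e : {x : KK | ∃ y : Fin n → KK, (fun i => (y i : V)) ∈ C j ∧
        ∀ i, (j : ℝ) • (x : V) - (y i : V) ∈ PP} =
        Prod.fst '' {p : KK × (Fin n → KK) | (fun i => (p.2 i : V)) ∈ C j ∧
          ∀ i, (j : ℝ) • (p.1 : V) - (p.2 i : V) ∈ PP} := by
      ext x
      simp only [Set.mem_ofPred_eq, Set.mem_image, Prod.exists]
      constructor
      · rintro ⟨y, hy⟩
        exact ⟨x, y, hy, rfl⟩
      · rintro ⟨x', y, hy, rfl⟩
        exact ⟨y, hy⟩
    beta_reduce
    rw [e]
    refine isClosedMap_fst_of_compactSpace _ ?_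
    have e2 : {p : KK × (Fin n → KK) | (fun i => (p.2 i : V)) ∈ C j ∧
          ∀ i, (j : ℝ) • (p.1 : V) - (p.2 i : V) ∈ PP} =
        {p : KK × (Fin n → KK) | (fun i => (p.2 i : V)) ∈ C j} ∩
          ⋂ i, {p : KK × (Fin n → KK) | (j : ℝ) • (p.1 : V) - (p.2 i : V) ∈ PP} := by
      ext p
      simp only [Set.mem_ofPred_eq, Set.mem_inter_iff, Set.mem_iInter]
    rw [e2]
    refine IsClosed.inter ?_ (isClosed_iInter fun i => ?_)
    · refine (hC j).preimage ?_
      exact continuous_pi fun i => continuous_subtype_val.comp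
        ((continuous_apply i).comp continuous_snd)
    · refine PP_closed.preimage ?_
      exact ((continuous_subtype_val.comp continuous_fst).const_smul (j : ℝ)).sub
        (continuous_subtype_val.comp ((continuous_apply i).comp continuous_snd))
  · intro j k hjk x hx
    obtain ⟨y, hy, hy2⟩ := hx
    exact ⟨y, hCm hjk hy, fun i => hmono x j k _ (by exact_mod_cast hjk) (hy2 i)⟩
  · ext x
    simp only [Set.mem_iUnion, Set.mem_ofPred_eq]
    constructor
    · rintro ⟨j, y, hy, hy2⟩
      have hl : LinearIndependent ℝ (fun i => (y i : V)) := by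
        have : (fun i => (y i : V)) ∈ ⋃ j, C j := Set.mem_iUnion.mpr ⟨j, hy⟩
        rwa [hCu] at this
      exact ⟨fun i => (y i : V), hl, fun i => ⟨(y i).2.1, j, hy2 i⟩⟩
    · rintro ⟨y, hl, hy⟩
      have hne : ∀ i, y i ≠ 0 := fun i => hl.ne_zero i
      have hpos : ∀ i, 0 < (y i) [] := fun i => PP_pos (hy i).1 (hne i)
      have hl2 : LinearIndependent ℝ (fun i => ((y i) [])⁻¹ • y i) := by
        have := hl.units_smul (fun i => Units.mk0 ((y i) [])⁻¹ (inv_ne_zero (hpos i).ne'))
        exact this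
      have hmem : (fun i => ((y i) [])⁻¹ • y i) ∈ ⋃ j, C j := by
        rw [hCu]
        exact hl2
      obtain ⟨j0, hj0⟩ := Set.mem_iUnion.mp hmem
      choose l hlx using fun i => (hy i).2
      obtain ⟨j1, hj1⟩ : ∃ j1 : ℕ, ∀ i, ((y i) [])⁻¹ * l i ≤ j1 := by
        obtain ⟨M, hM⟩ := (Set.finite_range (fun i => ((y i) [])⁻¹ * l i)).bddAbove
        obtain ⟨j1, h⟩ := exists_nat_ge M
        exact ⟨j1, fun i => (hM ⟨i, rfl⟩).trans h⟩
      refine ⟨max j0 j1, fun i => ⟨((y i) [])⁻¹ • y i, PP_scale (hy i).1 (hne i)⟩, ?_, fun i => ?_⟩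
      · exact hCm (le_max_left _ _) hj0
      · refine hmono x (((y i) [])⁻¹ * l i) _ _ ((hj1 i).trans (by exact_mod_cast le_max_right _ _)) ?_
        have e : (((y i) [])⁻¹ * l i) • (x : V) - ((y i) [])⁻¹ • y i =
            ((y i) [])⁻¹ • (l i • (x : V) - y i) := by
          rw [smul_sub, mul_smul]
        have := PP_smul (hlx i) (inv_nonneg.mpr (hpos i).le)
        rw [← e] at this
        exact this

end RK
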