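import Pool.Agent.Helper90.RK.Defs

/-!
# RK-A07: functions with values in `{1, 2, ...} ∪ {∞}` with F-sigma superlevel sets are LU (about 80 lines)

Let `F m j` be closed, increasing in `j`, with `⋃ j, F m j = {x | m + 1 ≤ r x}` for `m ≥ 1`.  Put
`g n x = 1 + #{m ∈ {1, ..., n} | x ∈ F m n}` (a natural number, in `EReal`).  `g n` is upper semicontinuous: for real `t`,
`{g n < t}` is open: `{x | g n x < t}`; a finite sum of indicator functions of closed sets is usc.  (Direct: given `x` with
`g n x < t`, on the open neighbourhood `⋂_{m ≤ n, x ∉ F m n} (F m n)ᶜ` of `x` the set of the `m` with `x' ∈ F m n` is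
contained in that of `x`.)  `g n ≤ g (n+1)` as `F m n ⊆ F m (n+1)`.  Limit: if `r x = k < ∞`: `x ∈ F m n` implies `m + 1 ≤ k`, so
`g n x ≤ k`, and for `n` large all `m = 1, ..., k-1` have `x ∈ F m n`, so `g n x = k`.  If `r x = ⊤`: for each `k`, for `n`
large `x ∈ F m n` for `m = 1, ..., k`, so `g n x ≥ k + 1`; the limit is `⊤`.
-/

namespace RK

open Set Filter Topology

theorem isLU_of_Fsigma {S : Type*} [TopologicalSpace S] (r : S → ℕ∞) (h1 : ∀ x, 1 ≤ r x)
    (h : ∀ m : ℕ, ∃ F : ℕ → Set S, (∀ j, IsClosed (F j)) ∧ Monotone F ∧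
      ⋃ j, F j = {x | (m : ℕ∞) + 1 ≤ r x}) :
    IsLU (fun x => (((r x : ENNReal)) : EReal)) := by
  classical
  choose F hcl hmono hU using h
  set G : ℕ → S → ℕ := fun n x => ((Finset.range n).filter (fun m => x ∈ F m n)).card with hG
  have hmem : ∀ (m n : ℕ) x, x ∈ F m n → (m : ℕ∞) + 1 ≤ r x := by
    intro m n x hx
    have : x ∈ ⋃ j, F m j := mem_iUnion.2 ⟨n, hx⟩
    rw [hU m] at this
    exact this
  have hev : ∀ (m : ℕ) x, (m : ℕ∞) + 1 ≤ r x → ∃ N, ∀ n ≥ N, x ∈ F m n := by
    intro m x hx
    have : x ∈ ⋃ j, F m j := by rw [hU m]; exact hx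
    obtain ⟨N, hN⟩ := mem_iUnion.1 this
    exact ⟨N, fun n hn => hmono m hn hN⟩
  have hev' : ∀ (k : ℕ) x, (k : ℕ∞) ≤ r x → ∃ N, ∀ n ≥ N, k ≤ G n x := by
    intro k x hk
    have h2 : ∀ m, ∃ N, m < k → ∀ n ≥ N, x ∈ F m n := by
      intro m
      by_cases hm : m < k
      · obtain ⟨N, hN⟩ := hev m x (le_trans (by exact_mod_cast hm) hk)
        exact ⟨N, fun _ => hN⟩
      · exact ⟨0, fun h => absurd h hm⟩
    choose N hN using h2
    refine ⟨k + ∑ m ∈ Finset.range k, N m, fun n hn => ?_⟩
    have hsub : Finset.range k ⊆ (Finset.range n).filter (fun m => x ∈ F m n) := by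
      intro m hm
      have hmk := Finset.mem_range.1 hm
      refine Finset.mem_filter.2 ⟨Finset.mem_range.2 (by omega), hN m hmk n ?_⟩
      have : N m ≤ ∑ m ∈ Finset.range k, N m :=
        Finset.single_le_sum (f := N) (fun i _ => Nat.zero_le _) hm
      omega
    have := Finset.card_le_card hsub
    simpa [hG] using this
  have hle : ∀ (k : ℕ) n x, r x = (k : ℕ∞) → G n x ≤ k := by
    intro k n x hk
    have hsub : (Finset.range n).filter (fun m => x ∈ F m n) ⊆ Finset.range k := by
      intro m hm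
      have h3 := hmem m n x (Finset.mem_filter.1 hm).2
      rw [hk] at h3
      exact Finset.mem_range.2 (by exact_mod_cast h3)
    simpa [hG] using Finset.card_le_card hsub
  refine ⟨fun n x => ((G n x : ℕ) : EReal), ?_, ?_, ?_⟩
  · intro n t
    rw [isOpen_iff_mem_nhds]
    intro x hx
    have hx' : ((G n x : ℕ) : EReal) < (t : EReal) := hx
    have hop : IsOpen (⋂ m ∈ (Finset.range n).filter (fun m => x ∉ F m n), (F m n)ᶜ) :=
      isOpen_biInter_finset (fun m _ => (hcl m n).isOpen_compl)
    have hxin : x ∈ ⋂ m ∈ (Finset.range n).filter (fun m => x ∉ F m n), (F m n)ᶜ := by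
      simp only [mem_iInter]
      intro m hm
      exact (Finset.mem_filter.1 hm).2
    refine Filter.mem_of_superset (hop.mem_nhds hxin) ?_
    intro y hy
    simp only [mem_iInter] at hy
    have hsub : (Finset.range n).filter (fun m => y ∈ F m n) ⊆
        (Finset.range n).filter (fun m => x ∈ F m n) := by
      intro m hm
      obtain ⟨hm1, hm2⟩ := Finset.mem_filter.1 hm
      refine Finset.mem_filter.2 ⟨hm1, ?_⟩
      by_contra hc
      exact hy m (Finset.mem_filter.2 ⟨hm1, hc⟩) hm2
    have hcard : G n y ≤ G n x := Finset.card_le_card hsub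
    show ((G n y : ℕ) : EReal) < (t : EReal)
    exact lt_of_le_of_lt (by exact_mod_cast hcard) hx'
  · intro n x
    have hsub : (Finset.range n).filter (fun m => x ∈ F m n) ⊆
        (Finset.range (n + 1)).filter (fun m => x ∈ F m (n + 1)) := by
      intro m hm
      obtain ⟨hm1, hm2⟩ := Finset.mem_filter.1 hm
      refine Finset.mem_filter.2 ⟨Finset.mem_range.2 ?_, hmono m (Nat.le_succ n) hm2⟩
      have := Finset.mem_range.1 hm1
      omega
    have hcard : G n x ≤ G (n + 1) x := Finset.card_le_card hsub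
    show ((G n x : ℕ) : EReal) ≤ ((G (n + 1) x : ℕ) : EReal)
    exact_mod_cast hcard
  · intro x
    show Tendsto (fun n => ((G n x : ℕ) : EReal)) atTop (𝓝 (((r x : ENNReal)) : EReal))
    rcases eq_or_ne (r x) ⊤ with htop | hne
    · have h0 : (((r x : ENNReal)) : EReal) = ⊤ := by
        rw [htop]; simp
      rw [h0, EReal.tendsto_nhds_top_iff_real]
      intro t
      obtain ⟨k, hk⟩ := exists_nat_gt t
      obtain ⟨N, hN⟩ := hev' k x (by rw [htop]; exact le_top)
      filter_upwards [eventually_ge_atTop N] with n hn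
      have h1 : (t : EReal) < ((k : ℕ) : EReal) := by exact_mod_cast hk
      exact lt_of_lt_of_le h1 (by exact_mod_cast hN n hn)
    · obtain ⟨k, hk⟩ := ENat.ne_top_iff_exists.1 hne
      have h0 : (((r x : ENNReal)) : EReal) = ((k : ℕ) : EReal) := by
        have h5 : ((r x : ENNReal)) = ((k : NNReal) : ENNReal) := by
          rw [← hk]; simp
        rw [h5, EReal.coe_nnreal_eq_coe_real]
        simp
      rw [h0]
      obtain ⟨N, hN⟩ := hev' k x (le_of_eq hk)
      refine tendsto_const_nhds.congr' ?_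
      filter_upwards [eventually_ge_atTop N] with n hn
      have h1 := hN n hn
      have h2 := hle k n x hk.symm
      have h3 : G n x = k := le_antisymm h2 h1
      rw [h3]

end RK
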