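import Pool.Agent.Helper90.RK.A01

/-!
# RK-A08: periodic measures (about 100 lines)

* `occ_append`: `occ x t (w ++ [b])` iff `occ x t w` and `x (t + w.length) = b`: induction on `w`.
* `occ_iff`: `occ x t w = true ↔ ∀ i (h : i < w.length), x (t + i) = w[i]`.
* `occ_per`: if `x (n + M) = x n` for all `n` then `occ x (t + M) w = occ x t w`.
* `perP_mem`: nonnegativity and `perP x M [] = 1` are clear.  Right additivity: every `t < M` with `occ x t w` has exactly one `b`
  with `occ x t (w ++ [b])`.  Left additivity: `#{t < M | occ x t (b :: w)}` summed over `b` is `#{t < M | occ x (t+1) w}`, which is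
  `#{t < M | occ x t w}` by periodicity (shift the sum over `range M`: `Finset.sum_range_succ` and `Finset.sum_range_succ'` and
  `occ x M w = occ x 0 w`).
-/

namespace RK

open Set Filter Topology

theorem occ_append (x : ℕ → Bool) (t : ℕ) (w : List Bool) (b : Bool) :
    occ x t (w ++ [b]) = (occ x t w && (x (t + w.length) == b)) := by
  induction w generalizing t with
  | nil => simp [occ]
  | cons a w ih =>
    have h : t + 1 + w.length = t + (a :: w).length := by
      simp only [List.length_cons]; omega
    simp only [List.cons_append, occ, ih, h, Bool.and_assoc]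

theorem occ_iff (x : ℕ → Bool) (t : ℕ) (w : List Bool) :
    occ x t w = true ↔ ∀ i (h : i < w.length), x (t + i) = w[i] := by
  induction w generalizing t with
  | nil => simp [occ]
  | cons a w ih =>
    simp only [occ, Bool.and_eq_true, beq_iff_eq, ih]
    constructor
    · rintro ⟨h0, h1⟩ i hi
      cases i with
      | zero => simpa using h0
      | succ i =>
        have h2 := h1 i (by simpa using hi)
        have h3 : t + (i + 1) = t + 1 + i := by omega
        rw [h3]
        simpa using h2
    · intro h
      have h00 := h 0 (by simp)
      rw [add_zero, List.getElem_cons_zero] at h00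
      refine ⟨h00, fun i hi => ?_⟩
      have h2 := h (i + 1) (by simpa using hi)
      have h3 : t + (i + 1) = t + 1 + i := by omega
      rw [h3] at h2
      simpa using h2

theorem occ_per {x : ℕ → Bool} {M : ℕ} (hx : ∀ n, x (n + M) = x n) (t : ℕ) (w : List Bool) :
    occ x (t + M) w = occ x t w := by
  induction w generalizing t with
  | nil => simp [occ]
  | cons a w ih =>
    have h : t + M + 1 = t + 1 + M := by omega
    simp only [occ, hx, h, ih]

/-- the indicator function -/
noncomputable def indO (x : ℕ → Bool) (w : List Bool) (t : ℕ) : ℝ :=
  if occ x t w = true then 1 else 0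

theorem perP_eq (x : ℕ → Bool) (M : ℕ) (w : List Bool) :
    perP x M w = (∑ t ∈ Finset.range M, indO x w t) / M := by
  unfold perP indO
  rw [Finset.sum_boole]

theorem perP_mem {x : ℕ → Bool} {M : ℕ} (hM : 0 < M) (hx : ∀ n, x (n + M) = x n) :
    perP x M ∈ KK := by
  have hM0 : (M : ℝ) ≠ 0 := by exact_mod_cast hM.ne'
  refine ⟨⟨fun w => by unfold perP; positivity, fun w => ?_, fun w => ?_⟩, ?_⟩
  · rw [perP_eq, perP_eq, perP_eq, ← add_div, ← Finset.sum_add_distrib]
    congr 1
    refine Finset.sum_congr rfl fun t _ => ?_
    unfold indO
    rw [occ_append, occ_append]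
    cases occ x t w <;> cases x (t + w.length) <;> simp
  · rw [perP_eq, perP_eq, perP_eq, ← add_div, ← Finset.sum_add_distrib]
    congr 1
    have h1 : ∀ t ∈ Finset.range M, indO x (false :: w) t + indO x (true :: w) t
        = indO x w (t + 1) := by
      intro t _
      unfold indO
      simp only [occ]
      have h2 : occ x (t + 1) w = true ∨ occ x (t + 1) w = false := by
        cases occ x (t + 1) w <;> simp
      have h3 : x t = true ∨ x t = false := by
        cases x t <;> simp
      rcases h2 with h2 | h2 <;> rcases h3 with h3 | h3 <;> simp [h2, h3]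
    rw [Finset.sum_congr rfl h1]
    have h2 : indO x w M = indO x w 0 := by
      unfold indO
      have := occ_per hx 0 w
      rw [zero_add] at this
      rw [this]
    have h3 := Finset.sum_range_succ (indO x w) M
    have h4 := Finset.sum_range_succ' (indO x w) M
    linarith
  · rw [perP_eq]
    have h1 : ∀ t ∈ Finset.range M, indO x [] t = 1 := by
      intro t _
      simp [indO, occ]
    rw [Finset.sum_congr rfl h1]
    simp [hM0]

end RK
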