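import Pool.Agent.Helper90.RK.A08

/-!
# RK-A09: periodic measures are extreme points (about 200 lines)

1. Reduction to the minimal period `M₀` (`Nat.find` of `∃ M > 0, ∀ n, x (n + M) = x n`): for a sequence of period `M₀`, the periods are exactly the multiples of
   `M₀` (division with remainder), so `M = M₀ * a`, and `perP x M = perP x M₀` (the count over `range (M₀ * a)` is `a` times the count over
   `range M₀`, by `occ_per`).
2. Let `M` be the minimal period.  Let `blk t n = List.ofFn (fun i : Fin n => x (t + i))`, so `occ x s (blk t n) ↔ ∀ i < n, x (s+i) = x (t+i)`.  For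
   `n ≥ M`: `occ x s (blk t n)` iff `s ≡ t mod M`: if `x (s + i) = x (t + i)` for `i < M` then for all `i` (periodicity), so for `s < t`:
   `x (n + (t - s)) = x n` for all `n ≥ s`, hence for all `n` (add a multiple of `M`), so `M ∣ t - s` by minimality.
3. Let `q ∈ KK`, `s > 0` with `perP x M - s • q ∈ PP`.  Claim `q = perP x M`.  If `q w > 0` then `perP x M w > 0`, so `w` occurs in `x`.
   Let `n ≥ M`.  `blk t n ++ [b]` occurs in `x` only if `b = x (t + n)` (by 2), so right additivity gives `q (blk t n) = q (blk t (n+1))`.  Similarly
   `b :: blk (t+1) n` occurs only if `b = x t`, for `n ≥ M` (2 and periodicity), so left additivity gives `q (blk (t+1) n) = q (blk t (n+1))`.  So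
   `q (blk t n) = q (blk (t+1) n)`: constant in `t`.  The sum of `q` over all words of length `n` is `q [] = 1`, and `q` vanishes except at the `M` distinct words
   `blk t n`, `t < M`; so `q (blk t n) = 1 / M`.  The same holds for `perP x M` itself.  So they agree on all words of length `≥ M`, hence on all words
   (right additivity, downward induction on the length).
4. `perP x M` is extreme: if it is in the open segment of `q, q' ∈ KK` then `perP x M - s • q = (1 - s) • q' ∈ PP`, so `q = perP x M`; similarly `q'`.

(The proof below does not need the minimal period: two elements of `KK` that vanish on the words not occurring in `x` are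
proportional on the long words, hence everywhere, hence equal.)
-/

namespace RK

open Set Filter Topology

/-- the block of length `n` of `x` at the position `t` -/
def blk (x : ℕ → Bool) : ℕ → ℕ → List Bool
  | _, 0 => []
  | t, n + 1 => x t :: blk x (t + 1) n

theorem blk_length (x : ℕ → Bool) (t n : ℕ) : (blk x t n).length = n := by
  induction n generalizing t with
  | zero => rfl
  | succ n ih => simp [blk, ih]

theorem blk_snoc (x : ℕ → Bool) (t n : ℕ) : blk x t (n + 1) = blk x t n ++ [x (t + n)] := by
  induction n generalizing t with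
  | zero => simp [blk]
  | succ n ih =>
    have h1 : blk x t (n + 1 + 1) = x t :: blk x (t + 1) (n + 1) := rfl
    have h2 : t + 1 + n = t + (n + 1) := by omega
    rw [h1, ih (t + 1), h2]
    rfl

theorem occ_blk (x : ℕ → Bool) (s t n : ℕ) :
    occ x s (blk x t n) = true ↔ ∀ i < n, x (s + i) = x (t + i) := by
  induction n generalizing s t with
  | zero => simp [blk, occ]
  | succ n ih =>
    simp only [blk, occ, Bool.and_eq_true, beq_iff_eq, ih]
    constructor
    · rintro ⟨h0, h1⟩ i hi
      cases i with
      | zero => simpa using h0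
      | succ i =>
        have h2 := h1 i (by omega)
        have h3 : s + (i + 1) = s + 1 + i := by omega
        have h4 : t + (i + 1) = t + 1 + i := by omega
        rw [h3, h4]
        exact h2
    · intro h
      refine ⟨by simpa using h 0 (by omega), fun i hi => ?_⟩
      have h2 := h (i + 1) (by omega)
      have h3 : s + (i + 1) = s + 1 + i := by omega
      have h4 : t + (i + 1) = t + 1 + i := by omega
      rw [h3, h4] at h2
      exact h2

theorem eq_blk_of_occ (x : ℕ → Bool) (t : ℕ) (w : List Bool) (h : occ x t w = true) :
    w = blk x t w.length := by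
  induction w generalizing t with
  | nil => rfl
  | cons a w ih =>
    simp only [occ, Bool.and_eq_true, beq_iff_eq] at h
    rw [List.length_cons]
    show a :: w = x t :: blk x (t + 1) w.length
    rw [← ih (t + 1) h.2, h.1]

theorem x_mod {x : ℕ → Bool} {M : ℕ} (hx : ∀ n, x (n + M) = x n) (a i : ℕ) :
    x (a + i) = x (a + i % M) := by
  have h : ∀ k j : ℕ, x (j + M * k) = x j := by
    intro k
    induction k with
    | zero => intro j; simp
    | succ k ih =>
      intro j
      have : j + M * (k + 1) = (j + M * k) + M := by ring
      rw [this, hx, ih]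
  have h2 : a + i = (a + i % M) + M * (i / M) := by
    have := Nat.mod_add_div i M
    omega
  conv_lhs => rw [h2]
  exact h _ _

theorem agree_all {x : ℕ → Bool} {M : ℕ} (hM : 0 < M) (hx : ∀ n, x (n + M) = x n) {s t n : ℕ}
    (hn : M ≤ n) (h : ∀ i < n, x (s + i) = x (t + i)) (i : ℕ) : x (s + i) = x (t + i) := by
  rw [x_mod hx s i, x_mod hx t i]
  exact h _ (lt_of_lt_of_le (Nat.mod_lt _ hM) hn)

/-- `q` vanishes on the words that do not occur in `x` -/
def Supp (x : ℕ → Bool) (q : V) : Prop := ∀ w, (∀ t, occ x t w = false) → q w = 0

theorem q_right {x : ℕ → Bool} {M : ℕ} (hM : 0 < M) (hx : ∀ n, x (n + M) = x n) {q : V}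
    (hq : q ∈ PP) (hs : Supp x q) {t n : ℕ} (hn : M ≤ n) :
    q (blk x t (n + 1)) = q (blk x t n) := by
  have key : ∀ b, b ≠ x (t + n) → q (blk x t n ++ [b]) = 0 := by
    intro b hb
    refine hs _ fun s => ?_
    rw [occ_append, blk_length]
    cases h : occ x s (blk x t n) with
    | false => simp
    | true =>
      have h1 := agree_all hM hx hn ((occ_blk x s t n).1 h) n
      rw [h1]
      simpa using Ne.symm hb
  rw [hq.2.1 (blk x t n), blk_snoc]
  cases hb : x (t + n) with
  | false =>
    have := key true (by rw [hb]; simp)
    rw [this, add_zero]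
  | true =>
    have := key false (by rw [hb]; simp)
    rw [this, zero_add]

theorem q_left {x : ℕ → Bool} {M : ℕ} (hM : 0 < M) (hx : ∀ n, x (n + M) = x n) {q : V}
    (hq : q ∈ PP) (hs : Supp x q) {t n : ℕ} (hn : M ≤ n) :
    q (blk x t (n + 1)) = q (blk x (t + 1) n) := by
  have key : ∀ b, b ≠ x t → q (b :: blk x (t + 1) n) = 0 := by
    intro b hb
    refine hs _ fun s => ?_
    simp only [occ]
    cases h : occ x (s + 1) (blk x (t + 1) n) with
    | false => simp
    | true =>
      have h1 := agree_all hM hx hn ((occ_blk x (s + 1) (t + 1) n).1 h) (M - 1)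
      have h2 : s + 1 + (M - 1) = s + M := by omega
      have h3 : t + 1 + (M - 1) = t + M := by omega
      rw [h2, h3, hx, hx] at h1
      rw [h1]
      simpa using Ne.symm hb
  have h0 : blk x t (n + 1) = x t :: blk x (t + 1) n := rfl
  rw [hq.2.2 (blk x (t + 1) n), h0]
  cases hb : x t with
  | false =>
    have := key true (by rw [hb]; simp)
    rw [this, add_zero]
  | true =>
    have := key false (by rw [hb]; simp)
    rw [this, zero_add]

theorem q_const {x : ℕ → Bool} {M : ℕ} (hM : 0 < M) (hx : ∀ n, x (n + M) = x n) {q : V}
    (hq : q ∈ PP) (hs : Supp x q) (t n : ℕ) :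
    q (blk x t (M + n)) = q (blk x 0 M) := by
  have h1 : ∀ t, q (blk x t M) = q (blk x 0 M) := by
    intro t
    induction t with
    | zero => rfl
    | succ t ih =>
      rw [← q_left hM hx hq hs (le_refl M), q_right hM hx hq hs (le_refl M), ih]
  induction n with
  | zero => exact h1 t
  | succ n ih =>
    have : M + (n + 1) = (M + n) + 1 := by omega
    rw [this, q_right hM hx hq hs (by omega), ih]

theorem vanish_down {g : V} (hg : ∀ w, g w = g (w ++ [false]) + g (w ++ [true])) {N : ℕ}
    (h : ∀ w : List Bool, N ≤ w.length → g w = 0) (w : List Bool) : g w = 0 := by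
  have key : ∀ k : ℕ, ∀ w : List Bool, N ≤ w.length + k → g w = 0 := by
    intro k
    induction k with
    | zero => intro w hw; exact h w (by omega)
    | succ k ih =>
      intro w hw
      have h1 : g (w ++ [false]) = 0 := by
        apply ih
        rw [List.length_append, List.length_singleton]
        omega
      have h2 : g (w ++ [true]) = 0 := by
        apply ih
        rw [List.length_append, List.length_singleton]
        omega
      rw [hg w, h1, h2, add_zero]
  exact key N w (by omega)

theorem q_unique {x : ℕ → Bool} {M : ℕ} (hM : 0 < M) (hx : ∀ n, x (n + M) = x n) {q q' : V}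
    (hq : q ∈ KK) (hs : Supp x q) (hq' : q' ∈ KK) (hs' : Supp x q') : q = q' := by
  have h1 : ∀ w : List Bool, q' (blk x 0 M) * q w - q (blk x 0 M) * q' w = 0 := by
    refine vanish_down (g := fun w => q' (blk x 0 M) * q w - q (blk x 0 M) * q' w) (N := M)
      (fun w => ?_) (fun w hw => ?_)
    · show q' (blk x 0 M) * q w - q (blk x 0 M) * q' w = _
      rw [hq.1.2.1 w, hq'.1.2.1 w]
      ring
    · show q' (blk x 0 M) * q w - q (blk x 0 M) * q' w = 0
      by_cases h : ∃ t, occ x t w = true
      · obtain ⟨t, ht⟩ := h
        obtain ⟨n, hn⟩ := Nat.exists_eq_add_of_le hw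
        have h2 := eq_blk_of_occ x t w ht
        rw [hn] at h2
        rw [h2, q_const hM hx hq.1 hs, q_const hM hx hq'.1 hs']
        ring
      · push Not at h
        have h3 : ∀ t, occ x t w = false := fun t => by
          have := h t
          simpa using this
        rw [hs w h3, hs' w h3]
        ring
  have h2 := h1 []
  rw [hq.2, hq'.2] at h2
  have hc : q (blk x 0 M) ≠ 0 := by
    intro hc
    have h3 : ∀ w : List Bool, q w = 0 := by
      refine vanish_down hq.1.2.1 (N := M) (fun w hw => ?_)
      by_cases h : ∃ t, occ x t w = true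
      · obtain ⟨t, ht⟩ := h
        obtain ⟨n, hn⟩ := Nat.exists_eq_add_of_le hw
        have h2 := eq_blk_of_occ x t w ht
        rw [hn] at h2
        rw [h2, q_const hM hx hq.1 hs, hc]
      · push Not at h
        have h3 : ∀ t, occ x t w = false := fun t => by
          have := h t
          simpa using this
        exact hs w h3
    have := h3 []
    rw [hq.2] at this
    exact one_ne_zero this
  funext w
  have h4 := h1 w
  have h5 : q' (blk x 0 M) = q (blk x 0 M) := by linarith
  rw [h5, ← mul_sub] at h4
  rcases mul_eq_zero.1 h4 with h6 | h6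
  · exact absurd h6 hc
  · linarith

theorem perP_supp (x : ℕ → Bool) (M : ℕ) : Supp x (perP x M) := by
  intro w h
  unfold perP
  have : (Finset.range M).filter (fun t => occ x t w = true) = ∅ := by
    refine Finset.filter_eq_empty_iff.2 fun t _ => ?_
    rw [h t]
    simp
  rw [this]
  simp

theorem supp_of_le {x : ℕ → Bool} {p q : V} (hp : Supp x p) {s : ℝ} (hs : 0 < s)
    (hq : q ∈ PP) (h : p - s • q ∈ PP) : Supp x q := by
  intro w hw
  have h1 := h.1 w
  have h2 := hp w hw
  have h3 := hq.1 w
  simp only [Pi.sub_apply, Pi.smul_apply, smul_eq_mul] at h1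
  rw [h2] at h1
  have h4 : s * q w ≤ 0 := by linarith
  have h5 : q w ≤ 0 := by
    by_contra hlt
    push Not at hlt
    have := mul_pos hs hlt
    linarith
  linarith

theorem perP_extreme {x : ℕ → Bool} {M : ℕ} (hM : 0 < M) (hx : ∀ n, x (n + M) = x n) :
    perP x M ∈ KK.extremePoints ℝ := by
  have hmem := perP_mem hM hx
  rw [mem_extremePoints]
  refine ⟨hmem, fun q hq q' hq' hseg => ?_⟩
  obtain ⟨a, b, ha, hb, hab, he⟩ := hseg
  have h1 : Supp x q := by
    refine supp_of_le (perP_supp x M) ha hq.1 ?_
    have : perP x M - a • q = b • q' := by rw [← he]; simp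
    rw [this]
    exact PP_smul hq'.1 hb.le
  have h2 : Supp x q' := by
    refine supp_of_le (perP_supp x M) hb hq'.1 ?_
    have : perP x M - b • q' = a • q := by rw [← he]; simp
    rw [this]
    exact PP_smul hq.1 ha.le
  exact ⟨q_unique hM hx hq h1 hmem (perP_supp x M), q_unique hM hx hq' h2 hmem (perP_supp x M)⟩

end RK
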