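import Mathlib

/-!
# RK-A10: a probability vector is approximated by frequencies (about 60 lines)

`a v = ⌊A * p v⌋` for a large natural number `A`; `A - |α| ≤ ∑ a v ≤ A`; put the missing `A - ∑ a v ≤ |α|` on one fixed
`v₀`.  So there is `b : Fin A → α` with `#{j | b j = v} = a' v`, `∑ a' = A`, `|a' v - A * p v| ≤ |α| + 1`, and
`|a' v / A - p v| ≤ (|α| + 1) / A ≤ δ` for `A ≥ (|α| + 1) / δ`.  (Existence of `b` with prescribed fibre sizes: `Fintype.card (Σ v, Fin (a' v)) = A`, so there is an equivalence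
`Fin A ≃ Σ v, Fin (a' v)`; compose with the projection.)
-/

namespace RK

theorem freq_approx {α : Type*} [Fintype α] [DecidableEq α] [Nonempty α] (p : α → ℝ) (hp : ∀ v, 0 ≤ p v)
    (hs : ∑ v, p v = 1) {δ : ℝ} (hδ : 0 < δ) :
    ∃ (k : ℕ) (b : Fin k → α), 0 < k ∧
      ∀ v, |((Finset.univ.filter (fun j => b j = v)).card : ℝ) / k - p v| ≤ δ := by
  classical
  obtain ⟨v₀⟩ := ‹Nonempty α›
  obtain ⟨A, hA⟩ := exists_nat_gt ((Fintype.card α : ℝ) / δ + 1)
  have hC : (1:ℝ) ≤ Fintype.card α := by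
    exact_mod_cast Fintype.card_pos_iff.2 ⟨v₀⟩
  have hA0 : (0:ℝ) < A := by
    have : 0 ≤ (Fintype.card α : ℝ) / δ := by positivity
    linarith
  obtain ⟨a, ha⟩ : ∃ a : α → ℕ, ∀ v, a v = ⌊(A:ℝ) * p v⌋₊ := ⟨_, fun v => rfl⟩
  have h1 : ∀ v, (a v : ℝ) ≤ A * p v := fun v => by
    rw [ha]; exact Nat.floor_le (mul_nonneg hA0.le (hp v))
  have h2 : ∀ v, A * p v - 1 < a v := fun v => by
    rw [ha]; exact Nat.sub_one_lt_floor _
  have hAs : ∑ v, (A:ℝ) * p v = A := by rw [← Finset.mul_sum, hs, mul_one]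
  have h3 : ((∑ v, a v : ℕ) : ℝ) ≤ A := by
    push_cast
    calc ∑ v, (a v : ℝ) ≤ ∑ v, (A:ℝ) * p v := Finset.sum_le_sum (fun v _ => h1 v)
      _ = A := hAs
  have h3' : ∑ v, a v ≤ A := by exact_mod_cast h3
  have h4 : (A:ℝ) - ((∑ v, a v : ℕ) : ℝ) ≤ Fintype.card α := by
    have : ∑ v, ((A:ℝ) * p v - a v) ≤ ∑ _v : α, (1:ℝ) :=
      Finset.sum_le_sum (fun v _ => by linarith [h2 v])
    rw [Finset.sum_sub_distrib, hAs] at this
    push_cast
    simpa using this
  obtain ⟨a', ha'⟩ : ∃ a' : α → ℕ, ∀ v, a' v = a v + if v = v₀ then A - ∑ v, a v else 0 :=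
    ⟨_, fun v => rfl⟩
  have h5 : ∑ v, a' v = A := by
    simp only [ha', Finset.sum_add_distrib, Finset.sum_ite_eq', Finset.mem_univ, if_true]
    omega
  have e : Fin A ≃ Σ v, Fin (a' v) := Fintype.equivOfCardEq (by simp [h5])
  refine ⟨A, fun j => (e j).1, by exact_mod_cast hA0, fun v => ?_⟩
  have h6 : (Finset.univ.filter (fun j => (e j).1 = v)).card = a' v := by
    have h7 : (Finset.univ.filter (fun j => (e j).1 = v)).card =
        (Finset.univ.filter (fun s : Σ v, Fin (a' v) => s.1 = v)).card := by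
      refine Finset.card_equiv e (fun i => ?_)
      simp
    rw [h7]
    have h8 : (Finset.univ.filter (fun s : Σ v, Fin (a' v) => s.1 = v)) =
        (Finset.univ : Finset (Fin (a' v))).map ⟨Sigma.mk v, sigma_mk_injective⟩ := by
      ext ⟨w, i⟩
      simp only [Finset.mem_filter, Finset.mem_univ, true_and, Finset.mem_map,
        Function.Embedding.coeFn_mk]
      constructor
      · rintro rfl
        exact ⟨i, rfl⟩
      · rintro ⟨j, hj⟩
        exact (congrArg Sigma.fst hj).symm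
    rw [h8, Finset.card_map, Finset.card_univ, Fintype.card_fin]
  rw [h6]
  have h9 : |(a' v : ℝ) - A * p v| ≤ Fintype.card α := by
    rw [abs_le, ha']
    push_cast
    split_ifs with h
    · have : (((A - ∑ v, a v : ℕ)) : ℝ) = (A:ℝ) - ((∑ v, a v : ℕ) : ℝ) := by
        push_cast [Nat.cast_sub h3']; ring
      rw [this]
      constructor
      · linarith [h2 v]
      · linarith [h1 v]
    · constructor
      · linarith [h2 v]
      · linarith [h1 v]
  have h10 : (a' v : ℝ) / A - p v = ((a' v : ℝ) - A * p v) / A := by field_simp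
  rw [h10, abs_div, abs_of_pos hA0, div_le_iff₀ hA0]
  refine h9.trans ?_
  have : (Fintype.card α : ℝ) / δ < A := by linarith
  rw [div_lt_iff₀ hδ] at this
  linarith

end RK
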