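import Pool.Agent.Helper90.RK.A08

/-!
# RK-A11: occurrences in a sequence of blocks (about 100 lines)

`x n = b (n / N % k) (n % N)` with blocks `b j : ℕ → Bool` (only `b j i` with `j < k`, `i < N` matters).  `x` has period
`k * N`.  For `j < k`, `i + w.length ≤ N`: `occ x (j * N + i) w = occ (b j) i w` (use `occ_iff`; `(j*N + i + l) / N = j`,
`% N = i + l`).  So `#{t < k * N | occ x t w} = ∑_{j<k} #{i < N | occ x (j*N+i) w}` and
`#{i < N | occ x (j*N+i) w} - #{i < N | i + w.length ≤ N, occ (b j) i w} ∈ [0, w.length]`.
-/

namespace RK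

theorem block_per (b : ℕ → ℕ → Bool) (N k : ℕ) (n : ℕ) :
    (fun n => b (n / N % k) (n % N)) (n + k * N) = (fun n => b (n / N % k) (n % N)) n := by
  rcases Nat.eq_zero_or_pos N with hN | hN
  · subst hN
    simp
  · have h1 : (n + k * N) / N = n / N + k := Nat.add_mul_div_right n k hN
    have h2 : (n + k * N) % N = n % N := Nat.add_mul_mod_self_right n k N
    simp only [h1, h2, Nat.add_mod_right]

theorem block_occ (b : ℕ → ℕ → Bool) {N k : ℕ} (w : List Bool) {j i : ℕ}
    (hj : j < k) (hi : i + w.length ≤ N) :
    occ (fun n => b (n / N % k) (n % N)) (j * N + i) w = occ (b j) i w := by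
  rw [Bool.eq_iff_iff, occ_iff, occ_iff]
  have key : ∀ l, l < w.length →
      b ((j * N + i + l) / N % k) ((j * N + i + l) % N) = b j (i + l) := by
    intro l hl
    have hlt : i + l < N := by omega
    have hN : 0 < N := by omega
    have e : j * N + i + l = i + l + j * N := by ring
    have h1 : (j * N + i + l) / N = j := by
      rw [e, Nat.add_mul_div_right _ _ hN, Nat.div_eq_of_lt hlt, zero_add]
    have h2 : (j * N + i + l) % N = i + l := by
      rw [e, Nat.add_mul_mod_self_right, Nat.mod_eq_of_lt hlt]
    rw [h1, h2, Nat.mod_eq_of_lt hj]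
  constructor
  · intro h l hl
    rw [← key l hl]
    exact h l hl
  · intro h l hl
    have := h l hl
    rw [← key l hl] at this
    exact this

theorem sum_range_mul' (f : ℕ → ℝ) (k N : ℕ) :
    ∑ t ∈ Finset.range (k * N), f t = ∑ j ∈ Finset.range k, ∑ i ∈ Finset.range N, f (j * N + i) := by
  induction k with
  | zero => simp
  | succ k ih =>
    rw [Finset.sum_range_succ, ← ih, Nat.succ_mul, Finset.sum_range_add]

theorem block_count (b : ℕ → ℕ → Bool) {N k : ℕ} (hN : 0 < N) (hk : 0 < k) (w : List Bool) :
    |perP (fun n => b (n / N % k) (n % N)) (k * N) w -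
      (∑ j ∈ Finset.range k, (((Finset.range N).filter
        (fun i => i + w.length ≤ N ∧ occ (b j) i w = true)).card : ℝ)) / (k * N)| ≤
      w.length / N := by
  rw [perP_eq, sum_range_mul']
  have hN0 : (0 : ℝ) < N := by exact_mod_cast hN
  have hk0 : (0 : ℝ) < k := by exact_mod_cast hk
  have hj : ∀ j ∈ Finset.range k,
      0 ≤ ∑ i ∈ Finset.range N, indO (fun n => b (n / N % k) (n % N)) w (j * N + i) -
        (((Finset.range N).filter (fun i => i + w.length ≤ N ∧ occ (b j) i w = true)).card : ℝ) ∧
      ∑ i ∈ Finset.range N, indO (fun n => b (n / N % k) (n % N)) w (j * N + i) -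
        (((Finset.range N).filter (fun i => i + w.length ≤ N ∧ occ (b j) i w = true)).card : ℝ) ≤
        w.length := by
    intro j hj
    have hjk := Finset.mem_range.1 hj
    rw [← Finset.sum_boole, ← Finset.sum_sub_distrib]
    have hterm : ∀ i ∈ Finset.range N,
        0 ≤ indO (fun n => b (n / N % k) (n % N)) w (j * N + i) -
          (if i + w.length ≤ N ∧ occ (b j) i w = true then (1 : ℝ) else 0) ∧
        indO (fun n => b (n / N % k) (n % N)) w (j * N + i) -
          (if i + w.length ≤ N ∧ occ (b j) i w = true then (1 : ℝ) else 0) ≤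
          (if ¬ i + w.length ≤ N then (1 : ℝ) else 0) := by
      intro i _
      by_cases hi : i + w.length ≤ N
      · have h1 := block_occ b w hjk hi
        unfold indO
        rw [h1]
        simp [hi]
      · have h0 : 0 ≤ indO (fun n => b (n / N % k) (n % N)) w (j * N + i) ∧
            indO (fun n => b (n / N % k) (n % N)) w (j * N + i) ≤ 1 := by
          unfold indO
          split_ifs <;> norm_num
        simp only [hi, false_and, if_false, sub_zero, not_false_eq_true, if_true]
        exact h0
    refine ⟨Finset.sum_nonneg fun i hi => (hterm i hi).1, ?_⟩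
    refine (Finset.sum_le_sum fun i hi => (hterm i hi).2).trans ?_
    rw [Finset.sum_boole]
    have hsub : (Finset.range N).filter (fun i => ¬ i + w.length ≤ N) ⊆
        Finset.Ico (N - w.length) N := by
      intro i hi
      obtain ⟨h1, h2⟩ := Finset.mem_filter.1 hi
      have := Finset.mem_range.1 h1
      rw [Finset.mem_Ico]
      omega
    have hc := Finset.card_le_card hsub
    rw [Nat.card_Ico] at hc
    have : ((Finset.range N).filter (fun i => ¬ i + w.length ≤ N)).card ≤ w.length := by omega
    exact_mod_cast this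
  have hcast : ((k * N : ℕ) : ℝ) = (k : ℝ) * N := by push_cast; ring
  rw [hcast, ← sub_div, ← Finset.sum_sub_distrib, abs_div, abs_of_nonneg
    (Finset.sum_nonneg fun j hj' => (hj j hj').1), abs_of_pos (mul_pos hk0 hN0)]
  have hsum := Finset.sum_le_sum fun j hj' => (hj j hj').2
  rw [Finset.sum_const, Finset.card_range, nsmul_eq_mul] at hsum
  rw [div_le_div_iff₀ (mul_pos hk0 hN0) hN0]
  nlinarith [hsum, hN0, hk0]

end RK
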