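import Pool.Agent.Helper90.RK.A08

/-!
# RK-A12: marginals (about 100 lines)

For `p ∈ PP` and `N`, the sum of `p (List.ofFn v)` over all `v : Fin N → Bool` such that the word `w` occurs in `v` at position `i`
(`i + w.length ≤ N`) is `p w`.  Here the occurrence is `∀ l (h : l < w.length) (h' : i + l < N), v ⟨i + l, h'⟩ = w[l]`, or equivalently
`occ (fun n => if h : n < N then v ⟨n, h⟩ else false) i w = true`.
Proof: (a) `∑ over all u of length n of p (w ++ u) = p w`, `∑ over all u of length n of p (u ++ w) = p w` (induction on `n`, right and left additivity, with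
`u : Fin n → Bool`, `List.ofFn`; `Fin.consEquiv` or `Fin.snocEquiv`).  (b) `v = (u, w, u')` with `u` of length `i` and `u'` of length
`N - i - w.length`: bijection between the `v` in which `w` occurs at `i` and the pairs `(u, u')`.
An alternative: induction on `N`: for `i = 0`, `w = []` by (a); if `i > 0`, `v = cons b v'`, and `w` occurs in `v` at `i` iff in `v'` at `i - 1`, sum over `b` by left additivity; if
`i = 0`, `w = b :: w'`: prove the statement for a general initial word `u`: `∑_v [w occurs at i in v] p (u ++ ofFn v)`; choose the most convenient.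
-/

namespace RK

private theorem a12_sum (n : ℕ) (f : (Fin (n + 1) → Bool) → ℝ) :
    ∑ v : Fin (n + 1) → Bool, f v =
      ∑ v : Fin n → Bool, (f (Fin.cons false v) + f (Fin.cons true v)) := by
  rw [← (Fin.consEquiv (fun _ : Fin (n + 1) => Bool)).sum_comp, Fintype.sum_prod_type,
    Fintype.sum_bool, add_comm, ← Finset.sum_add_distrib]
  rfl

private theorem a12_tot {p : V} (hp : p ∈ PP) : ∀ (N : ℕ) (u : List Bool),
    ∑ v : Fin N → Bool, p (u ++ List.ofFn v) = p u := by
  intro N
  induction N with
  | zero => intro u; simp
  | succ N ih =>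
    intro u
    rw [a12_sum, Finset.sum_add_distrib]
    have h : ∀ (b : Bool) (v : Fin N → Bool),
        p (u ++ List.ofFn (Fin.cons b v : Fin (N + 1) → Bool)) = p ((u ++ [b]) ++ List.ofFn v) := by
      intro b v
      rw [List.ofFn_succ]
      simp
    simp only [h]
    rw [ih, ih, ← hp.2.1 u]

/-- the extension of a word -/
private def a12_ext {N : ℕ} (v : Fin N → Bool) : ℕ → Bool :=
  fun n => if h : n < N then v ⟨n, h⟩ else false

private theorem a12_shift (x : ℕ → Bool) : ∀ (w : List Bool) (t : ℕ),
    occ x (t + 1) w = occ (fun n => x (n + 1)) t w := by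
  intro w
  induction w with
  | nil => intro t; rfl
  | cons b w ih => intro t; simp only [occ, ih]

private theorem a12_cons {N : ℕ} (b : Bool) (v : Fin N → Bool) :
    (fun n => a12_ext (Fin.cons b v : Fin (N + 1) → Bool) (n + 1)) = a12_ext v := by
  funext n
  unfold a12_ext
  by_cases h : n < N
  · rw [dif_pos h, dif_pos (Nat.succ_lt_succ h)]
    rfl
  · rw [dif_neg h, dif_neg (by omega)]

private theorem a12_zero {p : V} (hp : p ∈ PP) : ∀ (w : List Bool) (N : ℕ) (u : List Bool),
    w.length ≤ N → ∑ v : Fin N → Bool,
      (if occ (a12_ext v) 0 w = true then p (u ++ List.ofFn v) else 0) = p (u ++ w) := by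
  intro w
  induction w with
  | nil =>
    intro N u _
    have := a12_tot hp N u
    simpa [occ] using this
  | cons b w ih =>
    intro N u hN
    obtain ⟨N, rfl⟩ : ∃ M, N = M + 1 := ⟨N - 1, by simp at hN; omega⟩
    have hN' : w.length ≤ N := by simpa using hN
    have key := ih N (u ++ [b]) hN'
    rw [a12_sum]
    have h : ∀ (c : Bool) (v : Fin N → Bool),
        (if occ (a12_ext (Fin.cons c v : Fin (N + 1) → Bool)) 0 (b :: w) = true then
          p (u ++ List.ofFn (Fin.cons c v : Fin (N + 1) → Bool)) else 0) =
        if c = b then (if occ (a12_ext v) 0 w = true then p ((u ++ [b]) ++ List.ofFn v) else 0)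
          else 0 := by
      intro c v
      have h0 : a12_ext (Fin.cons c v : Fin (N + 1) → Bool) 0 = c := by
        unfold a12_ext
        rw [dif_pos (Nat.succ_pos _)]
        rfl
      have h1 : occ (a12_ext (Fin.cons c v : Fin (N + 1) → Bool)) 0 (b :: w) =
          ((c == b) && occ (a12_ext v) 0 w) := by
        simp only [occ]
        rw [h0, a12_shift, a12_cons]
      rw [h1]
      by_cases hc : c = b
      · subst hc
        simp [List.ofFn_succ]
      · simp [hc]
    simp only [h]
    cases b
    · simpa using key
    · simpa using key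

private theorem a12_gen {p : V} (hp : p ∈ PP) (w : List Bool) : ∀ (i N : ℕ),
    i + w.length ≤ N → ∑ v : Fin N → Bool,
      (if occ (a12_ext v) i w = true then p (List.ofFn v) else 0) = p w := by
  intro i
  induction i with
  | zero =>
    intro N hN
    have := a12_zero hp w N [] (by omega)
    simpa using this
  | succ i ih =>
    intro N hN
    obtain ⟨N, rfl⟩ : ∃ M, N = M + 1 := ⟨N - 1, by omega⟩
    rw [a12_sum, ← ih N (by omega)]
    apply Finset.sum_congr rfl
    intro v _
    have h : ∀ c : Bool, occ (a12_ext (Fin.cons c v : Fin (N + 1) → Bool)) (i + 1) w =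
        occ (a12_ext v) i w := by
      intro c
      rw [a12_shift, a12_cons]
    rw [h, h]
    by_cases ho : occ (a12_ext v) i w = true
    · rw [if_pos ho, if_pos ho, if_pos ho, hp.2.2 (List.ofFn v)]
      simp [List.ofFn_succ]
    · rw [if_neg ho, if_neg ho, if_neg ho, add_zero]

theorem marginal_total {p : V} (hp : p ∈ PP) (N : ℕ) :
    ∑ v : Fin N → Bool, p (List.ofFn v) = p [] := by
  simpa using a12_tot hp N []

theorem marginal {p : V} (hp : p ∈ PP) {N i : ℕ} {w : List Bool} (h : i + w.length ≤ N) :
    ∑ v : Fin N → Bool,
      (if occ (fun n => if h : n < N then v ⟨n, h⟩ else false) i w = true then p (List.ofFn v) else 0) =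
        p w :=
  a12_gen hp w i N h

end RK
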