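import Pool.Agent.Helper90.RK.A09
import Pool.Agent.Helper90.RK.A10
import Pool.Agent.Helper90.RK.A11
import Pool.Agent.Helper90.RK.A12

/-!
# RK-A13: the extreme points are dense in `KK` (about 120 lines)

Let `p ∈ KK`.  It is enough: for each finite set `W` of words and `ε > 0` there is a periodic measure `e` with `|e w - p w| < ε` for
`w ∈ W` (basic neighbourhoods in the product topology; e.g. `mem_closure_iff_nhds`, `set_pi_mem_nhds`; or
`mem_closure_iff_seq_limit`-style).  Let `ℓ ≥ w.length` for `w ∈ W`, `N ≥ 1` with `3 * (ℓ + 1) / N < ε / 2`, and `δ = ε / (4 * 2^N)`.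
Apply `freq_approx` to `α = (Fin N → Bool)`, `v ↦ p (List.ofFn v)` (`marginal_total`): `k` and `b : Fin k → (Fin N → Bool)`.  Blocks
`B j n = b ⟨j, _⟩ ⟨n, _⟩` (and `false` outside).  By `block_count`, `perP x (k * N) w` is within `ℓ / N` of
`(1 / (k N)) ∑_j ∑_{i ≤ N - |w|} [occ (B j) i w] = (1/N) ∑_{i ≤ N - |w|} ∑_v (#{j | b j = v} / k) [w occurs in v at i]`, which is within
`2^N δ ≤ ε / 4` of `(1/N) ∑_{i ≤ N - |w|} ∑_v p (ofFn v) [w occurs in v at i] = ((N - |w| + 1) / N) p w` (`marginal`), which is within
`(ℓ + 1) / N` of `p w`.  `perP x (k * N)` is an extreme point by `perP_extreme` (with `block_per`).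
`two_ext`: `KK` has two different extreme points: the constant sequences `false`, `true` of period 1.
-/

namespace RK

open Set Filter Topology

private theorem a13_min (s : Finset (List Bool)) (e : List Bool → ℝ) (he : ∀ w, 0 < e w) :
    ∃ ε > 0, ∀ w ∈ s, ε ≤ e w := by
  induction s using Finset.induction_on with
  | empty => exact ⟨1, one_pos, by simp⟩
  | insert a s ha ih =>
    obtain ⟨ε, h, h'⟩ := ih
    refine ⟨min ε (e a), lt_min h (he a), fun w hw => ?_⟩
    rw [Finset.mem_insert] at hw
    rcases hw with rfl | hw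
    · exact min_le_right _ _
    · exact (min_le_left _ _).trans (h' w hw)

/-- the extension of a finite word by `false` -/
private def a13e {N : ℕ} (v : Fin N → Bool) : ℕ → Bool :=
  fun n => if h : n < N then v ⟨n, h⟩ else false

private theorem a13_le_one {p : V} (hp : p ∈ KK) (w : List Bool) : p w ≤ 1 := by
  have h1 := marginal hp.1 (N := w.length) (i := 0) (w := w) (by omega)
  have h2 := marginal_total hp.1 w.length
  rw [hp.2] at h2
  rw [← h1, ← h2]
  refine Finset.sum_le_sum fun v _ => ?_
  split_ifs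
  · exact le_rfl
  · exact hp.1.1 _

/-- the sum of `f` over the words `v` in which `w` occurs at `i` -/
private noncomputable def a13g {N : ℕ} (f : (Fin N → Bool) → ℝ) (w : List Bool) (i : ℕ) : ℝ :=
  ∑ v, if occ (a13e v) i w = true then f v else 0

private theorem a13_g_sub {N : ℕ} (f f' : (Fin N → Bool) → ℝ) (w : List Bool) (i : ℕ) {δ : ℝ}
    (h : ∀ v, |f v - f' v| ≤ δ) : |a13g f w i - a13g f' w i| ≤ 2 ^ N * δ := by
  have hδ : 0 ≤ δ := (abs_nonneg _).trans (h fun _ => false)
  unfold a13g
  rw [← Finset.sum_sub_distrib]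
  refine (Finset.abs_sum_le_sum_abs _ _).trans ?_
  have h1 : ∑ _v : Fin N → Bool, δ = 2 ^ N * δ := by
    rw [Finset.sum_const, Finset.card_univ, nsmul_eq_mul, Fintype.card_fun, Fintype.card_bool,
      Fintype.card_fin]
    push_cast
    ring
  rw [← h1]
  refine Finset.sum_le_sum fun v _ => ?_
  split_ifs
  · exact h v
  · rw [sub_self, abs_zero]
    exact hδ

private theorem a13_g_freq {N k : ℕ} (b : Fin k → (Fin N → Bool)) (w : List Bool) (i : ℕ) :
    a13g (fun v => ((Finset.univ.filter (fun j => b j = v)).card : ℝ) / k) w i =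
      (∑ j : Fin k, if occ (a13e (b j)) i w = true then (1 : ℝ) else 0) / k := by
  unfold a13g
  rw [Finset.sum_div]
  have h1 : ∀ v : Fin N → Bool, (if occ (a13e v) i w = true then
      ((Finset.univ.filter (fun j => b j = v)).card : ℝ) / k else 0) =
      ∑ j : Fin k, if b j = v then (if occ (a13e v) i w = true then (1 : ℝ) else 0) / k else 0 := by
    intro v
    rw [← Finset.sum_filter, Finset.sum_const, nsmul_eq_mul]
    split_ifs
    · ring
    · ring
  rw [Finset.sum_congr rfl fun v _ => h1 v, Finset.sum_comm]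
  refine Finset.sum_congr rfl fun j _ => ?_
  rw [Finset.sum_ite_eq, if_pos (Finset.mem_univ _)]

private theorem a13_main {p : V} (hp : p ∈ KK) (s : Finset (List Bool)) {ε : ℝ} (hε : 0 < ε) :
    ∃ e ∈ KK.extremePoints ℝ, ∀ w ∈ s, |e w - p w| < ε := by
  obtain ⟨L, hL⟩ : ∃ L : ℕ, ∀ w ∈ s, w.length ≤ L := ⟨s.sup List.length, fun w hw =>
    Finset.le_sup (f := List.length) hw⟩
  obtain ⟨N, hN⟩ := exists_nat_gt (4 * L / ε)
  have hNpos : 0 < N := by
    have h1 : (0 : ℝ) < N := lt_of_le_of_lt (by positivity) hN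
    exact_mod_cast h1
  have hNR : (0 : ℝ) < N := by exact_mod_cast hNpos
  have hLN : 2 * (L : ℝ) / N < ε / 2 := by
    rw [div_lt_iff₀ hε] at hN
    rw [div_lt_iff₀ hNR]
    linarith
  have h2N : (0 : ℝ) < 2 ^ N := by positivity
  obtain ⟨k, b, hk, hb⟩ := freq_approx (α := Fin N → Bool) (fun v => p (List.ofFn v))
    (fun v => hp.1.1 _) ((marginal_total hp.1 N).trans hp.2) (δ := ε / (4 * 2 ^ N))
    (by positivity)
  have hkR : (0 : ℝ) < k := by exact_mod_cast hk
  obtain ⟨B, hB⟩ : ∃ B : ℕ → ℕ → Bool, ∀ j : Fin k, B (j : ℕ) = a13e (b j) := by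
    refine ⟨fun j n => if hj : j < k then a13e (b ⟨j, hj⟩) n else false, fun j => ?_⟩
    funext n
    simp only [j.isLt, dif_pos, Fin.eta]
  refine ⟨perP (fun n => B (n / N % k) (n % N)) (k * N),
    perP_extreme (Nat.mul_pos hk hNpos) (fun n => block_per B N k n), fun w hw => ?_⟩
  have hcount := block_count B hNpos hk w
  have hwL : (w.length : ℝ) ≤ L := by exact_mod_cast hL w hw
  -- the average
  have hS : (∑ j ∈ Finset.range k, (((Finset.range N).filter
      (fun i => i + w.length ≤ N ∧ occ (B j) i w = true)).card : ℝ)) / (k * N) =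
      (∑ i ∈ Finset.range N, if i + w.length ≤ N then
        a13g (fun v => ((Finset.univ.filter (fun j => b j = v)).card : ℝ) / k) w i else 0) / N := by
    rw [Finset.sum_range fun j => (((Finset.range N).filter
      (fun i => i + w.length ≤ N ∧ occ (B j) i w = true)).card : ℝ)]
    have h1 : ∀ j : Fin k, (((Finset.range N).filter
        (fun i => i + w.length ≤ N ∧ occ (B j) i w = true)).card : ℝ) =
        ∑ i ∈ Finset.range N, if i + w.length ≤ N then
          (if occ (a13e (b j)) i w = true then (1 : ℝ) else 0) else 0 := by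
      intro j
      rw [Finset.card_filter, Nat.cast_sum, hB j]
      refine Finset.sum_congr rfl fun i _ => ?_
      by_cases h2 : i + w.length ≤ N
      · by_cases h3 : occ (a13e (b j)) i w = true
        · simp [h2, h3]
        · simp [h2, h3]
      · simp [h2]
    rw [Finset.sum_congr rfl fun j _ => h1 j, Finset.sum_comm, ← div_div, Finset.sum_div]
    congr 1
    refine Finset.sum_congr rfl fun i _ => ?_
    rw [a13_g_freq]
    by_cases h2 : i + w.length ≤ N
    · simp only [h2, if_true]
    · simp only [h2, if_false, Finset.sum_const_zero, zero_div]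
  rw [hS] at hcount
  have hclose : |(∑ i ∈ Finset.range N, if i + w.length ≤ N then
      a13g (fun v => ((Finset.univ.filter (fun j => b j = v)).card : ℝ) / k) w i else 0) / N -
      (∑ i ∈ Finset.range N, if i + w.length ≤ N then p w else 0) / N| ≤ ε / 4 := by
    rw [← sub_div, ← Finset.sum_sub_distrib, abs_div, abs_of_pos hNR, div_le_iff₀ hNR]
    refine (Finset.abs_sum_le_sum_abs _ _).trans ?_
    have h1 : ∑ _i ∈ Finset.range N, ε / 4 = ε / 4 * N := by
      rw [Finset.sum_const, Finset.card_range, nsmul_eq_mul]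
      ring
    rw [← h1]
    refine Finset.sum_le_sum fun i _ => ?_
    by_cases h2 : i + w.length ≤ N
    · rw [if_pos h2, if_pos h2]
      have h3 : p w = a13g (fun v : Fin N → Bool => p (List.ofFn v)) w i :=
        (marginal hp.1 h2).symm
      rw [h3]
      refine (a13_g_sub _ _ w i hb).trans (le_of_eq ?_)
      field_simp
    · rw [if_neg h2, if_neg h2, sub_self, abs_zero]
      positivity
  have hlast : |(∑ i ∈ Finset.range N, if i + w.length ≤ N then p w else 0) / N - p w| ≤
      L / N := by
    rw [← Finset.sum_filter, Finset.sum_const, nsmul_eq_mul]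
    obtain ⟨c, hc⟩ : ∃ c, c = ((Finset.range N).filter (fun i => i + w.length ≤ N)).card :=
      ⟨_, rfl⟩
    rw [← hc]
    have h1 : c ≤ N := by
      rw [hc]
      refine (Finset.card_filter_le _ _).trans ?_
      rw [Finset.card_range]
    have h2 : N ≤ c + w.length := by
      have h3 : N - w.length ≤ c := by
        rw [hc]
        have h4 : Finset.range (N - w.length) ⊆
            (Finset.range N).filter (fun i => i + w.length ≤ N) := by
          intro i hi
          rw [Finset.mem_range] at hi
          rw [Finset.mem_filter, Finset.mem_range]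
          omega
        have h5 := Finset.card_le_card h4
        rwa [Finset.card_range] at h5
      omega
    have h1' : (c : ℝ) ≤ N := by exact_mod_cast h1
    have h2' : (N : ℝ) ≤ c + w.length := by exact_mod_cast h2
    have h6 : (c : ℝ) * p w / N - p w = -(((N : ℝ) - c) * p w / N) := by
      field_simp
      ring
    have h7 : 0 ≤ ((N : ℝ) - c) * p w / N :=
      div_nonneg (mul_nonneg (by linarith) (hp.1.1 w)) hNR.le
    rw [h6, abs_neg, abs_of_nonneg h7]
    refine div_le_div_of_nonneg_right ?_ hNR.le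
    have h8 := a13_le_one hp w
    have h9 := hp.1.1 w
    nlinarith
  have h10 : (w.length : ℝ) / N ≤ L / N := div_le_div_of_nonneg_right hwL hNR.le
  have h11 : 2 * (L : ℝ) / N = L / N + L / N := by ring
  rw [abs_le] at hcount hclose hlast
  rw [abs_lt]
  constructor
  · linarith [hcount.1, hclose.1, hlast.1]
  · linarith [hcount.2, hclose.2, hlast.2]

theorem KK_dense : KK ⊆ closure (KK.extremePoints ℝ) := by
  intro p hp
  rw [mem_closure_iff_nhds]
  intro U hU
  rw [nhds_pi, Filter.mem_pi] at hU
  obtain ⟨I, hI, t, ht, hU⟩ := hU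
  have ht' : ∀ w, ∃ e > 0, Metric.ball (p w) e ⊆ t w := fun w => Metric.mem_nhds_iff.1 (ht w)
  choose e he hball using ht'
  obtain ⟨ε, hε, hεe⟩ := a13_min hI.toFinset e he
  obtain ⟨q, hq, hqp⟩ := a13_main hp hI.toFinset hε
  refine ⟨q, hU ?_, hq⟩
  intro w hw
  have hw' : w ∈ hI.toFinset := hI.mem_toFinset.2 hw
  apply hball w
  rw [Metric.mem_ball, Real.dist_eq]
  exact lt_of_lt_of_le (hqp w hw') (hεe w hw')

theorem two_ext : ∃ e ∈ KK.extremePoints ℝ, ∃ e' ∈ KK.extremePoints ℝ, e ≠ e' := by
  refine ⟨perP (fun _ => false) 1, perP_extreme one_pos fun _ => rfl,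
    perP (fun _ => true) 1, perP_extreme one_pos fun _ => rfl, fun h => ?_⟩
  have h1 := congrFun h [true]
  simp [perP, occ] at h1

end RK
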