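import Pool.Agent.Helper90.RK.A05
import Pool.Agent.Helper90.RK.A06
import Pool.Agent.Helper90.RK.A07

/-!
# RK-A14: `rK` is LU and obeys the additive rule (about 60 lines)

`rK_LU`: `isLU_of_Fsigma` with `rK_ge` and `Ind_Fsigma (m + 1)`.
`rK_add`: `pos` by `Ind_one`; `add`: `rK_combo` gives `rK x = m` and `rK (e i) = 1` (the case of one extreme point); `top`: if `rK x ≠ ⊤` then
`¬ Ind (m + 1) x` for some `m`; `combo_of_not_Ind`.
-/

namespace RK

open Set Filter Topology

theorem rK_ext (e : KK) (he : (e : V) ∈ KK.extremePoints ℝ) : rK e = 1 := by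
  have h := rK_combo (m := 1) (e := fun _ => (e : V)) (p := fun _ => 1) e
    (fun i j _ => Subsingleton.elim i j) (fun _ => he) (fun _ => one_pos) (by simp)
  rw [h]
  exact Nat.cast_one

theorem rK_one_le (x : KK) : 1 ≤ rK x := by
  have h := (rK_ge x 0).2 (Ind_one x.2)
  rwa [Nat.cast_zero, zero_add] at h

theorem rK_LU : IsLU (fun x => (((rK x : ENNReal)) : EReal)) := by
  refine isLU_of_Fsigma rK rK_one_le fun m => ?_
  obtain ⟨F, h1, h2, h3⟩ := Ind_Fsigma (m + 1)
  refine ⟨F, h1, h2, ?_⟩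
  rw [h3]
  ext x
  exact (rK_ge x m).symm

theorem rK_additive : AdditiveRule KK rK := by
  refine ⟨rK_one_le, ?_, ?_⟩
  · intro m e p x hinj he hp _ hx
    have h := rK_combo (e := fun i => (e i : V)) x (Subtype.val_injective.comp hinj) he hp hx
    rw [h]
    have h1 : ∀ i, rK (e i) = 1 := fun i => rK_ext (e i) (he i)
    simp only [h1]
    simp
  · intro x hx
    by_contra htop
    have hex : ∃ m : ℕ, ¬ Ind (m + 1) (x : V) := by
      by_contra hcon
      push Not at hcon
      apply htop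
      rw [ENat.eq_top_iff_forall_ge]
      intro m
      have h := (rK_ge x m).2 (hcon m)
      exact le_trans (le_self_add) h
    obtain ⟨m, hm⟩ := hex
    obtain ⟨n, e, p, he, hp, hs, h⟩ := combo_of_not_Ind m x x.2 hm
    exact hx ⟨n, fun i => ⟨e i, (he i).1⟩, p, he, hp, hs, h⟩

end RK
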