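import Pool.Agent.Helper90.RK.BDefs

/-!
# RK-B01: the mean ergodic theorem in `L¹` for bounded measurable functions (about 150 lines)

Let `U` be the operator `g ↦ g ∘ T` on `Lp ℝ 2 μ` (`MeasureTheory.Lp.compMeasurePreservingₗᵢ` or `compMeasurePreserving`, an isometry), so its norm is `≤ 1`.
Mathlib: `ContinuousLinearMap.tendsto_birkhoffAverage_orthogonalProjection` (Mathlib.Analysis.InnerProductSpace.MeanErgodic): the averages of `f` converge in `L²` to the projection
`g` of `f` to the space of fixed vectors.  `g ∘ T = g` a.e., so `g` is a.e. constant `c` (`Ergodic.ae_eq_const_of_ae_eq_comp_ae` or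
`MeasureTheory.AEEqFun`-version).  `∫ av T N f ∂μ = ∫ f ∂μ` for `N > 0` (measure preserving), and `L²` convergence on a probability space implies
`L¹` convergence, so `c = ∫ f`.  Finally `∫ |av T N f - c| ≤ ‖av T N f - c‖_2 → 0`.
(The class of `av T N f` in `Lp` is the Birkhoff average of the class of `f`: by induction on iterates, `coeFn` lemmas.)
-/

namespace RK

open MeasureTheory Set Filter Topology

variable {X : Type*} [MeasurableSpace X] {T : X → X} {μ : Measure X} [IsProbabilityMeasure μ]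

theorem av_measurable (hT : Measurable T) {f : X → ℝ} (hf : Measurable f) (N : ℕ) :
    Measurable (av T N f) := by
  unfold av
  exact (Finset.measurable_fun_sum _ fun i _ => hf.comp (hT.iterate i)).div_const _

theorem av_le {f : X → ℝ} {C : ℝ} (hb : ∀ x, |f x| ≤ C) (hC : 0 ≤ C) (N : ℕ) (x : X) :
    |av T N f x| ≤ C := by
  unfold av
  rcases Nat.eq_zero_or_pos N with rfl | hN
  · simpa using hC
  rw [abs_div, Nat.abs_cast, div_le_iff₀ (by exact_mod_cast hN)]
  calc |∑ i ∈ Finset.range N, f (T^[i] x)| ≤ ∑ i ∈ Finset.range N, |f (T^[i] x)| :=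
        Finset.abs_sum_le_sum_abs _ _
    _ ≤ ∑ i ∈ Finset.range N, C := Finset.sum_le_sum fun i _ => hb _
    _ = C * N := by simp [mul_comm]

omit [IsProbabilityMeasure μ] in
/-- The iterates of the Koopman operator. -/
theorem koopman_iterate (m0 : MeasurePreserving T μ μ) {f : X → ℝ} (hfm : MemLp f 2 μ) (i : ℕ) :
    (Lp.compMeasurePreservingₗᵢ ℝ T m0)^[i] (hfm.toLp f) =
      (hfm.comp_measurePreserving (m0.iterate i)).toLp (f ∘ T^[i]) := by
  induction i with
  | zero => rfl
  | succ i ih =>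
    rw [Function.iterate_succ_apply', ih]
    change Lp.compMeasurePreserving T m0
      ((hfm.comp_measurePreserving (m0.iterate i)).toLp (f ∘ T^[i])) = _
    rw [Lp.toLp_compMeasurePreserving]
    congr 1

/-- `L¹` norms are at most `L²` norms. -/
theorem integral_abs_le_norm {g : X → ℝ} (hg : MemLp g 2 μ) :
    ∫ x, |g x| ∂μ ≤ ‖hg.toLp g‖ := by
  rw [Lp.norm_toLp]
  have h1 : ∫ x, |g x| ∂μ = (eLpNorm g 1 μ).toReal := by
    rw [eLpNorm_one_eq_lintegral_enorm]
    have := integral_norm_eq_lintegral_enorm (μ := μ) (f := g) hg.aestronglyMeasurable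
    simpa [Real.norm_eq_abs] using this
  rw [h1]
  exact ENNReal.toReal_mono hg.eLpNorm_ne_top
    (eLpNorm_le_eLpNorm_of_exponent_le (by norm_num) hg.aestronglyMeasurable)

theorem mean_ergodic (h : Ergodic T μ) {f : X → ℝ} (hf : Measurable f) {C : ℝ}
    (hb : ∀ x, |f x| ≤ C) :
    Tendsto (fun N : ℕ => ∫ x, |av T N f x - ∫ y, f y ∂μ| ∂μ) atTop (𝓝 0) := by
  have m0 : MeasurePreserving T μ μ := h.toMeasurePreserving
  have hne : Nonempty X := by
    by_contra hcon
    rw [not_nonempty_iff] at hcon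
    have h1 : μ univ = 1 := measure_univ
    rw [Set.univ_eq_empty_iff.2 hcon, measure_empty] at h1
    exact zero_ne_one h1
  have hC : 0 ≤ C := (abs_nonneg _).trans (hb (Classical.arbitrary X))
  have hfm : MemLp f 2 μ := MemLp.of_bound hf.aestronglyMeasurable C
    (Eventually.of_forall fun x => by rw [Real.norm_eq_abs]; exact hb x)
  have hav : ∀ N, MemLp (av T N f) 2 μ := fun N =>
    MemLp.of_bound (av_measurable m0.measurable hf N).aestronglyMeasurable C
      (Eventually.of_forall fun x => by rw [Real.norm_eq_abs]; exact av_le hb hC N x)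
  set U := Lp.compMeasurePreservingₗᵢ (E := ℝ) (p := 2) ℝ T m0 with hU
  set P := ((U.toContinuousLinearMap).eqLocus (1 : Lp ℝ 2 μ →L[ℝ] Lp ℝ 2 μ)).orthogonalProjectionOnto
    (hfm.toLp f) with hP
  have hlim := U.toContinuousLinearMap.tendsto_birkhoffAverage_orthogonalProjection
    (LinearIsometry.norm_toContinuousLinearMap_le U) (hfm.toLp f)
  rw [← hP] at hlim
  -- the averages
  have havg : ∀ N, birkhoffAverage ℝ U.toContinuousLinearMap _root_.id N (hfm.toLp f) =
      (hav N).toLp (av T N f) := by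
    intro N
    have hsum : ∀ M : ℕ, (birkhoffSum U.toContinuousLinearMap _root_.id M (hfm.toLp f) :
        Lp ℝ 2 μ) =ᵐ[μ] fun x => ∑ i ∈ Finset.range M, f (T^[i] x) := by
      intro M
      induction M with
      | zero =>
        rw [birkhoffSum_zero]
        filter_upwards [Lp.coeFn_zero ℝ 2 μ] with x hx
        rw [hx]
        simp
      | succ M ih =>
        rw [birkhoffSum_succ]
        have h1 : ((U.toContinuousLinearMap)^[M] (hfm.toLp f) : Lp ℝ 2 μ) =ᵐ[μ] f ∘ T^[M] := by
          have h2 := koopman_iterate m0 hfm M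
          change ((U)^[M] (hfm.toLp f) : Lp ℝ 2 μ) =ᵐ[μ] f ∘ T^[M]
          rw [h2]
          exact MemLp.coeFn_toLp _
        filter_upwards [Lp.coeFn_add (birkhoffSum U.toContinuousLinearMap _root_.id M (hfm.toLp f))
          ((U.toContinuousLinearMap)^[M] (hfm.toLp f)), ih, h1] with x hx h3 h4
        rw [Finset.sum_range_succ, _root_.id, hx, Pi.add_apply, h3, h4]
        rfl
    apply Lp.ext
    rw [birkhoffAverage]
    filter_upwards [Lp.coeFn_smul ((N : ℝ)⁻¹)
      (birkhoffSum U.toContinuousLinearMap _root_.id N (hfm.toLp f)), hsum N,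
      (hav N).coeFn_toLp] with x h1 h2 h3
    rw [h1, h3, Pi.smul_apply, h2, av, smul_eq_mul]
    ring
  -- the limit is constant
  have hfix : U (P : Lp ℝ 2 μ) = P := by
    exact P.2
  obtain ⟨c, hc⟩ : ∃ c : ℝ, ((P : Lp ℝ 2 μ) : X → ℝ) =ᵐ[μ] fun _ => c := by
    have h1 : ((P : Lp ℝ 2 μ) : X → ℝ) ∘ T =ᵐ[μ] (P : Lp ℝ 2 μ) := by
      have h2 := Lp.coeFn_compMeasurePreserving (P : Lp ℝ 2 μ) m0
      have h3 : Lp.compMeasurePreserving T m0 (P : Lp ℝ 2 μ) = P := hfix
      rw [h3] at h2
      exact h2.symm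
    obtain ⟨c, hc⟩ := h.quasiErgodic.ae_eq_const_of_ae_eq_comp_ae
      (Lp.aestronglyMeasurable (P : Lp ℝ 2 μ)) h1
    exact ⟨c, hc⟩
  have hcm : ∀ N, MemLp (fun x => av T N f x - c) 2 μ := fun N =>
    (hav N).sub (memLp_const c)
  have hL2 : Tendsto (fun N : ℕ => ‖(hcm N).toLp (fun x => av T N f x - c)‖) atTop (𝓝 0) := by
    rw [tendsto_iff_norm_sub_tendsto_zero] at hlim
    refine hlim.congr fun N => ?_
    rw [havg N]
    congr 1
    apply Lp.ext
    filter_upwards [Lp.coeFn_sub ((hav N).toLp (av T N f)) (P : Lp ℝ 2 μ), hc,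
      (hav N).coeFn_toLp, (hcm N).coeFn_toLp] with x h1 h2 h3 h4
    rw [h1, h4, Pi.sub_apply, h2, h3]
  have hL1 : Tendsto (fun N : ℕ => ∫ x, |av T N f x - c| ∂μ) atTop (𝓝 0) :=
    squeeze_zero (fun N => integral_nonneg fun x => abs_nonneg _)
      (fun N => integral_abs_le_norm (hcm N)) hL2
  -- the constant is the integral
  have hint : ∀ N : ℕ, 0 < N → ∫ x, av T N f x ∂μ = ∫ x, f x ∂μ := by
    intro N hN
    unfold av
    rw [integral_div, integral_finsetSum]
    · have h1 : ∀ i ∈ Finset.range N, ∫ x, f (T^[i] x) ∂μ = ∫ x, f x ∂μ := by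
        intro i _
        have hm := (m0.iterate i)
        have h2 := integral_map (μ := μ) (φ := T^[i]) hm.measurable.aemeasurable
          (f := f) hf.aestronglyMeasurable
        rw [hm.map_eq] at h2
        exact h2.symm
      rw [Finset.sum_congr rfl h1, Finset.sum_const, Finset.card_range, nsmul_eq_mul]
      have : (N : ℝ) ≠ 0 := by exact_mod_cast hN.ne'
      field_simp
    · intro i _
      exact (hfm.comp_measurePreserving (m0.iterate i)).integrable (by norm_num)
  have hceq : ∫ x, f x ∂μ = c := by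
    have h1 : ∀ N : ℕ, 0 < N → |∫ x, f x ∂μ - c| ≤ ∫ x, |av T N f x - c| ∂μ := by
      intro N hN
      have h2 : ∫ x, f x ∂μ - c = ∫ x, (av T N f x - c) ∂μ := by
        rw [integral_sub ((hav N).integrable (by norm_num)) (integrable_const c), hint N hN]
        simp
      rw [h2]
      exact abs_integral_le_integral_abs
    have h3 : |∫ x, f x ∂μ - c| ≤ 0 := by
      refine ge_of_tendsto hL1 ?_
      filter_upwards [eventually_gt_atTop 0] with N hN using h1 N hN
    have h4 := abs_nonpos_iff.1 h3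
    linarith
  rw [hceq]
  exact hL1

end RK
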