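import Pool.Agent.Helper90.RK.B01

/-!
# RK-B02: frequencies (about 80 lines)

`av_near`: Markov inequality (`mul_meas_ge_le_integral_of_nonneg`) for `|av T N f - ∫ f|` and `mean_ergodic`:
`μ.real {x | δ ≤ |av T N f x - ∫ f|} ≤ (1/δ) ∫ |av T N f - ∫ f| → 0`.
`freq_ge`: `f` the indicator function of `G`; `vis T G N x = N * av T N f x` and `∫ f = μ.real G`; take `δ = μ.real G - a`.
-/

namespace RK

open MeasureTheory Set Filter Topology

variable {X : Type*} [MeasurableSpace X] {T : X → X} {μ : Measure X} [IsProbabilityMeasure μ]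

theorem av_near (h : Ergodic T μ) {f : X → ℝ} (hf : Measurable f) {C : ℝ}
    (hb : ∀ x, |f x| ≤ C) {δ η : ℝ} (hδ : 0 < δ) (hη : 0 < η) :
    ∀ᶠ N : ℕ in atTop, 1 - η < μ.real {x | |av T N f x - ∫ y, f y ∂μ| < δ} := by
  obtain ⟨x0⟩ := nonempty_of_isProbabilityMeasure μ
  have hC : 0 ≤ C := (abs_nonneg (f x0)).trans (hb x0)
  have hT : Measurable T := h.toMeasurePreserving.measurable
  have h1 := (mean_ergodic h hf hb).eventually_lt_const (mul_pos hδ hη)
  filter_upwards [h1] with N hN
  have hm : Measurable fun x => |av T N f x - ∫ y, f y ∂μ| :=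
    continuous_abs.measurable.comp ((av_measurable hT hf N).sub_const _)
  have hint : Integrable (fun x => |av T N f x - ∫ y, f y ∂μ|) μ := by
    refine Integrable.of_bound hm.aestronglyMeasurable (C + |∫ y, f y ∂μ|)
      (Eventually.of_forall fun x => ?_)
    rw [Real.norm_eq_abs, abs_abs]
    exact (abs_sub _ _).trans (add_le_add (av_le hb hC N x) le_rfl)
  have h2 := mul_meas_ge_le_integral_of_nonneg (μ := μ)
    (Eventually.of_forall fun x => abs_nonneg (av T N f x - ∫ y, f y ∂μ)) hint δ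
  have h3 : μ.real {x | δ ≤ |av T N f x - ∫ y, f y ∂μ|} < η := by
    by_contra hcon
    push Not at hcon
    have h4 := mul_le_mul_of_nonneg_left hcon hδ.le
    linarith
  have hS : MeasurableSet {x | δ ≤ |av T N f x - ∫ y, f y ∂μ|} :=
    measurableSet_le measurable_const hm
  have h5 : {x | |av T N f x - ∫ y, f y ∂μ| < δ} = {x | δ ≤ |av T N f x - ∫ y, f y ∂μ|}ᶜ := by
    ext x
    show |av T N f x - ∫ y, f y ∂μ| < δ ↔ ¬ (δ ≤ |av T N f x - ∫ y, f y ∂μ|)
    exact not_le.symm
  rw [h5, probReal_compl_eq_one_sub hS]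
  linarith

theorem freq_ge (h : Ergodic T μ) {G : Set X} (hG : MeasurableSet G) {a : ℝ}
    (ha : a < μ.real G) {η : ℝ} (hη : 0 < η) :
    ∀ᶠ N : ℕ in atTop, 1 - η < μ.real {x | a * N < vis T G N x} := by
  have hf : Measurable (G.indicator fun _ => (1 : ℝ)) := measurable_const.indicator hG
  have hb : ∀ x, |G.indicator (fun _ => (1 : ℝ)) x| ≤ 1 := by
    intro x
    by_cases hx : x ∈ G
    · rw [Set.indicator_of_mem hx, abs_one]
    · rw [Set.indicator_of_notMem hx, abs_zero]
      exact zero_le_one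
  have hint : ∫ y, G.indicator (fun _ => (1 : ℝ)) y ∂μ = μ.real G := by
    rw [integral_indicator hG, setIntegral_const, smul_eq_mul, mul_one]
  have h1 := av_near h hf hb (sub_pos.2 ha) hη
  filter_upwards [h1, eventually_gt_atTop 0] with N hN hN0
  refine hN.trans_le (measureReal_mono ?_)
  intro x hx
  have h2 : |av T N (G.indicator fun _ => (1 : ℝ)) x - μ.real G| < μ.real G - a := by
    rw [← hint]
    exact hint ▸ hx
  have hN' : (0 : ℝ) < N := Nat.cast_pos.2 hN0
  have h3 : a < av T N (G.indicator fun _ => (1 : ℝ)) x := by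
    have := (abs_lt.1 h2).1
    linarith
  have h4 : av T N (G.indicator fun _ => (1 : ℝ)) x = vis T G N x / N := rfl
  rw [h4, lt_div_iff₀ hN'] at h3
  exact h3

end RK
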