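import Pool.Agent.Helper90.RK.Defs

/-!
# RK-B03: ergodic measures and extreme points (about 150 lines)

Let `π : InvM T ≃ₜ K` be affine.
* `ext_of_ergodic`: let `π μ` be in the open segment of `x, y ∈ K`, `π μ = a • x + b • y`, and `μ₁ = π⁻¹ x`, `μ₂ = π⁻¹ y`.  The measure
  `a μ₁ + b μ₂` is an invariant probability measure `ρ` and `π ρ = a • x + b • y = π μ`, so `ρ = μ`.  As `μ` is ergodic,
  `Ergodic.mem_extremePoints` (Mathlib.Dynamics.Ergodic.Extreme; extreme points over `ℝ≥0∞`) or directly `Ergodic.eq_of_absolutelyContinuous`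
  (`μ₁ ≪ μ` as `a > 0`) gives `μ₁ = μ`, `μ₂ = μ`.
* `ergodic_of_ext`: by `Ergodic.of_mem_extremePoints` it is enough that `μ` is an extreme point (over `ℝ≥0∞`) of the set of the invariant probability measures:
  if `μ = a • μ₁ + b • μ₂` with `a + b = 1` in `ℝ≥0∞` (so `a = ENNReal.ofReal t` with `t = a.toReal`) then `π μ = t • π μ₁ + (1-t) • π μ₂`, so `π μ₁ = π μ`.
* `dense_ergodic`: `π` maps the open set `{μ | μ.1 ∈ O}` of `InvM T` to an open subset of `K`, nonempty, so it contains an extreme point (the closure is taken in `E`; an open subset of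
  `K` is `K ∩ U` with `U` open in `E`).
* `two_ergodic`: preimages of the two extreme points.
-/

namespace RK

open MeasureTheory Set Filter Topology

variable {X : Type*} [MeasurableSpace X] [TopologicalSpace X] [OpensMeasurableSpace X]
  {E : Type*} [AddCommGroup E] [Module ℝ E] [TopologicalSpace E] {T : X → X} {K : Set E}

/-- The convex combination of two invariant measures. -/
theorem b03_exists_comb (μ ν : InvM T) (t : ℝ) (ht0 : 0 ≤ t) (ht1 : t ≤ 1) :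
    ∃ ρ : InvM T, (ρ.1 : Measure X) = ENNReal.ofReal t • (μ.1 : Measure X) +
      ENNReal.ofReal (1 - t) • (ν.1 : Measure X) := by
  have h1 : IsProbabilityMeasure (ENNReal.ofReal t • (μ.1 : Measure X) +
      ENNReal.ofReal (1 - t) • (ν.1 : Measure X)) := by
    constructor
    rw [Measure.add_apply, Measure.smul_apply, Measure.smul_apply, measure_univ, measure_univ,
      smul_eq_mul, smul_eq_mul, mul_one, mul_one, ← ENNReal.ofReal_add ht0 (by linarith)]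
    simp
  have h2 : MeasurePreserving T (ENNReal.ofReal t • (μ.1 : Measure X) +
      ENNReal.ofReal (1 - t) • (ν.1 : Measure X)) (ENNReal.ofReal t • (μ.1 : Measure X) +
      ENNReal.ofReal (1 - t) • (ν.1 : Measure X)) := by
    refine ⟨μ.2.measurable, ?_⟩
    rw [Measure.map_add _ _ μ.2.measurable, Measure.map_smul, Measure.map_smul, μ.2.map_eq,
      ν.2.map_eq]
  exact ⟨⟨⟨_, h1⟩, h2⟩, rfl⟩

theorem ext_of_ergodic (π : InvM T ≃ₜ K) (hπ : IsAffineMap (T := T) π) (μ : InvM T)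
    (h : Ergodic T (μ.1 : Measure X)) : (π μ : E) ∈ K.extremePoints ℝ := by
  rw [mem_extremePoints_iff_left]
  refine ⟨(π μ).2, ?_⟩
  rintro x hx y hy ⟨a, b, ha, hb, hab, hxy⟩
  obtain ⟨μ₁, hμ₁⟩ : ∃ μ₁, π μ₁ = ⟨x, hx⟩ := π.surjective _
  obtain ⟨μ₂, hμ₂⟩ : ∃ μ₂, π μ₂ = ⟨y, hy⟩ := π.surjective _
  obtain ⟨ρ, hρ⟩ := b03_exists_comb μ₁ μ₂ a ha.le (by linarith)
  have h1 := hπ μ₁ μ₂ ρ a ha.le (by linarith) hρ
  have h2 : π ρ = π μ := by
    apply Subtype.ext
    rw [h1, hμ₁, hμ₂, ← hxy, show 1 - a = b by linarith]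
  have h3 : ρ = μ := π.injective h2
  have h4 : (μ₁.1 : Measure X) ≪ (μ.1 : Measure X) := by
    rw [← h3, hρ]
    refine Measure.AbsolutelyContinuous.add_right ?_ _
    exact Measure.absolutelyContinuous_smul (by simpa using ha)
  have h5 : (μ₁.1 : Measure X) = (μ.1 : Measure X) :=
    h.eq_of_absolutelyContinuous μ₁.2 h4
  have h6 : μ₁ = μ := Subtype.ext (Subtype.ext h5)
  rw [← h6, hμ₁]

theorem ergodic_of_ext (π : InvM T ≃ₜ K) (hπ : IsAffineMap (T := T) π) (μ : InvM T)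
    (h : (π μ : E) ∈ K.extremePoints ℝ) : Ergodic T (μ.1 : Measure X) := by
  apply Ergodic.of_mem_extremePoints
  rw [mem_extremePoints_iff_left]
  refine ⟨⟨μ.2, inferInstance⟩, ?_⟩
  rintro ν₁ ⟨h1, h1'⟩ ν₂ ⟨h2, h2'⟩ ⟨a, b, ha, hb, hab, hs⟩
  have ha1 : a ≤ 1 := hab ▸ le_self_add
  have hat : a ≠ ⊤ := ne_top_of_le_ne_top ENNReal.one_ne_top ha1
  have hbt : b ≠ ⊤ := ne_top_of_le_ne_top ENNReal.one_ne_top (hab ▸ le_add_self)
  have hta : 0 < a.toReal := ENNReal.toReal_pos ha.ne' hat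
  have htb : 0 < b.toReal := ENNReal.toReal_pos hb.ne' hbt
  have hab' : a.toReal + b.toReal = 1 := by
    rw [← ENNReal.toReal_add hat hbt, hab, ENNReal.toReal_one]
  let m₁ : InvM T := ⟨⟨ν₁, h1'⟩, h1⟩
  let m₂ : InvM T := ⟨⟨ν₂, h2'⟩, h2⟩
  have h3 := hπ m₁ m₂ μ a.toReal hta.le (by linarith) (by
    rw [ENNReal.ofReal_toReal hat, show 1 - a.toReal = b.toReal by linarith,
      ENNReal.ofReal_toReal hbt]
    exact hs.symm)
  have h4 := (mem_extremePoints_iff_left.1 h).2 (π m₁ : E) (π m₁).2 (π m₂ : E) (π m₂).2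
    ⟨a.toReal, b.toReal, hta, htb, hab', by
      rw [h3, show 1 - a.toReal = b.toReal by linarith]⟩
  have h5 : m₁ = μ := π.injective (Subtype.ext h4)
  have h6 : (m₁.1 : Measure X) = (μ.1 : Measure X) := by rw [h5]
  exact h6

theorem dense_ergodic (π : InvM T ≃ₜ K) (hπ : IsAffineMap (T := T) π)
    (hd : K ⊆ closure (K.extremePoints ℝ)) (μ : ProbabilityMeasure X)
    (hμ : MeasurePreserving T (μ : Measure X) (μ : Measure X)) (O : Set (ProbabilityMeasure X))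
    (hO : IsOpen O) (h : μ ∈ O) : ∃ ν ∈ O, Ergodic T (ν : Measure X) := by
  have h1 : IsOpen ((fun m : InvM T => m.1) ⁻¹' O) := hO.preimage continuous_subtype_val
  have h2 : IsOpen (π '' ((fun m : InvM T => m.1) ⁻¹' O)) := π.isOpenMap _ h1
  obtain ⟨U, hU, hU'⟩ := isOpen_induced_iff.1 h2
  have h3 : π ⟨μ, hμ⟩ ∈ π '' ((fun m : InvM T => m.1) ⁻¹' O) := ⟨_, h, rfl⟩
  have h4 : (π ⟨μ, hμ⟩ : E) ∈ U := by
    rw [← hU'] at h3
    exact h3
  obtain ⟨e, he, he'⟩ := mem_closure_iff.1 (hd (π ⟨μ, hμ⟩).2) U hU h4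
  have h5 : (⟨e, he'.1⟩ : K) ∈ π '' ((fun m : InvM T => m.1) ⁻¹' O) := by
    rw [← hU']
    exact he
  obtain ⟨ν, hν, hν'⟩ := h5
  refine ⟨ν.1, hν, ergodic_of_ext π hπ ν ?_⟩
  rw [hν']
  exact he'

theorem two_ergodic (π : InvM T ≃ₜ K) (hπ : IsAffineMap (T := T) π)
    (h : ∃ e ∈ K.extremePoints ℝ, ∃ e' ∈ K.extremePoints ℝ, e ≠ e') :
    ∃ c c' : ProbabilityMeasure X, Ergodic T (c : Measure X) ∧ Ergodic T (c' : Measure X) ∧
      c ≠ c' := by
  obtain ⟨e, he, e', he', hne⟩ := h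
  obtain ⟨m, hm⟩ : ∃ m, π m = ⟨e, he.1⟩ := π.surjective _
  obtain ⟨m', hm'⟩ : ∃ m', π m' = ⟨e', he'.1⟩ := π.surjective _
  refine ⟨m.1, m'.1, ergodic_of_ext π hπ m (by rw [hm]; exact he),
    ergodic_of_ext π hπ m' (by rw [hm']; exact he'), fun hc => hne ?_⟩
  have h1 : m = m' := Subtype.ext hc
  have h2 : (⟨e, he.1⟩ : K) = ⟨e', he'.1⟩ := by rw [← hm, ← hm', h1]
  exact congrArg Subtype.val h2

end RK
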