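import Pool.Agent.Helper90.RK.BDefs

/-!
# RK-B04: mixtures (about 150 lines)

`mix_toMeasure`: for `0 < k` the measure `k⁻¹ • ∑ c j` has total mass `1`.  The rest follows.
`mix_step`: the map `Φ : ν ↦ (k m + ν) / (k + 1)`, `m = mixP c k`, from `ProbabilityMeasure X` to itself is continuous
(`ProbabilityMeasure.tendsto_iff_forall_integral_tendsto`: integrals of bounded continuous functions), `Φ m = m`; take
`U = O ∩ Φ⁻¹ O`.  If `c'` agrees with `c` below `k` then `mixP c' (k+1) = Φ (c' k)`.
-/

namespace RK

open MeasureTheory Set Filter Topology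

variable {X : Type*} [MeasurableSpace X] {T : X → X} {c c' : ℕ → ProbabilityMeasure X} {k : ℕ}

theorem mix_toMeasure (hk : 0 < k) :
    (mixP c k : Measure X) = (k : ENNReal)⁻¹ • ∑ j ∈ Finset.range k, (c j : Measure X) := by
  have h : IsProbabilityMeasure ((k : ENNReal)⁻¹ • ∑ j ∈ Finset.range k, (c j : Measure X)) := by
    constructor
    rw [Measure.smul_apply, Measure.finsetSum_apply]
    simp only [measure_univ, Finset.sum_const, Finset.card_range, nsmul_eq_mul, mul_one,
      smul_eq_mul]
    exact ENNReal.inv_mul_cancel (by exact_mod_cast hk.ne') (ENNReal.natCast_ne_top k)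
  have h2 : mixP c k =
      (⟨(k : ENNReal)⁻¹ • ∑ j ∈ Finset.range k, (c j : Measure X), h⟩ : ProbabilityMeasure X) :=
    dif_pos h
  rw [h2]
  rfl

private theorem mix_apply (hk : 0 < k) (A : Set X) :
    (mixP c k : Measure X) A =
      (k : ENNReal)⁻¹ * ∑ j ∈ Finset.range k, (c j : Measure X) A := by
  rw [mix_toMeasure hk, Measure.smul_apply, Measure.finsetSum_apply, smul_eq_mul]

theorem mix_congr (hk : 0 < k) (h : ∀ j < k, c j = c' j) : mixP c k = mixP c' k := by
  apply Subtype.ext
  change (mixP c k : Measure X) = (mixP c' k : Measure X)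
  rw [mix_toMeasure hk, mix_toMeasure hk]
  congr 1
  exact Finset.sum_congr rfl fun j hj => by rw [h j (Finset.mem_range.1 hj)]

theorem mix_real (hk : 0 < k) (A : Set X) :
    (mixP c k : Measure X).real A = (∑ j ∈ Finset.range k, (c j : Measure X).real A) / k := by
  simp only [Measure.real]
  rw [mix_apply hk, ENNReal.toReal_mul, ENNReal.toReal_inv, ENNReal.toReal_natCast,
    ENNReal.toReal_sum fun j _ => measure_ne_top _ _]
  rw [div_eq_inv_mul]

theorem mix_integral (hk : 0 < k) {f : X → ℝ} (hf : Measurable f) {C : ℝ} (hb : ∀ x, |f x| ≤ C) :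
    ∫ x, f x ∂(mixP c k : Measure X) =
      (∑ j ∈ Finset.range k, ∫ x, f x ∂(c j : Measure X)) / k := by
  rw [mix_toMeasure hk, integral_smul_measure, integral_finsetSum_measure, ENNReal.toReal_inv,
    ENNReal.toReal_natCast, smul_eq_mul, div_eq_inv_mul]
  intro j _
  exact Integrable.of_bound hf.aestronglyMeasurable C
    (Eventually.of_forall fun x => by rw [Real.norm_eq_abs]; exact hb x)

theorem mix_inv (hk : 0 < k)
    (h : ∀ j < k, MeasurePreserving T (c j : Measure X) (c j : Measure X)) :
    MeasurePreserving T (mixP c k : Measure X) (mixP c k : Measure X) := by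
  have hT : Measurable T := (h 0 hk).measurable
  refine ⟨hT, ?_⟩
  ext A hA
  rw [Measure.map_apply hT hA, mix_apply hk, mix_apply hk]
  congr 1
  exact Finset.sum_congr rfl fun j hj =>
    (h j (Finset.mem_range.1 hj)).measure_preimage hA.nullMeasurableSet

theorem mix_step [TopologicalSpace X] [OpensMeasurableSpace X] (hk : 0 < k)
    {O : Set (ProbabilityMeasure X)} (hO : IsOpen O) (h : mixP c k ∈ O) :
    ∃ U : Set (ProbabilityMeasure X), IsOpen U ∧ mixP c k ∈ U ∧
      ∀ c' : ℕ → ProbabilityMeasure X, (∀ j < k, c' j = c j) → c' k ∈ U →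
        c' k ∈ O ∧ mixP c' (k + 1) ∈ O := by
  classical
  set Φ : ProbabilityMeasure X → ProbabilityMeasure X := fun ν =>
    mixP (fun j => if j < k then c j else ν) (k + 1) with hΦ
  have hcont : Continuous Φ := by
    rw [continuous_iff_continuousAt]
    intro ν
    refine (ProbabilityMeasure.tendsto_iff_forall_integral_tendsto).2 fun f => ?_
    have h1 : ∀ ν' : ProbabilityMeasure X, ∫ x, f x ∂(Φ ν' : Measure X) =
        (∑ j ∈ Finset.range k, ∫ x, f x ∂(c j : Measure X) + ∫ x, f x ∂(ν' : Measure X)) /
          ((k + 1 : ℕ) : ℝ) := by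
      intro ν'
      rw [hΦ]
      dsimp only
      rw [mix_integral (Nat.succ_pos k) f.continuous.measurable (C := ‖f‖)
        fun x => by rw [← Real.norm_eq_abs]; exact f.norm_coe_le_norm x, Finset.sum_range_succ,
        if_neg (lt_irrefl k)]
      congr 2
      exact Finset.sum_congr rfl fun j hj => by rw [if_pos (Finset.mem_range.1 hj)]
    simp only [h1]
    refine Tendsto.div_const (Tendsto.const_add _ ?_) _
    exact (ProbabilityMeasure.tendsto_iff_forall_integral_tendsto).1 tendsto_id f
  have hfix : Φ (mixP c k) = mixP c k := by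
    apply Subtype.ext
    change (Φ (mixP c k) : Measure X) = (mixP c k : Measure X)
    ext A _
    rw [hΦ]
    dsimp only
    rw [mix_apply (Nat.succ_pos k), Finset.sum_range_succ, if_neg (lt_irrefl k)]
    have h2 : ∑ j ∈ Finset.range k, ((if j < k then c j else mixP c k : ProbabilityMeasure X) :
        Measure X) A = k * (mixP c k : Measure X) A := by
      rw [mix_apply hk, ← mul_assoc, ENNReal.mul_inv_cancel (by exact_mod_cast hk.ne')
        (ENNReal.natCast_ne_top k), one_mul]
      exact Finset.sum_congr rfl fun j hj => by rw [if_pos (Finset.mem_range.1 hj)]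
    rw [h2]
    have h3 : (k : ENNReal) * (mixP c k : Measure X) A + (mixP c k : Measure X) A =
        ((k + 1 : ℕ) : ENNReal) * (mixP c k : Measure X) A := by
      push_cast
      ring
    rw [h3, ← mul_assoc, ENNReal.inv_mul_cancel (by positivity)
      (ENNReal.natCast_ne_top (k + 1)), one_mul]
  refine ⟨O ∩ Φ ⁻¹' O, hO.inter (hO.preimage hcont), ⟨h, ?_⟩, fun c' hc' hU => ⟨hU.1, ?_⟩⟩
  · rw [Set.mem_preimage, hfix]
    exact h
  · have h4 : mixP c' (k + 1) = Φ (c' k) := by
      rw [hΦ]
      refine mix_congr (Nat.succ_pos k) fun j hj => ?_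
      split_ifs with hjk
      · exact hc' j hjk
      · rw [show j = k by omega]
    rw [h4]
    exact hU.2

end RK
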