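import Mathlib

/-!
# RK-B05: open and closed conditions on probability measures (about 80 lines)

`isOpen_real_gt`: `μ ↦ μ G` is lower semicontinuous for `G` open (`ProbabilityMeasure.le_liminf_measure_open_of_tendsto` or the FiniteMeasure version;
openness via: complement is closed under limits along filters, or `isOpen_iff_mem_nhds` with a filter argument; or by
Urysohn type approximation: if `a < μ G` there is a continuous `f`, `0 ≤ f ≤ 1_G`, with `a < ∫ f dμ`, and then `a < ∫ f dν ≤ ν G` for `ν` near `μ`).
`continuous_int`: `ProbabilityMeasure.tendsto_iff_forall_integral_tendsto` and `BoundedContinuousFunction.mkOfCompact`.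
`isClosed_inv`: `μ` is invariant iff `∫ f ∘ T dμ = ∫ f dμ` for all continuous `f` (`ext_of_forall_integral_eq_of_IsFiniteMeasure` for `μ.map T` and
`μ`); each condition is closed by `continuous_int`.
`exists_shrink`: the space is compact Hausdorff, so regular.
-/

namespace RK

open MeasureTheory Set Filter Topology

variable {X : Type*} [MetricSpace X] [CompactSpace X] [MeasurableSpace X] [BorelSpace X]

theorem isOpen_real_gt {G : Set X} (hG : IsOpen G) (a : ℝ) :
    IsOpen {μ : ProbabilityMeasure X | a < (μ : Measure X).real G} := by
  rw [isOpen_iff_mem_nhds]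
  intro μ hμ
  have hμ' : a < (μ : Measure X).real G := hμ
  rcases lt_or_ge a 0 with ha | ha
  · filter_upwards with ν
    exact lt_of_lt_of_le ha measureReal_nonneg
  · have h1 : ENNReal.ofReal a < (μ : Measure X) G := by
      rw [← ofReal_measureReal]
      exact (ENNReal.ofReal_lt_ofReal_iff_of_nonneg ha).2 hμ'
    have h2 := ProbabilityMeasure.le_liminf_measure_open_of_tendsto
      (μs := fun ν : ProbabilityMeasure X => ν) (L := 𝓝 μ) tendsto_id hG
    have h3 := eventually_lt_of_lt_liminf (lt_of_lt_of_le h1 h2)
    filter_upwards [h3] with ν hν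
    have h4 : ENNReal.ofReal a < ENNReal.ofReal ((ν : Measure X).real G) := by
      rw [ofReal_measureReal]
      exact hν
    exact (ENNReal.ofReal_lt_ofReal_iff_of_nonneg ha).1 h4

theorem continuous_int {f : X → ℝ} (hf : Continuous f) :
    Continuous (fun μ : ProbabilityMeasure X => ∫ x, f x ∂(μ : Measure X)) := by
  rw [continuous_iff_continuousAt]
  intro μ
  have h := (ProbabilityMeasure.tendsto_iff_forall_integral_tendsto
    (μs := fun ν : ProbabilityMeasure X => ν) (F := 𝓝 μ)).1 tendsto_id
    (BoundedContinuousFunction.mkOfCompact ⟨f, hf⟩)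
  exact h

theorem isClosed_inv {T : X → X} (hT : Continuous T) :
    IsClosed {μ : ProbabilityMeasure X | MeasurePreserving T (μ : Measure X) (μ : Measure X)} := by
  have h : {μ : ProbabilityMeasure X | MeasurePreserving T (μ : Measure X) (μ : Measure X)} =
      ⋂ f : C(X, ℝ), {μ : ProbabilityMeasure X |
        ∫ x, f (T x) ∂(μ : Measure X) = ∫ x, f x ∂(μ : Measure X)} := by
    ext μ
    simp only [mem_iInter]
    constructor
    · intro hμ f
      have hμ' : MeasurePreserving T (μ : Measure X) (μ : Measure X) := hμ
      show ∫ x, f (T x) ∂(μ : Measure X) = ∫ x, f x ∂(μ : Measure X)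
      conv_rhs => rw [← hμ'.map_eq]
      rw [integral_map hμ'.measurable.aemeasurable]
      exact f.continuous.aestronglyMeasurable
    · intro hμ
      refine ⟨hT.measurable, ?_⟩
      have hfin : IsProbabilityMeasure (Measure.map T (μ : Measure X)) :=
        Measure.isProbabilityMeasure_map hT.measurable.aemeasurable
      apply ext_of_forall_integral_eq_of_IsFiniteMeasure
      intro f
      rw [integral_map hT.measurable.aemeasurable f.continuous.aestronglyMeasurable]
      exact hμ f.toContinuousMap
  rw [h]
  refine isClosed_iInter fun f => ?_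
  exact isClosed_eq (continuous_int (f.continuous.comp hT)) (continuous_int f.continuous)

theorem exists_shrink {O : Set (ProbabilityMeasure X)} (hO : IsOpen O) {μ : ProbabilityMeasure X}
    (h : μ ∈ O) : ∃ O' : Set (ProbabilityMeasure X), IsOpen O' ∧ μ ∈ O' ∧ closure O' ⊆ O := by
  obtain ⟨t, ht, htc, hts⟩ := exists_mem_nhds_isClosed_subset (hO.mem_nhds h)
  refine ⟨interior t, isOpen_interior, mem_interior_iff_mem_nhds.2 ht, ?_⟩
  exact (closure_minimal interior_subset htc).trans hts

end RK
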