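import Pool.Agent.Helper90.RK.BDefs

/-!
# RK-B06: averages of averages (about 50 lines)

`av_av`: exchange the sums: the left side is `(1/N) ∑_{i<N} (1/N') ∑_{t<N'} a (t+i)`, and
`∑_{t<N'} a (t+i) ≤ ∑_{s<N'} a s + i` (the sum over `[i, N' + i)` is at most the sum over `[0, N')` plus the `i` new terms, each `≤ 1`, as `a ≥ 0`).
`od_od`: `a s = |φ (T^s x) - φ (T^s y)| ≤ 1`, `T^[i] (T^[t] x) = T^[t+i] x`.
-/

namespace RK

open Set

theorem sum_shift_le {a : ℕ → ℝ} (h0 : ∀ n, 0 ≤ a n) (h1 : ∀ n, a n ≤ 1) (N' i : ℕ) :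
    ∑ t ∈ Finset.range N', a (t + i) ≤ (∑ s ∈ Finset.range N', a s) + i := by
  induction i with
  | zero => simp
  | succ i ih =>
    have h2 := Finset.sum_range_succ (fun t => a (t + i)) N'
    have h3 := Finset.sum_range_succ' (fun t => a (t + i)) N'
    have h4 : ∑ t ∈ Finset.range N', a (t + (i + 1)) = ∑ t ∈ Finset.range N', a (t + 1 + i) := by
      refine Finset.sum_congr rfl fun t _ => ?_
      congr 1; omega
    rw [h4]
    have h5 := h0 (0 + i)
    have h6 := h1 (N' + i)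
    push_cast
    linarith

theorem av_av {a : ℕ → ℝ} (h0 : ∀ n, 0 ≤ a n) (h1 : ∀ n, a n ≤ 1) {N N' : ℕ} (hN : 0 < N)
    (hN' : 0 < N') :
    (∑ t ∈ Finset.range N', (∑ i ∈ Finset.range N, a (t + i)) / N) / N' ≤
      (∑ s ∈ Finset.range N', a s) / N' + N / N' := by
  have hNr : (0 : ℝ) < N := by exact_mod_cast hN
  have hNr' : (0 : ℝ) < N' := by exact_mod_cast hN'
  rw [← add_div]
  refine div_le_div_of_nonneg_right ?_ hNr'.le
  rw [← Finset.sum_div, Finset.sum_comm, div_le_iff₀ hNr]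
  have h2 : ∀ i ∈ Finset.range N, ∑ t ∈ Finset.range N', a (t + i) ≤
      (∑ s ∈ Finset.range N', a s) + N := by
    intro i hi
    have h3 := sum_shift_le h0 h1 N' i
    have h4 : (i : ℝ) ≤ N := by
      exact_mod_cast (Finset.mem_range.1 hi).le
    linarith
  refine (Finset.sum_le_sum h2).trans (le_of_eq ?_)
  rw [Finset.sum_const, Finset.card_range, nsmul_eq_mul]
  ring

theorem od_od {X : Type*} {T : X → X} {φ : X → ℝ} (hφ : ∀ x, φ x ∈ Icc (0 : ℝ) 1) {N N' : ℕ}
    (hN : 0 < N) (hN' : 0 < N') (x y : X) :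
    (∑ t ∈ Finset.range N', od T φ N (T^[t] x) (T^[t] y)) / N' ≤ od T φ N' x y + N / N' := by
  have key := av_av (a := fun s => |φ (T^[s] x) - φ (T^[s] y)|) (fun n => abs_nonneg _)
    (fun n => by
      have h1 := hφ (T^[n] x)
      have h2 := hφ (T^[n] y)
      rw [abs_le]
      constructor <;> linarith [h1.1, h1.2, h2.1, h2.2]) hN hN'
  refine le_trans (le_of_eq ?_) (key.trans (le_of_eq ?_))
  · congr 1
    refine Finset.sum_congr rfl fun t _ => ?_
    unfold od
    congr 1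
    refine Finset.sum_congr rfl fun i _ => ?_
    rw [← Function.iterate_add_apply, ← Function.iterate_add_apply, add_comm i t]
  · rfl

end RK
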