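import Pool.Agent.Helper90.RK.B06

/-!
# RK-B07: separation at the next scale (about 200 lines)

`ee_sum`: for `2 ≤ k`, `i < k`: `∑_{l<k, l≠i} ee d i l = k * ee d i k` (cases `i ≤ 1`: `d + (k-2) d/2 = k d/2`; `i ≥ 2`:
`2 (d/2) + (k-3) d/3 = k d/3`; note `ee d i i = 0` so the sum may be taken over all `l < k`).
Let `x ∈ newG i`, `y ∈ newG j`, `i ≠ j`, `θ = theta k`, `η = eta k`.  By symmetry (`od` and `ee` are symmetric) `i < j`.
The sets `G l`, `l < k`, are pairwise disjoint: if `z ∈ G l ∩ G l'` then `0 = od T φ N z z ≥ θ ee d l l' > 0`.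
For `l ≠ i`: the number of `t < N'` with `T^t x ∈ G i` and `T^t y ∈ G l` is `≥ vis (G i) x + vis (G l) y - N'`; for such `t`,
`od T φ N (T^t x) (T^t y) ≥ θ ee d i l`.  For fixed `t` there is at most one `l` with `T^t y ∈ G l`.
* `j < k`: `(1/N') ∑_t od T φ N (T^t x) (T^t y) ≥ (1 - 2η) θ ee d i j`.
* `j = k`: it is `≥ ∑_{l ≠ i} ((1-η)/k - η) θ ee d i l = (1 - η - k η) θ ee d i k` by `ee_sum`.
In both cases it is `≥ (1 - (k+1) η) θ ee d i j` with `(k+1) η = 2^(-k-4)`.  By `od_od`,
`od T φ N' x y ≥ θ (1 - 2^(-k-4)) ee - N/N' ≥ (θ - 2^(-k-4)) ee - (d/3) 2^(-k-2) ≥ theta (k+1) * ee`, as `θ ≤ 1`, `theta k - theta (k+1) = 2^(-k-1)`,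
`ee ≥ d/3` and `2^(-k-1) - 2^(-k-4) ≥ 2^(-k-2)`.
-/

namespace RK

open Set

/-- the separating sets at the next scale -/
def newG {X : Type*} (T : X → X) (G : ℕ → Set X) (k N' j : ℕ) : Set X :=
  if j < k then {x | (1 - eta k) * N' < vis T (G j) N' x}
  else {x | ∀ i < k, (1 - eta k) / k * N' < vis T (G i) N' x}

theorem ee_sum {d : ℝ} {k i : ℕ} (hk : 2 ≤ k) (hi : i < k) :
    ∑ l ∈ Finset.range k, ee d i l = k * ee d i k := by
  obtain ⟨m, rfl⟩ : ∃ m, k = m + 2 := ⟨k - 2, by omega⟩
  have hle : ∀ c : ℝ, ∑ l ∈ Finset.range (m + 2), (if l ≤ 1 then c else 0) = 2 * c := by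
    intro c
    rw [Finset.sum_range_succ', Finset.sum_range_succ', Finset.sum_eq_zero]
    · simp; ring
    · intro l _
      rw [if_neg (by omega)]
  have heq : ∀ c : ℝ, ∑ l ∈ Finset.range (m + 2), (if l = i then c else 0) = c := by
    intro c
    rw [Finset.sum_ite_eq' (Finset.range (m + 2)) i (fun _ => c)]
    rw [if_pos (Finset.mem_range.2 hi)]
  by_cases h1 : i ≤ 1
  · have h2 : ∀ l ∈ Finset.range (m + 2), ee d i l =
        d / 2 + (if l ≤ 1 then d / 2 else 0) - (if l = i then d else 0) := by
      intro l _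
      unfold ee
      by_cases hl : l = i
      · subst hl
        simp [h1]
      · rw [if_neg (Ne.symm hl), if_neg hl]
        by_cases hl1 : l ≤ 1
        · rw [if_pos (by omega), if_pos hl1]; ring
        · rw [if_neg (by omega), if_pos (by omega), if_neg hl1]; ring
    rw [Finset.sum_congr rfl h2, Finset.sum_sub_distrib, Finset.sum_add_distrib, hle, heq]
    have h3 : ee d i (m + 2) = d / 2 := by
      unfold ee
      rw [if_neg (by omega), if_neg (by omega), if_pos (by omega)]
    rw [h3]
    simp
    ring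
  · have h2 : ∀ l ∈ Finset.range (m + 2), ee d i l =
        d / 3 + (if l ≤ 1 then d / 6 else 0) - (if l = i then d / 3 else 0) := by
      intro l _
      unfold ee
      by_cases hl : l = i
      · subst hl
        simp [h1]
      · rw [if_neg (Ne.symm hl), if_neg hl]
        by_cases hl1 : l ≤ 1
        · rw [if_neg (by omega), if_pos (by omega), if_pos hl1]; ring
        · rw [if_neg (by omega), if_neg (by omega), if_neg hl1]; ring
    rw [Finset.sum_congr rfl h2, Finset.sum_sub_distrib, Finset.sum_add_distrib, hle, heq]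
    have h3 : ee d i (m + 2) = d / 3 := by
      unfold ee
      rw [if_neg (by omega), if_neg (by omega), if_neg (by omega)]
    rw [h3]
    simp
    ring

theorem ee_comm (d : ℝ) (i j : ℕ) : ee d i j = ee d j i := by
  unfold ee
  rw [max_comm, min_comm]
  by_cases h : i = j
  · rw [if_pos h, if_pos h.symm]
  · rw [if_neg h, if_neg (Ne.symm h)]

theorem ee_ge {d : ℝ} (hd : 0 < d) {i j : ℕ} (h : i ≠ j) : d / 3 ≤ ee d i j := by
  unfold ee
  rw [if_neg h]
  split_ifs <;> linarith

theorem b07_ee_nonneg {d : ℝ} (hd : 0 < d) (i j : ℕ) : 0 ≤ ee d i j := by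
  by_cases h : i = j
  · subst h
    unfold ee
    simp
  · linarith [ee_ge hd h]

theorem b07_od_nonneg {X : Type*} (T : X → X) (φ : X → ℝ) (N : ℕ) (x y : X) : 0 ≤ od T φ N x y :=
  div_nonneg (Finset.sum_nonneg fun _ _ => abs_nonneg _) (Nat.cast_nonneg _)

theorem b07_od_comm {X : Type*} (T : X → X) (φ : X → ℝ) (N : ℕ) (x y : X) :
    od T φ N x y = od T φ N y x := by
  unfold od
  simp only [abs_sub_comm]

theorem b07_od_self {X : Type*} (T : X → X) (φ : X → ℝ) (N : ℕ) (x : X) : od T φ N x x = 0 := by
  unfold od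
  simp

theorem b07_theta_pos (k : ℕ) : 0 < theta k := by
  unfold theta
  positivity

theorem b07_theta_le (k : ℕ) (hk : 1 ≤ k) : theta k ≤ 1 := by
  unfold theta
  have : (1 / 2 : ℝ) ^ k ≤ (1 / 2) ^ 1 := pow_le_pow_of_le_one (by norm_num) (by norm_num) hk
  linarith

theorem b07_eta_mul (k : ℕ) : ((k : ℝ) + 1) * eta k = (1 / 2) ^ (k + 4) := by
  unfold eta
  have h : ((k : ℝ) + 1) ≠ 0 := by positivity
  field_simp
  rw [← mul_pow]
  norm_num

theorem b07_eta_nonneg (k : ℕ) : 0 ≤ eta k := by
  unfold eta
  positivity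

theorem b07_sep_aux {X : Type*} {T : X → X} {φ : X → ℝ} (hφ : ∀ x, φ x ∈ Icc (0 : ℝ) 1) {d : ℝ}
    (hd : 0 < d) {k N : ℕ} (hk : 2 ≤ k) (hN : 0 < N) {G : ℕ → Set X}
    (sep : ∀ i < k, ∀ j < k, i ≠ j → ∀ x ∈ G i, ∀ y ∈ G j, theta k * ee d i j ≤ od T φ N x y)
    {N' : ℕ} (hN' : 0 < N') (h : (N : ℝ) / N' ≤ d / 3 * (1 / 2) ^ (k + 2)) {i j : ℕ}
    (hij : i < j) (hj : j < k + 1) {x y : X} (hx : x ∈ newG T G k N' i)
    (hy : y ∈ newG T G k N' j) : theta (k + 1) * ee d i j ≤ od T φ N' x y := by
  classical
  have hik : i < k := by omega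
  have hNr : (0 : ℝ) < N' := by exact_mod_cast hN'
  have hee := ee_ge hd (Nat.ne_of_lt hij)
  have hθ := b07_theta_pos k
  have hθ1 := b07_theta_le k (by omega)
  have hη := b07_eta_nonneg k
  have hηm := b07_eta_mul k
  have hx' : (1 - eta k) * N' < vis T (G i) N' x := by
    have := hx
    unfold newG at this
    rwa [if_pos hik] at this
  have hdisj : ∀ l < k, ∀ l' < k, ∀ z, z ∈ G l → z ∈ G l' → l = l' := by
    intro l hl l' hl' z hz hz'
    by_contra hne
    have h1 := sep l hl l' hl' hne z hz z hz'
    rw [b07_od_self] at h1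
    have h2 := ee_ge hd hne
    have h3 : 0 < theta k * ee d l l' := mul_pos hθ (by linarith)
    linarith
  -- key estimate
  have key : theta k * (1 - (k + 1) * eta k) * ee d i j * N' ≤
      ∑ t ∈ Finset.range N', od T φ N (T^[t] x) (T^[t] y) := by
    by_cases hjk : j < k
    · have hy' : (1 - eta k) * N' < vis T (G j) N' y := by
        have := hy
        unfold newG at this
        rwa [if_pos hjk] at this
      have hpt : ∀ t ∈ Finset.range N', theta k * ee d i j *
          ((G i).indicator (fun _ => (1 : ℝ)) (T^[t] x) +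
            (G j).indicator (fun _ => (1 : ℝ)) (T^[t] y) - 1) ≤
              od T φ N (T^[t] x) (T^[t] y) := by
        intro t _
        have h0 := b07_od_nonneg T φ N (T^[t] x) (T^[t] y)
        have hte : 0 ≤ theta k * ee d i j := mul_nonneg hθ.le (by linarith)
        by_cases hxi : T^[t] x ∈ G i
        · by_cases hyj : T^[t] y ∈ G j
          · rw [indicator_of_mem hxi, indicator_of_mem hyj]
            have := sep i hik j hjk (Nat.ne_of_lt hij) _ hxi _ hyj
            linarith
          · rw [indicator_of_mem hxi, indicator_of_notMem hyj]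
            linarith
        · rw [indicator_of_notMem hxi]
          have h1 : (G j).indicator (fun _ => (1 : ℝ)) (T^[t] y) ≤ 1 := by
            by_cases hyj : T^[t] y ∈ G j
            · rw [indicator_of_mem hyj]
            · rw [indicator_of_notMem hyj]; norm_num
          nlinarith
      have hsum := Finset.sum_le_sum hpt
      rw [← Finset.mul_sum, Finset.sum_sub_distrib, Finset.sum_add_distrib] at hsum
      have hv : (∑ t ∈ Finset.range N', (G i).indicator (fun _ => (1 : ℝ)) (T^[t] x)) +
          (∑ t ∈ Finset.range N', (G j).indicator (fun _ => (1 : ℝ)) (T^[t] y)) -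
            ∑ t ∈ Finset.range N', (1 : ℝ) ≥ (1 - (k + 1) * eta k) * N' := by
        have h1 : (∑ t ∈ Finset.range N', (G i).indicator (fun _ => (1 : ℝ)) (T^[t] x)) =
          vis T (G i) N' x := rfl
        have h2 : (∑ t ∈ Finset.range N', (G j).indicator (fun _ => (1 : ℝ)) (T^[t] y)) =
          vis T (G j) N' y := rfl
        rw [h1, h2]
        simp only [Finset.sum_const, Finset.card_range, nsmul_eq_mul, mul_one]
        have hk' : (2 : ℝ) ≤ k := by exact_mod_cast hk
        have : (0 : ℝ) ≤ (k - 1) * eta k * N' := by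
          have : (0 : ℝ) ≤ (k : ℝ) - 1 := by linarith
          positivity
        nlinarith
      have hte : 0 ≤ theta k * ee d i j := mul_nonneg hθ.le (by linarith)
      calc theta k * (1 - (k + 1) * eta k) * ee d i j * N' =
            theta k * ee d i j * ((1 - (k + 1) * eta k) * N') := by ring
        _ ≤ _ := mul_le_mul_of_nonneg_left hv hte
        _ ≤ _ := hsum
    · have hjk' : j = k := by omega
      subst hjk'
      have hy' : ∀ l < j, (1 - eta j) / j * N' < vis T (G l) N' y := by
        have := hy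
        unfold newG at this
        rwa [if_neg hjk] at this
      have hkr : (0 : ℝ) < j := by
        have : 0 < j := by omega
        exact_mod_cast this
      have hpt : ∀ t ∈ Finset.range N', ∑ l ∈ Finset.range j, theta j * ee d i l *
          ((G l).indicator (fun _ => (1 : ℝ)) (T^[t] y) +
            (G i).indicator (fun _ => (1 : ℝ)) (T^[t] x) - 1) ≤
              od T φ N (T^[t] x) (T^[t] y) := by
        intro t _
        have h0 := b07_od_nonneg T φ N (T^[t] x) (T^[t] y)
        by_cases hxi : T^[t] x ∈ G i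
        · rw [indicator_of_mem hxi]
          by_cases hex : ∃ l < j, T^[t] y ∈ G l
          · obtain ⟨l, hl, hyl⟩ := hex
            rw [Finset.sum_eq_single l]
            · rw [indicator_of_mem hyl]
              by_cases hil : i = l
              · subst hil
                have : ee d i i = 0 := by unfold ee; simp
                rw [this]
                simpa using h0
              · have := sep i hik l hl hil _ hxi _ hyl
                linarith
            · intro b hb hbl
              have : T^[t] y ∉ G b := fun hyb =>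
                hbl (hdisj b (Finset.mem_range.1 hb) l hl _ hyb hyl)
              rw [indicator_of_notMem this]
              ring
            · intro hn
              exact absurd (Finset.mem_range.2 hl) hn
          · rw [Finset.sum_eq_zero]
            · exact h0
            · intro l hl
              have : T^[t] y ∉ G l := fun hyl => hex ⟨l, Finset.mem_range.1 hl, hyl⟩
              rw [indicator_of_notMem this]
              ring
        · rw [indicator_of_notMem hxi]
          refine le_trans (Finset.sum_nonpos ?_) h0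
          intro l _
          have hte : 0 ≤ theta j * ee d i l := mul_nonneg hθ.le (b07_ee_nonneg hd i l)
          have h1 : (G l).indicator (fun _ => (1 : ℝ)) (T^[t] y) ≤ 1 := by
            by_cases hyj : T^[t] y ∈ G l
            · rw [indicator_of_mem hyj]
            · rw [indicator_of_notMem hyj]; norm_num
          nlinarith
      have hsum := Finset.sum_le_sum hpt
      rw [Finset.sum_comm] at hsum
      refine le_trans ?_ hsum
      have hl1 : ∀ l ∈ Finset.range j, theta j * ee d i l * (((1 - eta j) / j - eta j) * N') ≤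
          ∑ t ∈ Finset.range N', theta j * ee d i l *
          ((G l).indicator (fun _ => (1 : ℝ)) (T^[t] y) +
            (G i).indicator (fun _ => (1 : ℝ)) (T^[t] x) - 1) := by
        intro l hl
        have hte : 0 ≤ theta j * ee d i l := mul_nonneg hθ.le (b07_ee_nonneg hd i l)
        rw [← Finset.mul_sum, Finset.sum_sub_distrib, Finset.sum_add_distrib]
        refine mul_le_mul_of_nonneg_left ?_ hte
        have h1 : (∑ t ∈ Finset.range N', (G i).indicator (fun _ => (1 : ℝ)) (T^[t] x)) =
          vis T (G i) N' x := rfl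
        have h2 : (∑ t ∈ Finset.range N', (G l).indicator (fun _ => (1 : ℝ)) (T^[t] y)) =
          vis T (G l) N' y := rfl
        rw [h1, h2]
        simp only [Finset.sum_const, Finset.card_range, nsmul_eq_mul, mul_one]
        have h3 := hy' l (Finset.mem_range.1 hl)
        nlinarith
      refine le_trans (le_of_eq ?_) (Finset.sum_le_sum hl1)
      have h4 : ∀ l ∈ Finset.range j, theta j * ee d i l * (((1 - eta j) / j - eta j) * N') =
          theta j * (((1 - eta j) / j - eta j) * N') * ee d i l := by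
        intro l _
        ring
      rw [Finset.sum_congr rfl h4, ← Finset.mul_sum, ee_sum hk hij]
      field_simp
      ring
  have hod := od_od (T := T) hφ hN hN' x y
  have key' : theta k * (1 - (k + 1) * eta k) * ee d i j ≤
      (∑ t ∈ Finset.range N', od T φ N (T^[t] x) (T^[t] y)) / N' := by
    rw [le_div_iff₀ hNr]
    exact key
  rw [hηm] at key'
  have e1 : theta (k + 1) = theta k - (1 / 2) ^ (k + 1) := by
    unfold theta
    rw [pow_succ]
    ring
  have e2 : (1 / 2 : ℝ) ^ (k + 4) = (1 / 2) ^ k * (1 / 16) := by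
    rw [pow_add]; norm_num
  have e3 : (1 / 2 : ℝ) ^ (k + 2) = (1 / 2) ^ k * (1 / 4) := by
    rw [pow_add]; norm_num
  have e4 : (1 / 2 : ℝ) ^ (k + 1) = (1 / 2) ^ k * (1 / 2) := by
    rw [pow_add]; norm_num
  rw [e2] at key'
  rw [e3] at h
  rw [e1, e4]
  have hp : (0 : ℝ) < (1 / 2) ^ k := by positivity
  set p : ℝ := (1 / 2) ^ k
  set e := ee d i j
  have hepos : 0 < e := by linarith
  have h5 : theta k * (p * e) ≤ 1 * (p * e) :=
    mul_le_mul_of_nonneg_right hθ1 (by positivity)
  have h6 : d / 3 * p ≤ e * p := mul_le_mul_of_nonneg_right hee hp.le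
  have h7 : 0 < p * e := by positivity
  nlinarith

theorem sep_step {X : Type*} {T : X → X} {φ : X → ℝ} (hφ : ∀ x, φ x ∈ Icc (0 : ℝ) 1) {d : ℝ}
    (hd : 0 < d) {k N : ℕ} (hk : 2 ≤ k) (hN : 0 < N) {G : ℕ → Set X}
    (sep : ∀ i < k, ∀ j < k, i ≠ j → ∀ x ∈ G i, ∀ y ∈ G j, theta k * ee d i j ≤ od T φ N x y)
    {N' : ℕ} (hN' : 0 < N') (h : (N : ℝ) / N' ≤ d / 3 * (1 / 2) ^ (k + 2)) :
    ∀ i < k + 1, ∀ j < k + 1, i ≠ j → ∀ x ∈ newG T G k N' i, ∀ y ∈ newG T G k N' j,
      theta (k + 1) * ee d i j ≤ od T φ N' x y := by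
  intro i hi j hj hij x hx y hy
  rcases lt_or_gt_of_ne hij with h1 | h1
  · exact b07_sep_aux hφ hd hk hN sep hN' h h1 hj hx hy
  · rw [ee_comm, b07_od_comm]
    exact b07_sep_aux hφ hd hk hN sep hN' h h1 hi hy hx

end RK
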