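import Pool.Agent.Helper90.RK.B02
import Pool.Agent.Helper90.RK.B07

/-!
# RK-B08: from stage `k` to stage `k + 1` (about 120 lines)

`newG_open`: `x ↦ vis T (G j) N' x` is a sum of indicator functions of the open sets `{x | T^t x ∈ G j}`, so it is lower semicontinuous
(`IsOpen.lowerSemicontinuous_indicator`, `lowerSemicontinuous_sum`), so `{a < vis}` is open; a finite intersection for `j = k`.
`stage_step`: `npos`: `N' > 0` eventually.  `sep`: `sep_step` for `N' ≥ N / (d/3 * (1/2)^(k+2))`.  `mass`, `j < k`: `freq_ge` for `c j`, `G j`,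
`a = 1 - eta k < (c j).real (G j)` (`Stage.mass`), `η = eta (k+1) > 0`.  `mass`, `j = k`: `freq_ge` for `c k` and each `G i`, `i < k`, with
`a = (1 - eta k)/k`, `η = eta (k+1) / k`; the intersection of the `k` sets has measure `> 1 - eta (k+1)`.
-/

namespace RK

open MeasureTheory Set Filter Topology

variable {X : Type*} [MetricSpace X] [CompactSpace X] [MeasurableSpace X] [BorelSpace X]
  {T : X → X} {φ : X → ℝ} {d : ℝ} {c : ℕ → ProbabilityMeasure X} {k N : ℕ} {G : ℕ → Set X}

theorem newG_open (hT : Continuous T) (hG : ∀ j < k, IsOpen (G j)) (N' : ℕ) :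
    ∀ j < k + 1, IsOpen (newG T G k N' j) := by
  have key : ∀ (j : ℕ), j < k → ∀ a : ℝ, IsOpen {x | a < vis T (G j) N' x} := by
    intro j hj a
    have h1 : LowerSemicontinuous (fun x => vis T (G j) N' x) := by
      unfold vis
      refine lowerSemicontinuous_sum fun t _ => ?_
      exact LowerSemicontinuous.comp ((hG j hj).lowerSemicontinuous_indicator zero_le_one) (hT.iterate t)
    exact lowerSemicontinuous_iff_isOpen_preimage.1 h1 a
  intro j hj
  by_cases hjk : j < k
  · have h : newG T G k N' j = {x | (1 - eta k) * N' < vis T (G j) N' x} := by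
      unfold newG
      rw [if_pos hjk]
    rw [h]
    exact key j hjk _
  · have h : newG T G k N' j = ⋂ i ∈ Finset.range k, {x | (1 - eta k) / k * N' < vis T (G i) N' x} := by
      unfold newG
      rw [if_neg hjk]
      ext x
      simp only [mem_setOf_eq, mem_iInter, Finset.mem_range]
    rw [h]
    exact isOpen_biInter_finset fun i hi => key i (Finset.mem_range.1 hi) _

private lemma eta_pos' (k : ℕ) : 0 < eta k := by
  unfold eta
  positivity

theorem stage_step (hT : Continuous T) (hφ : ∀ x, φ x ∈ Icc (0 : ℝ) 1) (hd : 0 < d) (hk : 2 ≤ k)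
    (hs : Stage T φ d c k N G) (herg : ∀ j < k + 1, Ergodic T (c j : Measure X))
    (hc : ∀ j < k, (1 - eta k) / k < (c k : Measure X).real (G j)) :
    ∀ᶠ N' : ℕ in atTop, Stage T φ d c (k + 1) N' (newG T G k N') := by
  have hk0 : (0 : ℝ) < k := by exact_mod_cast (by omega : 0 < k)
  have hη := eta_pos' (k + 1)
  have h1 : ∀ᶠ N' : ℕ in atTop, ∀ j ∈ Finset.range k, 1 - eta (k + 1) <
      (c j : Measure X).real {x | (1 - eta k) * N' < vis T (G j) N' x} := by
    rw [Filter.eventually_all_finset]
    intro j hj
    rw [Finset.mem_range] at hj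
    exact freq_ge (herg j (by omega)) (hs.opn j hj).measurableSet (hs.mass j hj) hη
  have h2 : ∀ᶠ N' : ℕ in atTop, ∀ j ∈ Finset.range k, 1 - eta (k + 1) / k <
      (c k : Measure X).real {x | (1 - eta k) / k * N' < vis T (G j) N' x} := by
    rw [Filter.eventually_all_finset]
    intro j hj
    rw [Finset.mem_range] at hj
    exact freq_ge (herg k (by omega)) (hs.opn j hj).measurableSet (hc j hj) (div_pos hη hk0)
  have h3 : ∀ᶠ N' : ℕ in atTop, (N : ℝ) / N' ≤ d / 3 * (1 / 2) ^ (k + 2) := by
    have h4 : Tendsto (fun N' : ℕ => (N : ℝ) / N') atTop (𝓝 0) :=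
      tendsto_const_div_atTop_nhds_zero_nat _
    have h5 : (0 : ℝ) < d / 3 * (1 / 2) ^ (k + 2) := by positivity
    exact (h4.eventually (gt_mem_nhds h5)).mono fun N' h => le_of_lt h
  filter_upwards [h1, h2, h3, eventually_gt_atTop 0] with N' h1 h2 h3 hN'
  have hopen := newG_open (N' := N') hT hs.opn
  refine ⟨hN', hopen, fun j hj => ?_, sep_step hφ hd hk hs.npos hs.sep hN' h3⟩
  by_cases hjk : j < k
  · have h := h1 j (Finset.mem_range.2 hjk)
    unfold newG
    rw [if_pos hjk]
    exact h
  · have hj' : j = k := by omega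
    subst hj'
    have hset : (newG T G j N' j)ᶜ = ⋃ i ∈ Finset.range j,
        {x | (1 - eta j) / j * N' < vis T (G i) N' x}ᶜ := by
      unfold newG
      rw [if_neg hjk]
      ext x
      simp only [mem_compl_iff, mem_setOf_eq, mem_iUnion, Finset.mem_range, not_forall,
        exists_prop]
    have hm : MeasurableSet (newG T G j N' j) := (hopen j hj).measurableSet
    have hmi : ∀ i < j, MeasurableSet {x | (1 - eta j) / j * N' < vis T (G i) N' x} := by
      intro i hi
      have h1 : LowerSemicontinuous (fun x => vis T (G i) N' x) := by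
        unfold vis
        refine lowerSemicontinuous_sum fun t _ => ?_
        exact LowerSemicontinuous.comp ((hs.opn i hi).lowerSemicontinuous_indicator zero_le_one)
          (hT.iterate t)
      exact (lowerSemicontinuous_iff_isOpen_preimage.1 h1 _).measurableSet
    have h5 : (c j : Measure X).real (newG T G j N' j)ᶜ ≤ ∑ i ∈ Finset.range j,
        (c j : Measure X).real {x | (1 - eta j) / j * N' < vis T (G i) N' x}ᶜ := by
      rw [hset]
      exact measureReal_biUnion_finset_le _ _
    have h6 : ∑ i ∈ Finset.range j,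
        (c j : Measure X).real {x | (1 - eta j) / j * N' < vis T (G i) N' x}ᶜ <
          ∑ i ∈ Finset.range j, eta (j + 1) / j := by
      refine Finset.sum_lt_sum_of_nonempty ⟨0, Finset.mem_range.2 (by omega)⟩ fun i hi => ?_
      have h7 := h2 i hi
      rw [probReal_compl_eq_one_sub (hmi i (Finset.mem_range.1 hi))]
      linarith
    rw [Finset.sum_const, Finset.card_range, nsmul_eq_mul, mul_div_cancel₀ _ hk0.ne'] at h6
    rw [probReal_compl_eq_one_sub hm] at h5
    linarith

end RK
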