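import Pool.Agent.Helper90.RK.B02

/-!
# RK-B09: the first stage (about 120 lines)

As `c₀ ≠ c₁` there is a bounded continuous `f` with `∫ f dc₀ ≠ ∫ f dc₁` (`ext_of_forall_integral_eq_of_IsFiniteMeasure`); by an affine change (and `1 - f` if
necessary) `φ : X → [0,1]` continuous with `α = ∫ φ dc₀ < β = ∫ φ dc₁`; `d = β - α`.  Let `G 0 = {x | av T N φ x < α + d/8}`,
`G 1 = {x | β - d/8 < av T N φ x}` (open, `av T N φ` is continuous).  `mass`: `av_near` with `δ = d/8`, `η = eta 2`, for `c₀` and `c₁`.  `sep`: for `x ∈ G 0`, `y ∈ G 1`: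
`od T φ N x y ≥ av T N φ y - av T N φ x ≥ d - d/4 = (3/4) d = theta 2 * ee d 0 1`; and symmetrically.
-/

namespace RK

open MeasureTheory Set Filter Topology

variable {X : Type*} [MetricSpace X] [CompactSpace X] [MeasurableSpace X] [BorelSpace X]
  {T : X → X}

omit [CompactSpace X] [MeasurableSpace X] [BorelSpace X] in
private lemma av_continuous (hT : Continuous T) {φ : X → ℝ} (hφ : Continuous φ) (N : ℕ) :
    Continuous (av T N φ) := by
  unfold av
  refine Continuous.div_const ?_ _
  exact continuous_finsetSum _ fun i _ => hφ.comp (hT.iterate i)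

omit [MetricSpace X] [CompactSpace X] [MeasurableSpace X] [BorelSpace X] in
private lemma av_sub_le_od (φ : X → ℝ) (N : ℕ) (x y : X) :
    |av T N φ x - av T N φ y| ≤ od T φ N x y := by
  unfold av od
  rw [← sub_div, abs_div, Nat.abs_cast, ← Finset.sum_sub_distrib]
  exact div_le_div_of_nonneg_right (Finset.abs_sum_le_sum_abs _ _) (Nat.cast_nonneg N)

omit [CompactSpace X] in
private lemma exists_phi {c₀ c₁ : ProbabilityMeasure X} (hne : c₀ ≠ c₁) :
    ∃ φ : X → ℝ, Continuous φ ∧ (∀ x, φ x ∈ Icc (0 : ℝ) 1) ∧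
      ∫ x, φ x ∂(c₀ : Measure X) < ∫ x, φ x ∂(c₁ : Measure X) := by
  have h1 : ∃ g : BoundedContinuousFunction X ℝ,
      ∫ x, g x ∂(c₀ : Measure X) < ∫ x, g x ∂(c₁ : Measure X) := by
    by_contra hcon
    push Not at hcon
    apply hne
    refine Subtype.ext (?_ : (c₀ : Measure X) = (c₁ : Measure X))
    apply ext_of_forall_integral_eq_of_IsFiniteMeasure
    intro g
    refine le_antisymm ?_ (hcon g)
    have e := hcon (-g)
    simp only [BoundedContinuousFunction.coe_neg, Pi.neg_apply, integral_neg] at e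
    linarith
  obtain ⟨g, hg⟩ := h1
  set C : ℝ := ‖g‖ + 1 with hC
  have hC0 : 0 < C := by positivity
  have hgC : ∀ x, |g x| ≤ C := fun x => by
    have e := g.norm_coe_le_norm x
    rw [Real.norm_eq_abs] at e
    linarith
  have hint : ∀ c : ProbabilityMeasure X, ∫ x, (g x + C) / (2 * C) ∂(c : Measure X) =
      (∫ x, g x ∂(c : Measure X) + C) / (2 * C) := by
    intro c
    rw [integral_div, integral_add (g.integrable _) (integrable_const _)]
    simp
  refine ⟨fun x => (g x + C) / (2 * C), ?_, ?_, ?_⟩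
  · exact (g.continuous.add continuous_const).div_const _
  · intro x
    have e := abs_le.mp (hgC x)
    constructor
    · exact div_nonneg (by linarith [e.1]) (by positivity)
    · rw [div_le_one (by positivity)]
      linarith [e.2]
  · rw [hint, hint]
    exact div_lt_div_of_pos_right (by linarith) (by positivity)

theorem base_stage (hT : Continuous T) {c₀ c₁ : ProbabilityMeasure X}
    (h₀ : Ergodic T (c₀ : Measure X)) (h₁ : Ergodic T (c₁ : Measure X)) (hne : c₀ ≠ c₁) :
    ∃ φ : X → ℝ, Continuous φ ∧ (∀ x, φ x ∈ Icc (0 : ℝ) 1) ∧ ∃ d : ℝ, 0 < d ∧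
      ∀ c : ℕ → ProbabilityMeasure X, c 0 = c₀ → c 1 = c₁ →
        ∀ᶠ N : ℕ in atTop, ∃ G : ℕ → Set X, Stage T φ d c 2 N G := by
  obtain ⟨φ, hφ, hφ1, hlt⟩ := exists_phi hne
  set α : ℝ := ∫ x, φ x ∂(c₀ : Measure X) with hα
  set β : ℝ := ∫ x, φ x ∂(c₁ : Measure X) with hβ
  have hd : 0 < β - α := by linarith
  refine ⟨φ, hφ, hφ1, β - α, hd, ?_⟩
  intro c hc0 hc1
  have hb : ∀ x, |φ x| ≤ 1 := fun x => by
    rw [abs_of_nonneg (hφ1 x).1]
    exact (hφ1 x).2
  have he : 0 < eta 2 := by
    unfold eta
    positivity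
  have e0 := av_near h₀ hφ.measurable hb (δ := (β - α) / 8) (by linarith) he
  have e1 := av_near h₁ hφ.measurable hb (δ := (β - α) / 8) (by linarith) he
  filter_upwards [e0, e1, eventually_gt_atTop 0] with N k0 k1 hN
  have hth : theta 2 = 3 / 4 := by
    unfold theta
    norm_num
  have ee01 : ee (β - α) 0 1 = β - α := by
    unfold ee
    norm_num
  have ee10 : ee (β - α) 1 0 = β - α := by
    unfold ee
    norm_num
  refine ⟨fun j => if j = 0 then {x | av T N φ x < α + (β - α) / 8} else
    {x | β - (β - α) / 8 < av T N φ x}, hN, ?_, ?_, ?_⟩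
  · intro j _
    by_cases hj : j = 0
    · simp only [hj, if_true]
      exact isOpen_lt (av_continuous hT hφ N) continuous_const
    · simp only [hj, if_false]
      exact isOpen_lt continuous_const (av_continuous hT hφ N)
  · intro j hj
    have hj2 : j = 0 ∨ j = 1 := by omega
    rcases hj2 with rfl | rfl
    · simp only [if_true, hc0]
      refine lt_of_lt_of_le k0 (measureReal_mono ?_ (measure_ne_top _ _))
      intro x hx
      simp only [Set.mem_ofPred_eq] at hx ⊢
      have := (abs_lt.mp hx).2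
      linarith
    · simp only [one_ne_zero, if_false, hc1]
      refine lt_of_lt_of_le k1 (measureReal_mono ?_ (measure_ne_top _ _))
      intro x hx
      simp only [Set.mem_ofPred_eq] at hx ⊢
      have := (abs_lt.mp hx).1
      linarith
  · intro i hi j hj hij x hx y hy
    have hod := av_sub_le_od (T := T) φ N x y
    rw [hth]
    have h2 : (i = 0 ∧ j = 1) ∨ (i = 1 ∧ j = 0) := by omega
    rcases h2 with ⟨rfl, rfl⟩ | ⟨rfl, rfl⟩
    · simp only [if_true, one_ne_zero, if_false, Set.mem_ofPred_eq] at hx hy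
      rw [ee01]
      have := neg_abs_le (av T N φ x - av T N φ y)
      linarith
    · simp only [if_true, one_ne_zero, if_false, Set.mem_ofPred_eq] at hx hy
      rw [ee10]
      have := le_abs_self (av T N φ x - av T N φ y)
      linarith

end RK
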