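import Pool.Agent.Helper90.RK.B04
import Pool.Agent.Helper90.RK.B05
import Pool.Agent.Helper90.RK.B08

/-!
# RK-B10: the inductive step (about 250 lines)

`finish`: given `c`, `k ≥ 2`, a stage (for `c`, `k`, `N`, `G`), the ergodic theorem bounds `large`, an open set `O₀` containing
`m = mixP c k`, and finitely many further open conditions (an open set `O₁ ∋ m`), there is `O` such that the state `(c, N, G, O)` is good and
`closure O ⊆ O₀`, `O ⊆ O₁`.  Let `O₂` be the intersection of `O₀`, `O₁` and of the sets of the `μ` with `(1 - eta k)/k < μ.real (G j)`, `j < k`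
(open: `isOpen_real_gt`; contains `m`: `mix_real` and `(c j).real (G j) > 1 - eta k`, the other terms are `≥ 0`), with
`|∫ ψ i dμ - ∫ ψ i dm| < 1/k`, `i < k`, and with `∫ |av T N (ψ i) - ∫ ψ i dm| dμ < ∫ |av T N (ψ i) - ∫ ψ i dm| dm + 1/k`, `i < k` (open: `continuous_int`, `av T N (ψ i)` is
continuous).  `exists_shrink` gives `O`.

`step`: let `m = mixP s.c k`.  `mix_step` gives an open `U ∋ m`.  Let `U'` be the intersection of `U` with the sets
`{μ | (1 - eta k)/k < μ.real (s.G j)}`, `j < k` (they contain `m`, by `Good.mass`).  By density there is an ergodic `ν ∈ U'`.  Let `c' = Function.update s.c k ν`.  `Stage T φ d c' k s.N s.G`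
(only `c' j`, `j < k` matter).  By `stage_step` and `mean_ergodic` (for `c' j`, `j < k + 1`, and `ψ i`, `i < k + 1`) there is `N' > s.N` with
`Stage T φ d c' (k+1) N' (newG ..)` and the bounds `large` for `k + 1`.  Open conditions `O₁`: `1 - 1/(k+1) - 2 eta k < μ.real (Bs T s.G k t)` for
`t < C * N'`: `Bs T s.G k t` is open; for `m' = mixP c' (k+1)`: `(c' j).real (Bs ..) ≥ (c' j).real (G j ∩ T^-t G j) ≥ 1 - 2 (1 - (c' j).real (G j)) > 1 - 2 eta k`
for `j < k` (invariance), so `m'.real (Bs ..) > (k/(k+1)) (1 - 2 eta k) ≥ 1 - 1/(k+1) - 2 eta k` (`mix_real`).  `O₀ = s.O ∋ m'` by `mix_step`.  `finish` for `k + 1`.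

`good_two`: `finish` with `O₀ = O₁ = univ`.
-/

namespace RK

open MeasureTheory Set Filter Topology

variable {X : Type*} [MetricSpace X] [CompactSpace X] [MeasurableSpace X] [BorelSpace X]
  {T : X → X} {φ : X → ℝ} {d : ℝ} {ψ : ℕ → X → ℝ}

private lemma b10_av_continuous (hT : Continuous T) {f : X → ℝ} (hf : Continuous f) (N : ℕ) :
    Continuous (av T N f) := by
  unfold av
  exact (continuous_finsetSum _ fun i _ => hf.comp (hT.iterate i)).div_const _

private lemma b10_eta_nonneg (k : ℕ) : 0 ≤ eta k := by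
  unfold eta
  positivity

private lemma b10_mix_mass {c : ℕ → ProbabilityMeasure X} {k : ℕ} (hk : 0 < k) {G : ℕ → Set X}
    {a : ℝ} (h : ∀ j < k, a < (c j : Measure X).real (G j)) :
    ∀ j < k, a / k < (mixP c k : Measure X).real (G j) := by
  intro j hj
  rw [mix_real hk]
  have hk0 : (0 : ℝ) < k := by exact_mod_cast hk
  apply div_lt_div_of_pos_right _ hk0
  calc a < (c j : Measure X).real (G j) := h j hj
    _ ≤ ∑ l ∈ Finset.range k, (c l : Measure X).real (G j) :=
      Finset.single_le_sum (f := fun l => (c l : Measure X).real (G j))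
        (fun l _ => measureReal_nonneg) (Finset.mem_range.2 hj)

private lemma b10_finish (hT : Continuous T) (hψ : ∀ i, Continuous (ψ i))
    {c : ℕ → ProbabilityMeasure X} {k : ℕ} (hk : 0 < k)
    (herg : ∀ j < k, Ergodic T (c j : Measure X)) {N : ℕ} {G : ℕ → Set X}
    (hst : Stage T φ d c k N G)
    (hlarge : ∀ j < k, ∀ i < k,
      ∫ x, |av T N (ψ i) x - ∫ y, ψ i y ∂(c j : Measure X)| ∂(c j : Measure X) < 1 / k)
    {O₀ : Set (ProbabilityMeasure X)} (hO₀ : IsOpen O₀) (hm : mixP c k ∈ O₀) :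
    ∃ O : Set (ProbabilityMeasure X), Good T φ d ψ k ⟨c, N, G, O⟩ ∧ closure O ⊆ O₀ := by
  have hk0 : (0 : ℝ) < 1 / (k : ℝ) := by
    have : (0 : ℝ) < k := by exact_mod_cast hk
    positivity
  let A₁ : Set (ProbabilityMeasure X) :=
    ⋂ j ∈ Finset.range k, {μ | (1 - eta k) / k < (μ : Measure X).real (G j)}
  let A₂ : Set (ProbabilityMeasure X) :=
    ⋂ i ∈ Finset.range k, {μ | |∫ x, ψ i x ∂(μ : Measure X) -
      ∫ x, ψ i x ∂(mixP c k : Measure X)| < 1 / k}
  let A₃ : Set (ProbabilityMeasure X) :=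
    ⋂ i ∈ Finset.range k, {μ |
      ∫ x, |av T N (ψ i) x - ∫ y, ψ i y ∂(mixP c k : Measure X)| ∂(μ : Measure X) <
      ∫ x, |av T N (ψ i) x - ∫ y, ψ i y ∂(mixP c k : Measure X)|
        ∂(mixP c k : Measure X) + 1 / k}
  have h1 : IsOpen A₁ := isOpen_biInter_finset fun j hj =>
    isOpen_real_gt (hst.opn j (Finset.mem_range.1 hj)) _
  have h2 : IsOpen A₂ := isOpen_biInter_finset fun i _ =>
    isOpen_lt ((continuous_int (hψ i)).sub continuous_const).abs continuous_const
  have h3 : IsOpen A₃ := isOpen_biInter_finset fun i _ =>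
    isOpen_lt (continuous_int ((b10_av_continuous hT (hψ i) N).sub continuous_const).abs)
      continuous_const
  have m1 : mixP c k ∈ A₁ := by
    simp only [A₁, mem_iInter, Finset.mem_range]
    intro j hj
    exact b10_mix_mass hk hst.mass j hj
  have m2 : mixP c k ∈ A₂ := by
    simp only [A₂, mem_iInter, Finset.mem_range]
    intro i _
    have e : |∫ x, ψ i x ∂(mixP c k : Measure X) - ∫ x, ψ i x ∂(mixP c k : Measure X)| <
        1 / (k : ℝ) := by
      rw [sub_self, abs_zero]
      exact hk0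
    exact e
  have m3 : mixP c k ∈ A₃ := by
    simp only [A₃, mem_iInter, Finset.mem_range]
    intro i _
    exact lt_add_of_pos_right _ hk0
  obtain ⟨O, hO, hmO, hcl⟩ := exists_shrink (((hO₀.inter h1).inter h2).inter h3)
    (μ := mixP c k) ⟨⟨⟨hm, m1⟩, m2⟩, m3⟩
  have hsub := subset_closure.trans hcl
  refine ⟨O, ⟨herg, hst, hO, hmO, ?_, ?_, ?_, hlarge⟩, fun μ hμ => (hcl hμ).1.1.1⟩
  · intro μ hμ j hj
    have := (hsub hμ).1.1.2
    simp only [A₁, mem_iInter, Finset.mem_range] at this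
    exact this j hj
  · intro μ hμ i hi
    have := (hsub hμ).1.2
    simp only [A₂, mem_iInter, Finset.mem_range] at this
    exact this i hi
  · intro μ hμ i hi
    have := (hsub hμ).2
    simp only [A₃, mem_iInter, Finset.mem_range] at this
    exact this i hi

private lemma b10_large (hψ : ∀ i, Continuous (ψ i))
    {c : ℕ → ProbabilityMeasure X} {k : ℕ} (hk : 0 < k)
    (herg : ∀ j < k, Ergodic T (c j : Measure X)) :
    ∀ᶠ N : ℕ in atTop, ∀ j < k, ∀ i < k,
      ∫ x, |av T N (ψ i) x - ∫ y, ψ i y ∂(c j : Measure X)| ∂(c j : Measure X) < 1 / k := by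
  have hk0 : (0 : ℝ) < 1 / (k : ℝ) := by
    have : (0 : ℝ) < k := by exact_mod_cast hk
    positivity
  have h : ∀ᶠ N : ℕ in atTop, ∀ j ∈ Finset.range k, ∀ i ∈ Finset.range k,
      ∫ x, |av T N (ψ i) x - ∫ y, ψ i y ∂(c j : Measure X)| ∂(c j : Measure X) < 1 / k := by
    rw [Filter.eventually_all_finset]
    intro j hj
    rw [Filter.eventually_all_finset]
    intro i _
    rw [Finset.mem_range] at hj
    obtain ⟨C, hC⟩ := isCompact_univ.exists_bound_of_continuousOn (f := ψ i)
      (hψ i).continuousOn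
    have ht := mean_ergodic (herg j hj) (hψ i).measurable (C := C) (fun x => hC x (mem_univ x))
    exact ht.eventually_lt_const hk0
  filter_upwards [h] with N hN j hj i hi
  exact hN j (Finset.mem_range.2 hj) i (Finset.mem_range.2 hi)

theorem good_two (hT : Continuous T) (hψ : ∀ i, Continuous (ψ i)) {c : ℕ → ProbabilityMeasure X}
    (h₀ : Ergodic T (c 0 : Measure X)) (h₁ : Ergodic T (c 1 : Measure X))
    (h : ∀ᶠ N : ℕ in atTop, ∃ G : ℕ → Set X, Stage T φ d c 2 N G) :
    ∃ s : St X, Good T φ d ψ 2 s := by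
  have herg : ∀ j < 2, Ergodic T (c j : Measure X) := by
    intro j hj
    rcases (by omega : j = 0 ∨ j = 1) with rfl | rfl
    · exact h₀
    · exact h₁
  obtain ⟨N, ⟨G, hG⟩, hN⟩ := (h.and (b10_large hψ (by norm_num) herg)).exists
  obtain ⟨O, hO, _⟩ := b10_finish (O₀ := univ) hT hψ (by norm_num) herg hG hN isOpen_univ
    (mem_univ _)
  exact ⟨_, hO⟩

private lemma b10_inter {μ : Measure X} [IsProbabilityMeasure μ] (h : MeasurePreserving T μ μ)
    {G : Set X} (hG : MeasurableSet G) {a : ℝ} (ha : 1 - a < μ.real G) (t : ℕ) :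
    1 - 2 * a < μ.real (G ∩ T^[t] ⁻¹' G) := by
  have e1 : μ.real (T^[t] ⁻¹' G) = μ.real G :=
    (h.iterate t).measureReal_preimage hG.nullMeasurableSet
  have e2 : μ.real (G ∪ T^[t] ⁻¹' G) + μ.real (G ∩ T^[t] ⁻¹' G) =
      μ.real G + μ.real (T^[t] ⁻¹' G) :=
    measureReal_union_add_inter ((h.iterate t).measurable hG)
  have e3 : μ.real (G ∪ T^[t] ⁻¹' G) ≤ 1 := measureReal_le_one
  linarith

private lemma b10_pers {c : ℕ → ProbabilityMeasure X} {k : ℕ} (hk : 0 < k) {G : ℕ → Set X}
    (hinv : ∀ j < k, MeasurePreserving T (c j : Measure X) (c j : Measure X))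
    (hG : ∀ j < k, MeasurableSet (G j))
    (h : ∀ j < k, 1 - eta k < (c j : Measure X).real (G j)) (t : ℕ) :
    1 - 1 / ((k : ℝ) + 1) - 2 * eta k < (mixP c (k + 1) : Measure X).real (Bs T G k t) := by
  rw [mix_real (Nat.succ_pos k)]
  have hk0 : (0 : ℝ) < k := by exact_mod_cast hk
  have h1 : ∀ j ∈ Finset.range k, 1 - 2 * eta k < (c j : Measure X).real (Bs T G k t) := by
    intro j hj
    rw [Finset.mem_range] at hj
    refine (b10_inter (hinv j hj) (hG j hj) (h j hj) t).trans_le ?_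
    apply measureReal_mono
    · intro x hx
      exact ⟨j, hj, hx.1, hx.2⟩
    · exact measure_ne_top _ _
  have h2 : (k : ℝ) * (1 - 2 * eta k) <
      ∑ j ∈ Finset.range k, (c j : Measure X).real (Bs T G k t) := by
    have := Finset.sum_lt_sum_of_nonempty (s := Finset.range k)
      ⟨0, Finset.mem_range.2 hk⟩ h1
    simpa [mul_sub, mul_comm, mul_left_comm] using this
  have h3 : ∑ j ∈ Finset.range k, (c j : Measure X).real (Bs T G k t) ≤
      ∑ j ∈ Finset.range (k + 1), (c j : Measure X).real (Bs T G k t) := by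
    rw [Finset.sum_range_succ]
    linarith [measureReal_nonneg (μ := (c k : Measure X)) (s := Bs T G k t)]
  push_cast
  rw [lt_div_iff₀ (by positivity)]
  have h4 := b10_eta_nonneg k
  have h5 : (1 - 1 / ((k : ℝ) + 1) - 2 * eta k) * ((k : ℝ) + 1) =
      k - 2 * eta k * (k + 1) := by
    field_simp
    ring
  rw [h5]
  nlinarith

theorem step (hT : Continuous T) (hφ : ∀ x, φ x ∈ Icc (0 : ℝ) 1) (hd : 0 < d)
    (hψ : ∀ i, Continuous (ψ i))
    (hdense : ∀ μ : ProbabilityMeasure X, MeasurePreserving T (μ : Measure X) (μ : Measure X) →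
      ∀ O : Set (ProbabilityMeasure X), IsOpen O → μ ∈ O → ∃ ν ∈ O, Ergodic T (ν : Measure X))
    (C : ℕ) {k : ℕ} (hk : 2 ≤ k) {s : St X} (hs : Good T φ d ψ k s) :
    ∃ s' : St X, Good T φ d ψ (k + 1) s' ∧ Next T C k s s' := by
  have hk1 : 0 < k := by omega
  obtain ⟨U, hU, hmU, hstep⟩ := mix_step hk1 hs.opn hs.mem
  let A : Set (ProbabilityMeasure X) :=
    ⋂ j ∈ Finset.range k, {μ | (1 - eta k) / k < (μ : Measure X).real (s.G j)}
  have hA : IsOpen A := isOpen_biInter_finset fun j hj =>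
    isOpen_real_gt (hs.stage.opn j (Finset.mem_range.1 hj)) _
  have hmA : mixP s.c k ∈ A := by
    simp only [A, mem_iInter, Finset.mem_range]
    intro j hj
    exact hs.mass _ hs.mem j hj
  obtain ⟨ν, hν, hνerg⟩ := hdense (mixP s.c k)
    (mix_inv hk1 fun j hj => (hs.erg j hj).toMeasurePreserving) (U ∩ A) (hU.inter hA) ⟨hmU, hmA⟩
  have hνA : ∀ j < k, (1 - eta k) / k < (ν : Measure X).real (s.G j) := by
    have := hν.2
    simp only [A, mem_iInter, Finset.mem_range] at this
    exact this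
  obtain ⟨c', hc', hck⟩ : ∃ c' : ℕ → ProbabilityMeasure X, (∀ j < k, c' j = s.c j) ∧ c' k = ν :=
    ⟨Function.update s.c k ν, fun j hj => Function.update_of_ne (by omega) _ _,
      Function.update_self _ _ _⟩
  have herg : ∀ j < k + 1, Ergodic T (c' j : Measure X) := by
    intro j hj
    by_cases h : j < k
    · rw [hc' j h]
      exact hs.erg j h
    · have : j = k := by omega
      rw [this, hck]
      exact hνerg
  have hst : Stage T φ d c' k s.N s.G := by
    refine ⟨hs.stage.npos, hs.stage.opn, ?_, hs.stage.sep⟩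
    intro j hj
    rw [hc' j hj]
    exact hs.stage.mass j hj
  have ev1 := stage_step hT hφ hd hk hst herg (by rw [hck]; exact hνA)
  have ev2 := b10_large hψ (Nat.succ_pos k) herg
  obtain ⟨N', ⟨hN1, hN2⟩, hN3⟩ := ((ev1.and ev2).and (eventually_gt_atTop s.N)).exists
  obtain ⟨hnew, hmix⟩ := hstep c' hc' (by rw [hck]; exact hν.1)
  let B : Set (ProbabilityMeasure X) := ⋂ t ∈ Finset.range (C * N'),
    {μ | 1 - 1 / ((k : ℝ) + 1) - 2 * eta k < (μ : Measure X).real (Bs T s.G k t)}
  have hBs : ∀ t, IsOpen (Bs T s.G k t) := by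
    intro t
    have : Bs T s.G k t = ⋃ j ∈ Finset.range k, (s.G j ∩ T^[t] ⁻¹' s.G j) := by
      ext x
      simp only [Bs, mem_iUnion, Finset.mem_range, mem_inter_iff, mem_preimage]
      constructor
      · rintro ⟨j, hj, h1, h2⟩
        exact ⟨j, hj, h1, h2⟩
      · rintro ⟨j, hj, h1, h2⟩
        exact ⟨j, hj, h1, h2⟩
    rw [this]
    refine isOpen_biUnion fun j hj => ?_
    have h := hs.stage.opn j (Finset.mem_range.1 hj)
    exact h.inter (h.preimage (hT.iterate t))
  have hB : IsOpen B := isOpen_biInter_finset fun t _ => isOpen_real_gt (hBs t) _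
  have hmB : mixP c' (k + 1) ∈ B := by
    simp only [B, mem_iInter, Finset.mem_range]
    intro t _
    exact b10_pers hk1 (fun j hj => (herg j (by omega)).toMeasurePreserving)
      (fun j hj => (hs.stage.opn j hj).measurableSet) hst.mass t
  obtain ⟨O, hO, hcl⟩ := b10_finish hT hψ (Nat.succ_pos k) herg hN1 hN2 (hs.opn.inter hB)
    ⟨hmix, hmB⟩
  refine ⟨⟨c', N', newG T s.G k N', O⟩, hO, ⟨hc', hN3, fun μ hμ => (hcl hμ).1, hnew, ?_⟩⟩
  intro μ hμ t ht
  have := (hcl (subset_closure hμ)).2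
  simp only [B, mem_iInter, Finset.mem_range] at this
  exact this t ht

end RK
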