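import Pool.Agent.Helper90.RK.B05
import Pool.Agent.Helper90.RK.B04

/-!
# RK-B11: the limit measure (about 150 lines)

`exists_limit`: dependent choice gives `s : ℕ → St X` with `Good T φ d ψ k (s k)` and `Next T C k (s k) (s (k+1))` for `k ≥ 2` (recursion from
`k = 2`; put `s 0 = s 1 = s 2`).  The sets `closure (s k).O ∩ Inv` (`Inv` the closed set of invariant measures, `isClosed_inv`) are compact, decreasing
(`closure (s (k+1)).O ⊆ (s k).O`) and nonempty (they contain `mixP (s k).c k`, `mix_inv`), so they have a common point `u`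
(`IsCompact.nonempty_iInter_of_sequence_nonempty_isCompact_isClosed`), and `u ∈ closure (s (k+1)).O ⊆ (s k).O`.

`sep_of_seq`: `N k = (s (max k 2)).N`, `G k = (s k).G`.  `sep`: `Stage.sep` with `theta k * ee d i j ≥ (1/2) (d/3) = d/6`.
`mass`: `Good.mass` for `u ∈ (s k).O`.  `pers`: `Next.pers` for `u ∈ (s (k+1)).O`.  `meas`: open sets.
-/

namespace RK

open MeasureTheory Set Filter Topology

variable {X : Type*} [MetricSpace X] [CompactSpace X] [MeasurableSpace X] [BorelSpace X]
  {T : X → X} {φ : X → ℝ} {d : ℝ} {ψ : ℕ → X → ℝ}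

theorem exists_limit (hT : Continuous T) (C : ℕ) (h₂ : ∃ s : St X, Good T φ d ψ 2 s)
    (hstep : ∀ k ≥ 2, ∀ s : St X, Good T φ d ψ k s →
      ∃ s' : St X, Good T φ d ψ (k + 1) s' ∧ Next T C k s s') :
    ∃ (u : ProbabilityMeasure X) (s : ℕ → St X),
      MeasurePreserving T (u : Measure X) (u : Measure X) ∧
      (∀ k ≥ 2, Good T φ d ψ k (s k)) ∧ (∀ k ≥ 2, Next T C k (s k) (s (k + 1))) ∧
      ∀ k ≥ 2, u ∈ (s k).O := by
  classical
  obtain ⟨s2, hs2⟩ := h₂
  have hne : Nonempty (St X) := ⟨s2⟩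
  choose! nx hnx using hstep
  obtain ⟨t, ht0, htS⟩ : ∃ t : ℕ → St X, t 0 = s2 ∧ ∀ n, t (n + 1) = nx (n + 2) (t n) :=
    ⟨fun n => Nat.rec s2 (fun n s => nx (n + 2) s) n, rfl, fun _ => rfl⟩
  have htG : ∀ n, Good T φ d ψ (n + 2) (t n) := by
    intro n
    induction n with
    | zero =>
      rw [ht0]
      exact hs2
    | succ n ih =>
      rw [htS]
      exact (hnx (n + 2) (by omega) _ ih).1
  have htN : ∀ n, Next T C (n + 2) (t n) (t (n + 1)) := by
    intro n
    rw [htS]
    exact (hnx (n + 2) (by omega) _ (htG n)).2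
  have hcl := isClosed_inv (X := X) hT
  have hK := IsCompact.nonempty_iInter_of_sequence_nonempty_isCompact_isClosed
    (fun n => closure (t n).O ∩
      {μ : ProbabilityMeasure X | MeasurePreserving T (μ : Measure X) (μ : Measure X)})
    (fun n => Set.inter_subset_inter_left _ (((htN n).clos).trans subset_closure))
    (fun n => ⟨mixP (t n).c (n + 2), subset_closure (htG n).mem,
      mix_inv (by omega) fun j hj => ((htG n).erg j hj).toMeasurePreserving⟩)
    ((isClosed_closure.inter hcl).isCompact)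
    (fun n => isClosed_closure.inter hcl)
  obtain ⟨u, hu⟩ := hK
  rw [Set.mem_iInter] at hu
  refine ⟨u, fun k => t (k - 2), (hu 0).2, fun k hk => ?_, fun k hk => ?_, fun k hk => ?_⟩
  · obtain ⟨n, hn⟩ : ∃ n, k = n + 2 := ⟨k - 2, by omega⟩
    subst hn
    have e1 : n + 2 - 2 = n := by omega
    show Good T φ d ψ (n + 2) (t (n + 2 - 2))
    rw [e1]
    exact htG n
  · obtain ⟨n, hn⟩ : ∃ n, k = n + 2 := ⟨k - 2, by omega⟩
    subst hn
    have e1 : n + 2 - 2 = n := by omega
    have e2 : n + 2 + 1 - 2 = n + 1 := by omega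
    show Next T C (n + 2) (t (n + 2 - 2)) (t (n + 2 + 1 - 2))
    rw [e1, e2]
    exact htN n
  · obtain ⟨n, hn⟩ : ∃ n, k = n + 2 := ⟨k - 2, by omega⟩
    subst hn
    have e1 : n + 2 - 2 = n := by omega
    show u ∈ (t (n + 2 - 2)).O
    rw [e1]
    exact (htN n).clos (hu (n + 1)).1

theorem sep_of_seq (hd : 0 < d) {C : ℕ} {u : ProbabilityMeasure X} {s : ℕ → St X}
    (h1 : ∀ k ≥ 2, Good T φ d ψ k (s k)) (h2 : ∀ k ≥ 2, Next T C k (s k) (s (k + 1)))
    (h3 : ∀ k ≥ 2, u ∈ (s k).O) :
    Sep T φ (d / 6) C (fun k => (s (max k 2)).N) (fun k => (s k).G) (u : Measure X) := by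
  have hmax : ∀ k ≥ 2, max k 2 = k := fun k hk => max_eq_left hk
  refine ⟨fun k => (h1 (max k 2) (le_max_right _ _)).stage.npos, fun k hk => ?_,
    fun k hk j hj => ((h1 k hk).stage.opn j hj).measurableSet, fun k hk i hi j hj hij x hx y hy => ?_,
    fun k hk j hj => (h1 k hk).mass u (h3 k hk) j hj, fun k hk t ht => ?_⟩
  · show (s (max k 2)).N < (s (max (k + 1) 2)).N
    rw [hmax k hk, hmax (k + 1) (by omega)]
    exact (h2 k hk).scale
  · show d / 6 ≤ od T φ (s (max k 2)).N x y
    rw [hmax k hk]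
    refine le_trans ?_ ((h1 k hk).stage.sep i hi j hj hij x hx y hy)
    have hth : 1 / 2 ≤ theta k := by
      unfold theta
      have : (0 : ℝ) ≤ (1 / 2) ^ k := by positivity
      linarith
    have hee : d / 3 ≤ ee d i j := by
      unfold ee
      rw [if_neg hij]
      split_ifs
      · linarith
      · linarith
      · exact le_rfl
    have hd3 : 0 ≤ d / 3 := by positivity
    calc d / 6 = 1 / 2 * (d / 3) := by ring
      _ ≤ theta k * ee d i j := mul_le_mul hth hee hd3 (by linarith)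
  · have ht' : t < C * (s (k + 1)).N := by
      have h5 : t < C * (s (max (k + 1) 2)).N := ht
      rw [hmax (k + 1) (by omega)] at h5
      exact h5
    exact (h2 k hk).pers u (h3 (k + 1) (by omega)) t ht'

end RK
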