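import Pool.Agent.Helper90.RK.B01

/-!
# RK-B12: a criterion for ergodicity (about 150 lines)

`exists_dense_seq`: `C(X, ℝ)` is separable for a compact metric space `X` (instance in Mathlib, `ContinuousMap` with `SecondCountableTopology`), take a dense sequence
(`TopologicalSpace.denseSeq`) and the sup norm.
`ergodic_of_av`: let `A` be measurable with `T⁻¹' A = A`, `f` its indicator function, `ε > 0`.  There is a continuous `g` with
`∫ |f - g| du < ε` (density of continuous functions in `L¹`, e.g. `MeasureTheory.Integrable.exists_boundedContinuous_integral_sub_le`), and `i` with `|g - ψ i| < ε`.  As `f ∘ T = f`, `av T (N k) f = f`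
(`N k > 0`), and `∫ |f - av T (N k) (ψ i)| du = ∫ |av T (N k) (f - ψ i)| du ≤ ∫ |f - ψ i| du ≤ 2 ε` by invariance.  So
`∫ |f - u.real A| du ≤ 2 ε + ∫ |av T (N k) (ψ i) - ∫ ψ i du| du + |∫ ψ i du - u.real A| ≤ 4 ε + o(1)`.  So `∫ |f - u.real A| du = 0`, and this integral is
`2 u(A) (1 - u(A))`; or: `f = u.real A` a.e., so `f` is a.e. constant.  This is `PreErgodic.aeconst_set`.
-/

namespace RK

open MeasureTheory Set Filter Topology

variable {X : Type*} [MetricSpace X] [CompactSpace X]

theorem exists_dense_seq (X : Type*) [MetricSpace X] [CompactSpace X] :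
    ∃ ψ : ℕ → X → ℝ, (∀ i, Continuous (ψ i)) ∧
      ∀ f : X → ℝ, Continuous f → ∀ ε > 0, ∃ i, ∀ x, |f x - ψ i x| < ε := by
  refine ⟨fun i => TopologicalSpace.denseSeq C(X, ℝ) i, fun i => ContinuousMap.continuous _,
    fun f hf ε hε => ?_⟩
  obtain ⟨i, hi⟩ := (TopologicalSpace.denseRange_denseSeq C(X, ℝ)).exists_dist_lt
    (⟨f, hf⟩ : C(X, ℝ)) hε
  refine ⟨i, fun x => ?_⟩
  have h1 := ContinuousMap.dist_apply_le_dist (f := (⟨f, hf⟩ : C(X, ℝ)))
    (g := TopologicalSpace.denseSeq C(X, ℝ) i) x
  exact lt_of_le_of_lt h1 hi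

omit [MetricSpace X] [CompactSpace X] in
private theorem ea_int [MeasurableSpace X] {u : Measure X} [IsProbabilityMeasure u]
    {g : X → ℝ} (hg : Measurable g) {C : ℝ} (hb : ∀ x, |g x| ≤ C) : Integrable g u :=
  Integrable.of_bound hg.aestronglyMeasurable C (Eventually.of_forall hb)

private theorem ea_av [MeasurableSpace X] {T : X → X} {u : Measure X} [IsProbabilityMeasure u]
    (hinv : MeasurePreserving T u u) {g : X → ℝ} (hg : Measurable g) {C : ℝ}
    (hb : ∀ x, |g x| ≤ C) (hC : 0 ≤ C) {N : ℕ} (hN : 0 < N) :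
    ∫ x, |av T N g x| ∂u ≤ ∫ x, |g x| ∂u := by
  have hT := hinv.measurable
  have hTi : ∀ i, Measurable (T^[i]) := fun i => hT.iterate i
  have hgi : ∀ i, Integrable (fun x => |g (T^[i] x)|) u := fun i =>
    ea_int ((hg.comp (hTi i)).abs) (C := C) fun x => by
      rw [abs_abs]
      exact hb _
  have h1 : ∀ x, |av T N g x| ≤ (∑ i ∈ Finset.range N, |g (T^[i] x)|) / N := by
    intro x
    unfold av
    rw [abs_div, Nat.abs_cast]
    exact div_le_div_of_nonneg_right (Finset.abs_sum_le_sum_abs _ _) (Nat.cast_nonneg _)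
  have h2 : ∀ i, ∫ x, |g (T^[i] x)| ∂u = ∫ x, |g x| ∂u := by
    intro i
    have h3 := integral_map (μ := u) (φ := T^[i]) (hTi i).aemeasurable
      (f := fun y => |g y|) (hg.abs.aestronglyMeasurable)
    rw [(hinv.iterate i).map_eq] at h3
    exact h3.symm
  have hN' : (N : ℝ) ≠ 0 := by exact_mod_cast hN.ne'
  calc ∫ x, |av T N g x| ∂u ≤ ∫ x, (∑ i ∈ Finset.range N, |g (T^[i] x)|) / N ∂u := by
        refine integral_mono ?_ ?_ h1
        · exact ea_int ((av_measurable hT hg N).abs) (C := C) fun x => by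
            rw [abs_abs]
            exact av_le hb hC N x
        · exact (integrable_finsetSum _ fun i _ => hgi i).div_const _
    _ = (∑ i ∈ Finset.range N, ∫ x, |g (T^[i] x)| ∂u) / N := by
        rw [integral_div, integral_finsetSum _ fun i _ => hgi i]
    _ = ∫ x, |g x| ∂u := by
        simp only [h2, Finset.sum_const, Finset.card_range, nsmul_eq_mul]
        field_simp

theorem ergodic_of_av [MeasurableSpace X] [BorelSpace X] {T : X → X} {u : Measure X}
    [IsProbabilityMeasure u] (hinv : MeasurePreserving T u u) {ψ : ℕ → X → ℝ}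
    (hψ : ∀ i, Continuous (ψ i))
    (hdense : ∀ f : X → ℝ, Continuous f → ∀ ε > 0, ∃ i, ∀ x, |f x - ψ i x| < ε)
    {N : ℕ → ℕ} (hN : ∀ᶠ k in atTop, 0 < N k)
    (h : ∀ i, Tendsto (fun k => ∫ x, |av T (N k) (ψ i) x - ∫ y, ψ i y ∂u| ∂u) atTop (𝓝 0)) :
    Ergodic T u := by
  have hT := hinv.measurable
  refine { toMeasurePreserving := hinv, aeconst_set := fun A hA hTA => ?_ }
  set f : X → ℝ := A.indicator (fun _ => (1 : ℝ)) with hf
  have hfm : Measurable f := measurable_const.indicator hA
  have hfb : ∀ x, |f x| ≤ 1 := by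
    intro x
    rw [hf]
    by_cases hx : x ∈ A
    · rw [Set.indicator_of_mem hx, abs_one]
    · rw [Set.indicator_of_notMem hx, abs_zero]
      exact zero_le_one
  have hfint : Integrable f u := ea_int hfm hfb
  set α : ℝ := u.real A with hα
  have hfα : ∫ x, f x ∂u = α := by
    rw [hf, integral_indicator hA, setIntegral_const, smul_eq_mul, mul_one]
  have hmem : ∀ i x, T^[i] x ∈ A ↔ x ∈ A := by
    intro i
    induction i with
    | zero => exact fun x => Iff.rfl
    | succ i ih =>
      intro x
      rw [Function.iterate_succ_apply, ih (T x)]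
      have h1 : x ∈ T ⁻¹' A ↔ x ∈ A := by rw [hTA]
      exact h1
  have hfT : ∀ i x, f (T^[i] x) = f x := by
    intro i x
    rw [hf]
    by_cases hx : x ∈ A
    · rw [Set.indicator_of_mem hx, Set.indicator_of_mem ((hmem i x).mpr hx)]
    · rw [Set.indicator_of_notMem hx, Set.indicator_of_notMem fun h => hx ((hmem i x).mp h)]
  have hmain : ∀ ε > 0, ∫ x, |f x - α| ∂u ≤ 4 * ε := by
    intro ε hε
    obtain ⟨g, hg, hgi⟩ := hfint.exists_boundedContinuous_integral_sub_le hε
    obtain ⟨i, hi⟩ := hdense g g.continuous ε hε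
    have hψm : Measurable (ψ i) := (hψ i).measurable
    obtain ⟨C, hCb⟩ : ∃ C, ∀ x, |ψ i x| ≤ C := by
      obtain ⟨C, hC⟩ := (isCompact_univ (X := X)).exists_bound_of_continuousOn
        (hψ i).continuousOn
      exact ⟨C, fun x => hC x (Set.mem_univ x)⟩
    obtain ⟨x0⟩ : Nonempty X := nonempty_of_isProbabilityMeasure u
    have hC0 : 0 ≤ C := (abs_nonneg _).trans (hCb x0)
    have hψint : Integrable (ψ i) u := ea_int hψm hCb
    have hDm : Measurable (fun x => f x - ψ i x) := hfm.sub hψm
    have hDb : ∀ x, |f x - ψ i x| ≤ 1 + C := fun x =>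
      (abs_sub _ _).trans (add_le_add (hfb x) (hCb x))
    have hDint : Integrable (fun x => |f x - ψ i x|) u := (hfint.sub hψint).abs
    have hD : ∫ x, |f x - ψ i x| ∂u ≤ 2 * ε := by
      have h1 : ∀ x, |f x - ψ i x| ≤ ‖f x - g x‖ + ε := by
        intro x
        have h2 : f x - ψ i x = (f x - g x) + (g x - ψ i x) := by ring
        rw [h2]
        exact (abs_add_le _ _).trans (add_le_add le_rfl (hi x).le)
      have hfg : Integrable (fun x => ‖f x - g x‖) u := (hfint.sub hgi).norm
      have hce : Integrable (fun _ : X => ε) u := integrable_const ε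
      calc ∫ x, |f x - ψ i x| ∂u ≤ ∫ x, (‖f x - g x‖ + ε) ∂u :=
            integral_mono hDint (hfg.add hce) h1
        _ = ∫ x, ‖f x - g x‖ ∂u + ε := by
            rw [integral_add hfg hce]
            simp
        _ ≤ 2 * ε := by linarith
    have hψα : |∫ y, ψ i y ∂u - α| ≤ 2 * ε := by
      rw [← hfα, ← integral_sub hψint hfint]
      refine (abs_integral_le_integral_abs).trans ?_
      have h3 : (fun x => |ψ i x - f x|) = fun x => |f x - ψ i x| := by
        funext x
        rw [abs_sub_comm]
      rw [h3]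
      exact hD
    have hlim := (h i).const_add (4 * ε)
    rw [add_zero] at hlim
    refine ge_of_tendsto hlim ?_
    filter_upwards [hN] with k hk
    have hk' : ((N k : ℕ) : ℝ) ≠ 0 := by exact_mod_cast hk.ne'
    have havf : ∀ x, av T (N k) f x = f x := by
      intro x
      unfold av
      simp only [hfT, Finset.sum_const, Finset.card_range, nsmul_eq_mul]
      field_simp
    have havD : ∀ x, av T (N k) (fun x => f x - ψ i x) x = f x - av T (N k) (ψ i) x := by
      intro x
      rw [← havf x]
      unfold av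
      rw [Finset.sum_sub_distrib, sub_div]
    have hpt : ∀ x, |f x - α| ≤ |av T (N k) (fun x => f x - ψ i x) x| +
        (|av T (N k) (ψ i) x - ∫ y, ψ i y ∂u| + 2 * ε) := by
      intro x
      rw [havD x]
      have h4 : f x - α = (f x - av T (N k) (ψ i) x) + ((av T (N k) (ψ i) x - ∫ y, ψ i y ∂u) +
          (∫ y, ψ i y ∂u - α)) := by ring
      rw [h4]
      refine (abs_add_le _ _).trans (add_le_add le_rfl ?_)
      exact (abs_add_le _ _).trans (add_le_add le_rfl hψα)
    have hI1 : Integrable (fun x => |av T (N k) (fun x => f x - ψ i x) x|) u :=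
      (ea_int (av_measurable hT hDm (N k)) (C := 1 + C)
        fun x => av_le hDb (by linarith) (N k) x).abs
    have hI2 : Integrable (fun x => |av T (N k) (ψ i) x - ∫ y, ψ i y ∂u|) u :=
      ((ea_int (av_measurable hT hψm (N k)) (C := C) fun x => av_le hCb hC0 (N k) x).sub
        (integrable_const _)).abs
    have hI3 : Integrable (fun x => |f x - α|) u := (hfint.sub (integrable_const α)).abs
    have hce2 : Integrable (fun _ : X => 2 * ε) u := integrable_const _
    have hI4 : Integrable (fun x => |av T (N k) (ψ i) x - ∫ y, ψ i y ∂u| + 2 * ε) u :=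
      hI2.add hce2
    calc ∫ x, |f x - α| ∂u ≤ ∫ x, (|av T (N k) (fun x => f x - ψ i x) x| +
          (|av T (N k) (ψ i) x - ∫ y, ψ i y ∂u| + 2 * ε)) ∂u :=
          integral_mono hI3 (hI1.add hI4) hpt
      _ = ∫ x, |av T (N k) (fun x => f x - ψ i x) x| ∂u +
          (∫ x, |av T (N k) (ψ i) x - ∫ y, ψ i y ∂u| ∂u + 2 * ε) := by
          rw [integral_add hI1 hI4, integral_add hI2 hce2]
          simp
      _ ≤ 2 * ε + (∫ x, |av T (N k) (ψ i) x - ∫ y, ψ i y ∂u| ∂u + 2 * ε) := by
          have h5 := ea_av hinv hDm hDb (by linarith) hk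
          linarith
      _ = 4 * ε + ∫ x, |av T (N k) (ψ i) x - ∫ y, ψ i y ∂u| ∂u := by ring
  have hzero : ∫ x, |f x - α| ∂u ≤ 0 := by
    refine le_of_forall_pos_le_add fun ε hε => ?_
    have h6 := hmain (ε / 4) (by positivity)
    linarith
  have hα0 : 0 ≤ α := measureReal_nonneg
  have hα1 : α ≤ 1 := by
    rw [hα]
    exact measureReal_le_one
  have hval : ∫ x, |f x - α| ∂u = 2 * (α * (1 - α)) := by
    have h7 : (fun x => |f x - α|) = fun x => α + (1 - 2 * α) * f x := by
      funext x
      rw [hf]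
      by_cases hx : x ∈ A
      · rw [Set.indicator_of_mem hx, abs_of_nonneg (by linarith)]
        ring
      · rw [Set.indicator_of_notMem hx, zero_sub, abs_neg, abs_of_nonneg hα0]
        ring
    rw [h7, integral_add (integrable_const _) (hfint.const_mul _), integral_const_mul, hfα]
    simp
    ring
  rw [hval] at hzero
  have hor : α = 0 ∨ α = 1 := by
    have h8 : 0 ≤ α * (1 - α) := mul_nonneg hα0 (by linarith)
    have h9 : α * (1 - α) = 0 := by linarith
    rcases mul_eq_zero.mp h9 with h10 | h10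
    · exact Or.inl h10
    · exact Or.inr (by linarith)
  rw [Filter.eventuallyConst_set']
  rcases hor with h11 | h11
  · left
    rw [ae_eq_empty]
    exact (measureReal_eq_zero_iff).mp h11
  · right
    rw [ae_eq_univ]
    rw [prob_compl_eq_zero_iff hA]
    have h12 : (u A).toReal = 1 := h11
    exact (ENNReal.toReal_eq_one_iff _).mp h12

end RK
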