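import Pool.Agent.Helper90.RK.B04
import Pool.Agent.Helper90.RK.B01

/-!
# RK-B13: the averages of `ψ i` converge for the limit measure (about 200 lines)

Fix `i`, write `ψ = ψ i`, `A k = av T (s k).N ψ`, `m k = mixP (s k).c k`, and let `k > i`, `k ≥ 2`.
1. `∫ |A k - ∫ψ du| du ≤ ∫ |A k - ∫ψ dm_k| du + |∫ψ dm_k - ∫ψ du|`, the second term is `< 1/k` (`near`, `u ∈ (s k).O`).
2. `∫ |A k - ∫ψ dm_k| du < ∫ |A k - ∫ψ dm_k| dm_k + 1/k` (`avg`).
3. `∫ |A k - ∫ψ dm_k| dm_k = (1/k) ∑_{j<k} ∫ |A k - ∫ψ dm_k| dc_j` (`mix_integral`), and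
   `∫ |A k - ∫ψ dm_k| dc_j ≤ ∫ |A k - ∫ψ dc_j| dc_j + |∫ψ dc_j - ∫ψ dm_k| < 1/k + |∫ψ dc_j - ∫ψ du| + 1/k` (`large`, `near`).
4. The measure `c_j = (s k).c j` does not depend on `k > j`, `k ≥ 2` (`Next.agree`).  `b j = |∫ψ dc_j - ∫ψ du| → 0`: for `j > i`, `j ≥ 2`: `c_j = (s (j+1)).c j ∈ (s j).O` (`Next.new`) and
   `u ∈ (s j).O`, so `b j < 2/j` by `near` twice.
5. So `∫ |A k - ∫ψ du| du ≤ 4/k + (1/k) ∑_{j<k} b j → 0` (`Filter.Tendsto.cesaro`).
All functions are continuous on a compact space, so bounded and integrable for the probability measures.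
-/

namespace RK

open MeasureTheory Set Filter Topology

variable {X : Type*} [MetricSpace X] [CompactSpace X] [MeasurableSpace X] [BorelSpace X]
  {T : X → X} {φ : X → ℝ} {d : ℝ} {ψ : ℕ → X → ℝ}

omit [MetricSpace X] [CompactSpace X] [BorelSpace X] in
private theorem ca_int {ν : Measure X} [IsProbabilityMeasure ν] {g : X → ℝ}
    (hg : Measurable g) {C : ℝ} (hb : ∀ x, |g x| ≤ C) (a : ℝ) :
    Integrable (fun x => |g x - a|) ν := by
  have h1 : Integrable g ν := Integrable.of_bound hg.aestronglyMeasurable C (Eventually.of_forall hb)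
  exact (h1.sub (integrable_const a)).abs

omit [MetricSpace X] [CompactSpace X] [BorelSpace X] in
private theorem ca_shift {ν : Measure X} [IsProbabilityMeasure ν] {g : X → ℝ}
    (hg : Measurable g) {C : ℝ} (hb : ∀ x, |g x| ≤ C) (a b : ℝ) :
    ∫ x, |g x - a| ∂ν ≤ ∫ x, |g x - b| ∂ν + |b - a| := by
  have h1 : ∀ x, |g x - a| ≤ |g x - b| + |b - a| := by
    intro x
    have h2 : g x - a = (g x - b) + (b - a) := by ring
    rw [h2]
    exact abs_add_le _ _
  have hc : Integrable (fun _ : X => |b - a|) ν := integrable_const _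
  calc ∫ x, |g x - a| ∂ν ≤ ∫ x, (|g x - b| + |b - a|) ∂ν :=
        integral_mono (ca_int hg hb a) ((ca_int hg hb b).add hc) h1
    _ = ∫ x, |g x - b| ∂ν + |b - a| := by
        rw [integral_add (ca_int hg hb b) hc]
        simp

theorem avg_tendsto (hT : Continuous T) (hψ : ∀ i, Continuous (ψ i)) {C : ℕ}
    {u : ProbabilityMeasure X} {s : ℕ → St X}
    (h1 : ∀ k ≥ 2, Good T φ d ψ k (s k)) (h2 : ∀ k ≥ 2, Next T C k (s k) (s (k + 1)))
    (h3 : ∀ k ≥ 2, u ∈ (s k).O) (i : ℕ) :
    Tendsto (fun k => ∫ x, |av T (s k).N (ψ i) x - ∫ y, ψ i y ∂(u : Measure X)|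
      ∂(u : Measure X)) atTop (𝓝 0) := by
  have hψm : Measurable (ψ i) := (hψ i).measurable
  obtain ⟨C0, hCb⟩ : ∃ C0, ∀ x, |ψ i x| ≤ C0 := by
    obtain ⟨C0, hC⟩ := (isCompact_univ (X := X)).exists_bound_of_continuousOn
      (hψ i).continuousOn
    exact ⟨C0, fun x => hC x (Set.mem_univ x)⟩
  obtain ⟨x0⟩ : Nonempty X := nonempty_of_isProbabilityMeasure (u : Measure X)
  have hC0 : 0 ≤ C0 := (abs_nonneg _).trans (hCb x0)
  have hagree : ∀ j k, j + 1 ≤ k → 2 ≤ k → (s k).c j = (s (max (j + 1) 2)).c j := by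
    intro j k hjk hk
    have h4 : max (j + 1) 2 ≤ k := max_le hjk hk
    induction k, h4 using Nat.le_induction with
    | base => rfl
    | succ n hn ih =>
      have hn1 : j + 1 ≤ n := (le_max_left _ _).trans hn
      have hn2 : 2 ≤ n := (le_max_right _ _).trans hn
      rw [(h2 n hn2).agree j (by omega)]
      exact ih hn1 hn2
  set b : ℕ → ℝ := fun j => |∫ y, ψ i y ∂((s (max (j + 1) 2)).c j : Measure X) -
    ∫ y, ψ i y ∂(u : Measure X)| with hb
  have hb0 : Tendsto b atTop (𝓝 0) := by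
    refine squeeze_zero' (g := fun j : ℕ => (2 : ℝ) / j)
      (Eventually.of_forall fun j => abs_nonneg _) ?_ (tendsto_const_div_atTop_nhds_zero_nat 2)
    filter_upwards [eventually_ge_atTop (max 2 (i + 1))] with j hj
    have hj2 : 2 ≤ j := (le_max_left _ _).trans hj
    have hji : i < j := (le_max_right _ _).trans hj
    have hmax : max (j + 1) 2 = j + 1 := max_eq_left (by omega)
    have h4 := (h1 j hj2).near _ (h2 j hj2).new i hji
    have h5 := (h1 j hj2).near _ (h3 j hj2) i hji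
    rw [hb]
    show |∫ y, ψ i y ∂((s (max (j + 1) 2)).c j : Measure X) -
      ∫ y, ψ i y ∂(u : Measure X)| ≤ 2 / (j : ℝ)
    rw [hmax]
    have h6 : (2 : ℝ) / j = 1 / j + 1 / j := by ring
    rw [h6]
    rw [abs_lt] at h4 h5
    rw [abs_le]
    constructor <;> linarith [h4.1, h4.2, h5.1, h5.2]
  have hces := hb0.cesaro
  have h4k : Tendsto (fun k : ℕ => (4 : ℝ) / k) atTop (𝓝 0) :=
    tendsto_const_div_atTop_nhds_zero_nat 4
  have hsum := h4k.add hces
  rw [add_zero] at hsum
  refine squeeze_zero' (Eventually.of_forall fun k => integral_nonneg fun x => abs_nonneg _)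
    ?_ hsum
  filter_upwards [eventually_ge_atTop (max 2 (i + 1))] with k hk
  have hk2 : 2 ≤ k := (le_max_left _ _).trans hk
  have hki : i < k := (le_max_right _ _).trans hk
  have hkpos : (0 : ℝ) < k := by
    have : 0 < k := by omega
    exact_mod_cast this
  set A := av T (s k).N (ψ i) with hA
  have hAm : Measurable A := av_measurable hT.measurable hψm _
  have hAb : ∀ x, |A x| ≤ C0 := fun x => av_le hCb hC0 _ x
  set m := mixP (s k).c k with hm
  set a := ∫ y, ψ i y ∂(m : Measure X) with ha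
  set au := ∫ y, ψ i y ∂(u : Measure X) with hau
  have hnear : |au - a| < 1 / k := (h1 k hk2).near u (h3 k hk2) i hki
  have hs1 := ca_shift (ν := (u : Measure X)) hAm hAb au a
  have hs2 : ∫ x, |A x - a| ∂(u : Measure X) < ∫ x, |A x - a| ∂(m : Measure X) + 1 / k :=
    (h1 k hk2).avg u (h3 k hk2) i hki
  have hs3 : ∫ x, |A x - a| ∂(m : Measure X) =
      (∑ j ∈ Finset.range k, ∫ x, |A x - a| ∂((s k).c j : Measure X)) / k := by
    refine mix_integral (by omega) ((hAm.sub measurable_const).abs) (C := C0 + |a|) fun x => ?_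
    rw [abs_abs]
    exact (abs_sub _ _).trans (add_le_add (hAb x) le_rfl)
  have hs4 : ∀ j ∈ Finset.range k, ∫ x, |A x - a| ∂((s k).c j : Measure X) ≤
      1 / k + (b j + 1 / k) := by
    intro j hj
    rw [Finset.mem_range] at hj
    have h5 := ca_shift (ν := ((s k).c j : Measure X)) hAm hAb a
      (∫ y, ψ i y ∂((s k).c j : Measure X))
    have h6 := (h1 k hk2).large j hj i hki
    have h7 : |∫ y, ψ i y ∂((s k).c j : Measure X) - a| ≤ b j + 1 / k := by
      have h8 : ∫ y, ψ i y ∂((s k).c j : Measure X) - a =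
          (∫ y, ψ i y ∂((s k).c j : Measure X) - au) + (au - a) := by ring
      rw [h8]
      refine (abs_add_le _ _).trans (add_le_add ?_ hnear.le)
      rw [hagree j k (by omega) hk2]
    have h9 : ∫ x, |A x - ∫ y, ψ i y ∂((s k).c j : Measure X)| ∂((s k).c j : Measure X) <
        1 / k := h6
    linarith
  have hs5 : ∫ x, |A x - a| ∂(m : Measure X) ≤ 2 / k + (k : ℝ)⁻¹ * ∑ j ∈ Finset.range k, b j := by
    rw [hs3]
    have h10 := Finset.sum_le_sum hs4
    have h11 : ∑ j ∈ Finset.range k, (1 / (k : ℝ) + (b j + 1 / k)) =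
        2 + ∑ j ∈ Finset.range k, b j := by
      rw [Finset.sum_add_distrib, Finset.sum_add_distrib, Finset.sum_const, Finset.card_range,
        nsmul_eq_mul]
      field_simp
      ring
    rw [h11] at h10
    calc (∑ j ∈ Finset.range k, ∫ x, |A x - a| ∂((s k).c j : Measure X)) / k ≤
          (2 + ∑ j ∈ Finset.range k, b j) / k := div_le_div_of_nonneg_right h10 hkpos.le
      _ = 2 / k + (k : ℝ)⁻¹ * ∑ j ∈ Finset.range k, b j := by ring
  have hs6 : |a - au| < 1 / k := by
    rw [abs_sub_comm]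
    exact hnear
  have h12 : (4 : ℝ) / k = 1 / k + 1 / k + 2 / k := by ring
  rw [h12]
  linarith

end RK
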