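import Pool.Agent.Helper90.RK.BDefs

/-!
# RK-B14: one tower (about 150 lines)

* `col_iter`: induction on `s`: `T^[s+1]⁻¹' (L (p+s+1)) = T^[s]⁻¹' (T⁻¹' (L (p+s+1)))` a.e. equals `T^[s]⁻¹' (L (p+s))`
  (`T^[s]` is measure preserving, so quasi measure preserving: `preimage_ae_eq`).
* `col_move`: `L (p+s) ∩ F`, preimage under `T^[s]`: `u.real (L (p+s) ∩ F) = u.real (T^[s]⁻¹' (L (p+s) ∩ F)) = u.real (L p ∩ T^[s]⁻¹' F)`
  (`MeasurePreserving.measure_preimage` for null measurable sets).
* `col_real`: `p = 0`, `F = univ`.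
* `col_sum_le`: disjoint null measurable sets.  `col_sum_ge`: `F ⊆ ⋃ (L i ∩ F) ∪ rest`.
-/

namespace RK

open MeasureTheory Set Filter Topology

/-- one tower of height `n` -/
structure Col {X : Type*} [MeasurableSpace X] (T : X → X) (u : Measure X) (n : ℕ)
    (L : ℕ → Set X) : Prop where
  pos : 0 < n
  meas : ∀ i < n, NullMeasurableSet (L i) u
  disj : ∀ i < n, ∀ j < n, i ≠ j → Disjoint (L i) (L j)
  step : ∀ i, i + 1 < n → T ⁻¹' (L (i + 1)) =ᵐ[u] L i

variable {X : Type*} [MeasurableSpace X] {T : X → X} {u : Measure X} [IsProbabilityMeasure u]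
  {n : ℕ} {L : ℕ → Set X}

theorem col_iter (hinv : MeasurePreserving T u u) (h : Col T u n L) (s p : ℕ) (hp : p + s < n) :
    T^[s] ⁻¹' (L (p + s)) =ᵐ[u] L p := by
  induction s with
  | zero => exact Filter.EventuallyEq.refl _ _
  | succ s ih =>
    have h1 : T^[s + 1] ⁻¹' (L (p + (s + 1))) = T^[s] ⁻¹' (T ⁻¹' (L (p + s + 1))) := by
      rw [Function.iterate_succ', Set.preimage_comp, Nat.add_assoc]
    rw [h1]
    have h2 := (hinv.iterate s).quasiMeasurePreserving.preimage_ae_eq
      (h.step (p + s) (by omega))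
    exact h2.trans (ih (by omega))

theorem col_move (hinv : MeasurePreserving T u u) (h : Col T u n L) {s p : ℕ} (hp : p + s < n)
    {F : Set X} (hF : MeasurableSet F) :
    u.real (L (p + s) ∩ F) = u.real (L p ∩ T^[s] ⁻¹' F) := by
  have h1 := (hinv.iterate s).measure_preimage
    ((h.meas (p + s) hp).inter hF.nullMeasurableSet)
  have h2 : T^[s] ⁻¹' (L (p + s) ∩ F) =ᵐ[u] (L p ∩ T^[s] ⁻¹' F : Set X) := by
    rw [Set.preimage_inter]
    exact (col_iter hinv h s p hp).inter (Filter.EventuallyEq.refl _ _)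
  unfold Measure.real
  rw [← h1, measure_congr h2]

theorem col_real (hinv : MeasurePreserving T u u) (h : Col T u n L) {i : ℕ} (hi : i < n) :
    u.real (L i) = u.real (L 0) := by
  have h1 := col_move hinv h (s := i) (p := 0) (by omega) MeasurableSet.univ
  rw [Set.preimage_univ, Set.inter_univ, Set.inter_univ, Nat.zero_add] at h1
  exact h1

theorem col_sum_eq (h : Col T u n L) {F : Set X} (hF : MeasurableSet F) :
    ∑ i ∈ Finset.range n, u.real (L i ∩ F) = u.real (⋃ i ∈ Finset.range n, L i ∩ F) := by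
  have hd : (↑(Finset.range n) : Set ℕ).Pairwise (Function.onFun (AEDisjoint u)
      (fun i => L i ∩ F)) := by
    intro i hi j hj hij
    have hi' : i < n := by simpa using hi
    have hj' : j < n := by simpa using hj
    exact (Disjoint.mono Set.inter_subset_left Set.inter_subset_left
      (h.disj i hi' j hj' hij)).aedisjoint
  have hm : ∀ i ∈ Finset.range n, NullMeasurableSet (L i ∩ F) u := by
    intro i hi
    exact (h.meas i (Finset.mem_range.1 hi)).inter hF.nullMeasurableSet
  have h1 := measure_biUnion_finset₀ hd hm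
  unfold Measure.real
  rw [h1, ENNReal.toReal_sum]
  intro i _
  exact measure_ne_top _ _

theorem col_sum_le (h : Col T u n L) {F : Set X} (hF : MeasurableSet F) :
    ∑ i ∈ Finset.range n, u.real (L i ∩ F) ≤ u.real F := by
  rw [col_sum_eq h hF]
  refine measureReal_mono ?_
  intro x hx
  simp only [Set.mem_iUnion] at hx
  obtain ⟨i, _, hx⟩ := hx
  exact hx.2

theorem col_sum_ge (h : Col T u n L) {F : Set X} (hF : MeasurableSet F) {ε : ℝ}
    (hε : u.real {x | ∀ i < n, x ∉ L i} ≤ ε) :
    u.real F - ε ≤ ∑ i ∈ Finset.range n, u.real (L i ∩ F) := by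
  rw [col_sum_eq h hF]
  have h1 : F ⊆ (⋃ i ∈ Finset.range n, L i ∩ F) ∪ {x | ∀ i < n, x ∉ L i} := by
    intro x hx
    by_cases hx2 : ∀ i < n, x ∉ L i
    · exact Or.inr hx2
    · left
      push Not at hx2
      obtain ⟨i, hi, hxi⟩ := hx2
      simp only [Set.mem_iUnion]
      exact ⟨i, Finset.mem_range.2 hi, hxi, hx⟩
  have h2 : u.real F ≤ u.real (⋃ i ∈ Finset.range n, L i ∩ F) +
      u.real {x | ∀ i < n, x ∉ L i} :=
    (measureReal_mono h1).trans (measureReal_union_le _ _)
  linarith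

theorem col_total (hinv : MeasurePreserving T u u) (h : Col T u n L) {ε : ℝ}
    (hε : u.real {x | ∀ i < n, x ∉ L i} ≤ ε) :
    n * u.real (L 0) ≤ 1 ∧ 1 - ε ≤ n * u.real (L 0) := by
  have h0 : ∑ i ∈ Finset.range n, u.real (L i ∩ Set.univ) = n * u.real (L 0) := by
    rw [Finset.sum_congr rfl (g := fun _ => u.real (L 0))]
    · rw [Finset.sum_const, Finset.card_range, nsmul_eq_mul]
    · intro i hi
      rw [Set.inter_univ]
      exact col_real hinv h (Finset.mem_range.1 hi)
  have h1 := col_sum_le (u := u) h MeasurableSet.univ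
  have h2 := col_sum_ge (u := u) h MeasurableSet.univ hε
  rw [h0] at h1 h2
  have h3 : u.real Set.univ = 1 := probReal_univ
  rw [h3] at h1 h2
  exact ⟨h1, h2⟩

end RK
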