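import Pool.Agent.Helper90.RK.B14

/-!
# RK-B15: two separated sets in one tower (about 200 lines)

For `p ≤ n - N` and `z ∈ L p` put `v p z = (1/N) ∑_{i<N} |φ (T^i z) - a (p+i)|`.
1. `∫_{L p} |φ (T^i z) - a (p+i)| du(z) = ∫_{L (p+i)} |φ - a (p+i)| du` as `L p = T^-i L (p+i)` a.e. (`col_iter`) and `T^i` preserves `u`.
   The right side is `≤ ω u(L (p+i)) + u(L (p+i) ∩ Yᶜ)` (`|φ - a| ≤ 1`).
2. Sum over `p < n + 1 - N` and average over `i < N`: `∑_p ∫_{L p} v p du ≤ ω + ε` (for fixed `i` the sets `L (p+i)` are disjoint, of total mass `≤ 1`, and their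
   intersections with `Yᶜ` have total mass `≤ ε`).
3. For `z ∈ L p ∩ F`, `z' ∈ L p ∩ F'`: `ρ ≤ od T φ N z z' ≤ v p z + v p z'`.  So either `v p ≥ ρ/2` on all of `L p ∩ F` or `v p ≥ ρ/2` on all of
   `L p ∩ F'`; so `∫_{L p} v p du ≥ (ρ/2) min (u(L p ∩ F)) (u(L p ∩ F'))`.
4. Together: the claim.
-/

namespace RK

open MeasureTheory Set Filter Topology

variable {X : Type*} [MeasurableSpace X] {T : X → X} {u : Measure X} [IsProbabilityMeasure u]
  {n : ℕ} {L : ℕ → Set X}

theorem tower_B (hinv : MeasurePreserving T u u) (h : Col T u n L) {g : X → ℝ}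
    (hg : Measurable g) {p i : ℕ} (hpi : p + i < n) :
    ∫ z in L p, g (T^[i] z) ∂u = ∫ z in L (p + i), g z ∂u := by
  have hTi : MeasurePreserving T^[i] u u := hinv.iterate i
  have h1 : NullMeasurableSet (L (p + i)) u := h.meas _ hpi
  have h2 : NullMeasurableSet (L p) u := h.meas _ (by omega)
  have h3 := col_iter hinv h i p hpi
  rw [← integral_indicator₀ h1]
  have h4 : AEStronglyMeasurable ((L (p + i)).indicator g) (Measure.map T^[i] u) := by
    rw [hTi.map_eq]
    exact hg.aestronglyMeasurable.indicator₀ h1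
  have h5 := integral_map hTi.measurable.aemeasurable h4
  rw [hTi.map_eq] at h5
  rw [h5, ← setIntegral_congr_set h3, ← integral_indicator₀ (h1.preimage
    hTi.quasiMeasurePreserving)]
  rfl

theorem tower_A (h : Col T u n L) {φ : X → ℝ} (hφm : Measurable φ)
    (hφ : ∀ x, φ x ∈ Icc (0 : ℝ) 1) {Y : Set X} (hY : MeasurableSet Y) {ω : ℝ} (hω : 0 ≤ ω)
    {b : ℝ} (hb : b ∈ Icc (0 : ℝ) 1) {j : ℕ} (hj : j < n)
    (hbY : ∀ x ∈ L j ∩ Y, |φ x - b| ≤ ω) :
    ∫ z in L j, |φ z - b| ∂u ≤ ω * u.real (L j) + u.real (L j ∩ Yᶜ) := by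
  have h1 : NullMeasurableSet (L j) u := h.meas _ hj
  have h2 : Integrable (fun z => |φ z - b|) (u.restrict (L j)) := by
    refine Integrable.of_bound ((hφm.sub_const b).abs.aestronglyMeasurable) 1
      (Filter.Eventually.of_forall fun z => ?_)
    rw [Real.norm_eq_abs, abs_abs, abs_le]
    have := hφ z
    constructor <;> linarith [this.1, this.2, hb.1, hb.2]
  have h3 : Integrable (fun z => ω + Yᶜ.indicator (fun _ => (1 : ℝ)) z) (u.restrict (L j)) :=
    (integrable_const _).add ((integrable_const _).indicator hY.compl)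
  have h4 : ∫ z in L j, |φ z - b| ∂u ≤
      ∫ z in L j, (ω + Yᶜ.indicator (fun _ => (1 : ℝ)) z) ∂u := by
    apply integral_mono_ae h2 h3
    filter_upwards [ae_restrict_mem₀ h1] with z hz
    by_cases hzY : z ∈ Y
    · rw [indicator_of_notMem (by simpa using hzY), add_zero]
      exact hbY z ⟨hz, hzY⟩
    · rw [indicator_of_mem (by simpa using hzY)]
      have := hφ z
      rw [abs_le]
      constructor <;> linarith [this.1, this.2, hb.1, hb.2]
  refine h4.trans (le_of_eq ?_)
  rw [integral_add (integrable_const _) ((integrable_const _).indicator hY.compl),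
    integral_indicator hY.compl, Measure.restrict_restrict hY.compl]
  simp only [integral_const, smul_eq_mul, mul_one, measureReal_restrict_apply_univ]
  rw [mul_comm, inter_comm]

theorem tower_min (hinv : MeasurePreserving T u u) (h : Col T u n L) {φ : X → ℝ}
    (hφm : Measurable φ) (hφ : ∀ x, φ x ∈ Icc (0 : ℝ) 1) {N : ℕ} (hN : 0 < N) (hNn : N ≤ n)
    {F F' : Set X} (hF : MeasurableSet F) (hF' : MeasurableSet F') {ρ : ℝ} (hρ : 0 < ρ)
    (hsep : ∀ x ∈ F, ∀ y ∈ F', ρ ≤ od T φ N x y) {Y : Set X} (hY : NullMeasurableSet Y u)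
    {ε ω : ℝ} (hω : 0 ≤ ω) (hYε : u.real Yᶜ ≤ ε) {a : ℕ → ℝ} (ha : ∀ i < n, a i ∈ Icc (0 : ℝ) 1)
    (haY : ∀ i < n, ∀ x ∈ L i ∩ Y, |φ x - a i| ≤ ω) :
    ∑ p ∈ Finset.range (n + 1 - N), min (u.real (L p ∩ F)) (u.real (L p ∩ F')) ≤
      2 / ρ * (ω + ε) := by
  obtain ⟨Y', hYs, hYm, hYae⟩ := hY.exists_measurable_subset_ae_eq
  have hYε' : u.real Y'ᶜ ≤ ε := by
    rw [measureReal_congr hYae.compl]
    exact hYε
  have hN' : (0 : ℝ) < N := by exact_mod_cast hN
  obtain ⟨g, hg⟩ : ∃ g : ℕ → X → ℝ, g = fun j x => |φ x - a j| := ⟨_, rfl⟩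
  have hgm : ∀ j, Measurable (g j) := by
    intro j
    rw [hg]
    exact (hφm.sub_const _).abs
  have hg0 : ∀ j x, 0 ≤ g j x := by
    intro j x
    rw [hg]
    exact abs_nonneg _
  have hg1 : ∀ j < n, ∀ x, g j x ≤ 1 := by
    intro j hj x
    rw [hg]
    have h1 := hφ x
    have h2 := ha j hj
    simp only
    rw [abs_le]
    constructor <;> linarith [h1.1, h1.2, h2.1, h2.2]
  have hTi : ∀ i, MeasurePreserving T^[i] u u := hinv.iterate
  have hint : ∀ j < n, ∀ i, Integrable (fun z => g j (T^[i] z)) u := by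
    intro j hj i
    refine Integrable.of_bound (((hgm j).comp (hTi i).measurable).aestronglyMeasurable) 1
      (Filter.Eventually.of_forall fun z => ?_)
    rw [Real.norm_eq_abs, abs_of_nonneg (hg0 _ _)]
    exact hg1 j hj _
  obtain ⟨v, hv⟩ : ∃ v : ℕ → X → ℝ,
      v = fun p z => (∑ i ∈ Finset.range N, g (p + i) (T^[i] z)) / N := ⟨_, rfl⟩
  have hv0 : ∀ p z, 0 ≤ v p z := by
    intro p z
    rw [hv]
    exact div_nonneg (Finset.sum_nonneg fun i _ => hg0 _ _) hN'.le
  have hvint : ∀ p < n + 1 - N, Integrable (v p) u := by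
    intro p hp
    rw [hv]
    refine Integrable.div_const (integrable_finsetSum _ fun i hi => ?_) _
    rw [Finset.mem_range] at hi
    exact hint _ (by omega) _
  -- the upper bound
  have hup : ∀ p < n + 1 - N, ∫ z in L p, v p z ∂u ≤
      (∑ i ∈ Finset.range N, (ω * u.real (L (p + i)) + u.real (L (p + i) ∩ Y'ᶜ))) / N := by
    intro p hp
    have h1 : ∫ z in L p, v p z ∂u =
        (∑ i ∈ Finset.range N, ∫ z in L p, g (p + i) (T^[i] z) ∂u) / N := by
      rw [hv]
      simp only
      rw [integral_div, integral_finsetSum]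
      intro i hi
      rw [Finset.mem_range] at hi
      exact (hint _ (by omega) _).integrableOn
    rw [h1]
    apply div_le_div_of_nonneg_right _ hN'.le
    apply Finset.sum_le_sum
    intro i hi
    rw [Finset.mem_range] at hi
    rw [tower_B hinv h (hgm (p + i)) (by omega : p + i < n), hg]
    exact tower_A h hφm hφ hYm hω (ha _ (by omega)) (by omega)
      (fun x hx => haY _ (by omega) x ⟨hx.1, hYs hx.2⟩)
  have hsum : ∑ p ∈ Finset.range (n + 1 - N), ∫ z in L p, v p z ∂u ≤ ω + ε := by
    refine (Finset.sum_le_sum fun p hp => hup p (Finset.mem_range.1 hp)).trans ?_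
    rw [← Finset.sum_div, Finset.sum_comm, div_le_iff₀ hN']
    have h1 : ∀ i ∈ Finset.range N, ∑ p ∈ Finset.range (n + 1 - N),
        (ω * u.real (L (p + i)) + u.real (L (p + i) ∩ Y'ᶜ)) ≤ ω + ε := by
      intro i hi
      rw [Finset.mem_range] at hi
      have h2 : ∑ p ∈ Finset.range (n + 1 - N),
          (ω * u.real (L (p + i)) + u.real (L (p + i) ∩ Y'ᶜ)) ≤
          ∑ j ∈ Finset.range n, (ω * u.real (L j) + u.real (L j ∩ Y'ᶜ)) := by
        have h3 : ∑ p ∈ Finset.range (n + 1 - N),
            (ω * u.real (L (p + i)) + u.real (L (p + i) ∩ Y'ᶜ)) =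
            ∑ j ∈ (Finset.range (n + 1 - N)).image (fun p => p + i),
              (ω * u.real (L j) + u.real (L j ∩ Y'ᶜ)) := by
          rw [Finset.sum_image]
          intro x _ y _ hxy
          simpa using hxy
        rw [h3]
        apply Finset.sum_le_sum_of_subset_of_nonneg
        · intro j hj
          rw [Finset.mem_image] at hj
          obtain ⟨p, hp, rfl⟩ := hj
          rw [Finset.mem_range] at hp ⊢
          omega
        · intro j _ _
          positivity
      refine h2.trans ?_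
      rw [Finset.sum_add_distrib, ← Finset.mul_sum]
      have h4 := col_sum_le h (F := univ) MeasurableSet.univ
      simp only [inter_univ, probReal_univ] at h4
      have h5 := col_sum_le h (F := Y'ᶜ) hYm.compl
      have h6 := mul_le_mul_of_nonneg_left h4 hω
      linarith
    have h7 := Finset.sum_le_sum h1
    rw [Finset.sum_const, Finset.card_range, nsmul_eq_mul] at h7
    linarith
  -- the lower bound
  have hlow : ∀ p < n + 1 - N, ρ / 2 * min (u.real (L p ∩ F)) (u.real (L p ∩ F')) ≤
      ∫ z in L p, v p z ∂u := by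
    intro p hp
    have hLp : NullMeasurableSet (L p) u := h.meas _ (by omega)
    have key : ∀ A : Set X, MeasurableSet A → (∀ z ∈ L p ∩ A, ρ / 2 ≤ v p z) →
        ρ / 2 * u.real (L p ∩ A) ≤ ∫ z in L p, v p z ∂u := by
      intro A hA hz
      have h1 : NullMeasurableSet (L p ∩ A) u := hLp.inter hA.nullMeasurableSet
      have h2 : ρ / 2 * u.real (L p ∩ A) = ∫ _ in L p ∩ A, ρ / 2 ∂u := by
        rw [integral_const, smul_eq_mul, measureReal_restrict_apply_univ, mul_comm]
      rw [h2]
      have h3 : ∫ _ in L p ∩ A, ρ / 2 ∂u ≤ ∫ z in L p ∩ A, v p z ∂u := by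
        apply integral_mono_ae (integrable_const _) (hvint p hp).integrableOn
        filter_upwards [ae_restrict_mem₀ h1] with z hz2
        exact hz z hz2
      refine h3.trans ?_
      apply setIntegral_mono_set (hvint p hp).integrableOn
      · exact Filter.Eventually.of_forall fun z => hv0 p z
      · exact Filter.Eventually.of_forall fun z hz2 => hz2.1
    have htri : ∀ z z', od T φ N z z' ≤ v p z + v p z' := by
      intro z z'
      rw [hv]
      unfold od
      simp only
      rw [← add_div, ← Finset.sum_add_distrib]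
      apply div_le_div_of_nonneg_right _ hN'.le
      apply Finset.sum_le_sum
      intro i _
      rw [hg]
      simp only
      have h8 := abs_sub_le (φ (T^[i] z)) (a (p + i)) (φ (T^[i] z'))
      rw [abs_sub_comm (a (p + i))] at h8
      exact h8
    by_cases hall : ∀ z ∈ L p ∩ F, ρ / 2 ≤ v p z
    · refine le_trans ?_ (key F hF hall)
      exact mul_le_mul_of_nonneg_left (min_le_left _ _) (by linarith)
    · push Not at hall
      obtain ⟨z, hz, hz2⟩ := hall
      refine le_trans ?_ (key F' hF' fun z' hz' => ?_)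
      · exact mul_le_mul_of_nonneg_left (min_le_right _ _) (by linarith)
      · have h1 := (hsep z hz.2 z' hz'.2).trans (htri z z')
        linarith
  have hfin : ρ / 2 * ∑ p ∈ Finset.range (n + 1 - N),
      min (u.real (L p ∩ F)) (u.real (L p ∩ F')) ≤ ω + ε := by
    rw [Finset.mul_sum]
    exact (Finset.sum_le_sum fun p hp => hlow p (Finset.mem_range.1 hp)).trans hsum
  have h9 : 0 < 2 / ρ := by positivity
  have h10 := mul_le_mul_of_nonneg_left hfin h9.le
  have h11 : 2 / ρ * (ρ / 2 * ∑ p ∈ Finset.range (n + 1 - N),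
      min (u.real (L p ∩ F)) (u.real (L p ∩ F'))) = ∑ p ∈ Finset.range (n + 1 - N),
      min (u.real (L p ∩ F)) (u.real (L p ∩ F')) := by
    field_simp
  rw [h11] at h10
  exact h10

end RK
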