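import Pool.Agent.Helper90.RK.B14

/-!
# RK-B16: persistence in one tower, and a sum over pairs (about 100 lines)

`tower_pers`: for `p + s < n`, `u(L (p+s) ∩ F) = u(L p ∩ T^-s F)` (`col_move`), and `L p ∩ T^-s F` and `L p ∩ F` differ only inside `L p ∩ Bᶜ`, so the difference is at
most `u(L p ∩ Bᶜ)`; sum over `p` (`col_sum_le` for `Bᶜ`).
`pair_sum`: `∑_{p,q<n} e p * e' q - n ∑_p e p * e' p = ∑_{p,q} e p * (e' q - e' p) ≤ ∑_{p,q} |e' q - e' p| = 2 ∑_{0<s<n} ∑_{p<n-s} |e' (p+s) - e' p| ≤ 2 n D`.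
-/

namespace RK

open MeasureTheory Set Filter Topology

theorem tower_pers {X : Type*} [MeasurableSpace X] {T : X → X} {u : Measure X}
    [IsProbabilityMeasure u] {n : ℕ} {L : ℕ → Set X} (hinv : MeasurePreserving T u u)
    (h : Col T u n L) {F B : Set X} (hF : MeasurableSet F) (hB : MeasurableSet B) {s : ℕ}
    (hs : s < n) (hFB : ∀ x ∈ B, (x ∈ F ↔ T^[s] x ∈ F)) :
    ∑ p ∈ Finset.range (n - s), |u.real (L (p + s) ∩ F) - u.real (L p ∩ F)| ≤ u.real Bᶜ := by
  have h1 : ∀ p ∈ Finset.range (n - s),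
      |u.real (L (p + s) ∩ F) - u.real (L p ∩ F)| ≤ u.real (L p ∩ Bᶜ) := by
    intro p hp
    have hp' : p + s < n := by
      have := Finset.mem_range.mp hp
      omega
    rw [col_move hinv h hp' hF]
    have a1 : u.real (L p ∩ T^[s] ⁻¹' F) ≤ u.real (L p ∩ F) + u.real (L p ∩ Bᶜ) := by
      refine (measureReal_mono ?_).trans (measureReal_union_le _ _)
      rintro x ⟨hx, hx2⟩
      by_cases hb : x ∈ B
      · exact Or.inl ⟨hx, (hFB x hb).mpr hx2⟩
      · exact Or.inr ⟨hx, hb⟩
    have a2 : u.real (L p ∩ F) ≤ u.real (L p ∩ T^[s] ⁻¹' F) + u.real (L p ∩ Bᶜ) := by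
      refine (measureReal_mono ?_).trans (measureReal_union_le _ _)
      rintro x ⟨hx, hx2⟩
      by_cases hb : x ∈ B
      · exact Or.inl ⟨hx, (hFB x hb).mp hx2⟩
      · exact Or.inr ⟨hx, hb⟩
    rw [abs_le]
    constructor <;> linarith
  refine (Finset.sum_le_sum h1).trans ?_
  refine le_trans ?_ (col_sum_le h hB.compl)
  refine Finset.sum_le_sum_of_subset_of_nonneg ?_ fun i _ _ => measureReal_nonneg
  exact Finset.range_mono (Nat.sub_le _ _)

private theorem half_sum (n : ℕ) (e' : ℕ → ℝ) :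
    ∑ m ∈ Finset.range n, ∑ k ∈ Finset.range (m + 1), |e' m - e' k| =
      ∑ s ∈ Finset.range n, ∑ p ∈ Finset.range (n - s), |e' (p + s) - e' p| := by
  have h1 := Finset.sum_range_diag_flip n (fun p s => |e' (p + s) - e' p|)
  have h2 : ∑ m ∈ Finset.range n, ∑ k ∈ Finset.range (m + 1), |e' m - e' k| =
      ∑ m ∈ Finset.range n, ∑ k ∈ Finset.range (m + 1), |e' (k + (m - k)) - e' k| := by
    refine Finset.sum_congr rfl fun m _ => Finset.sum_congr rfl fun k hk => ?_
    have : k + (m - k) = m := by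
      have := Finset.mem_range.mp hk
      omega
    rw [this]
  rw [h2, h1]
  refine Finset.sum_comm' ?_
  intro x y
  simp only [Finset.mem_range]
  omega

private theorem full_sum (n : ℕ) (e' : ℕ → ℝ) :
    ∑ p ∈ Finset.range n, ∑ q ∈ Finset.range n, |e' q - e' p| ≤
      2 * ∑ m ∈ Finset.range n, ∑ k ∈ Finset.range (m + 1), |e' m - e' k| := by
  have hA : ∑ p ∈ Finset.range n, ∑ q ∈ Finset.range n, (if q ≤ p then |e' p - e' q| else 0) =
      ∑ m ∈ Finset.range n, ∑ k ∈ Finset.range (m + 1), |e' m - e' k| := by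
    refine Finset.sum_congr rfl fun p hp => ?_
    rw [← Finset.sum_filter]
    refine Finset.sum_congr ?_ fun _ _ => rfl
    ext q
    have := Finset.mem_range.mp hp
    simp only [Finset.mem_filter, Finset.mem_range]
    omega
  have hB : ∑ p ∈ Finset.range n, ∑ q ∈ Finset.range n, (if p ≤ q then |e' q - e' p| else 0) =
      ∑ m ∈ Finset.range n, ∑ k ∈ Finset.range (m + 1), |e' m - e' k| := by
    rw [Finset.sum_comm]
    exact hA
  rw [two_mul]
  nth_rewrite 1 [← hA]
  rw [← hB, ← Finset.sum_add_distrib]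
  refine Finset.sum_le_sum fun p _ => ?_
  rw [← Finset.sum_add_distrib]
  refine Finset.sum_le_sum fun q _ => ?_
  rcases le_total p q with hpq | hpq
  · rw [if_pos hpq]
    have : (0 : ℝ) ≤ if q ≤ p then |e' p - e' q| else 0 := by
      split_ifs
      · exact abs_nonneg _
      · exact le_rfl
    linarith
  · rw [if_pos hpq, abs_sub_comm (e' p) (e' q)]
    have : (0 : ℝ) ≤ if p ≤ q then |e' q - e' p| else 0 := by
      split_ifs
      · exact abs_nonneg _
      · exact le_rfl
    linarith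

theorem pair_sum {n : ℕ} {e e' : ℕ → ℝ} (h0 : ∀ p < n, 0 ≤ e p) (h1 : ∀ p < n, e p ≤ 1) {D : ℝ}
    (hD : ∀ s < n, ∑ p ∈ Finset.range (n - s), |e' (p + s) - e' p| ≤ D) :
    (∑ p ∈ Finset.range n, e p) * (∑ q ∈ Finset.range n, e' q) ≤
      n * ∑ p ∈ Finset.range n, e p * e' p + 2 * n * D := by
  have a1 : (∑ p ∈ Finset.range n, e p) * (∑ q ∈ Finset.range n, e' q) =
      n * ∑ p ∈ Finset.range n, e p * e' p +
        ∑ p ∈ Finset.range n, ∑ q ∈ Finset.range n, e p * (e' q - e' p) := by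
    rw [Finset.sum_mul_sum, Finset.mul_sum, ← Finset.sum_add_distrib]
    refine Finset.sum_congr rfl fun p _ => ?_
    have : (n : ℝ) * (e p * e' p) = ∑ q ∈ Finset.range n, e p * e' p := by
      rw [Finset.sum_const, Finset.card_range, nsmul_eq_mul]
    rw [this, ← Finset.sum_add_distrib]
    refine Finset.sum_congr rfl fun q _ => ?_
    ring
  have a2 : ∑ p ∈ Finset.range n, ∑ q ∈ Finset.range n, e p * (e' q - e' p) ≤
      ∑ p ∈ Finset.range n, ∑ q ∈ Finset.range n, |e' q - e' p| := by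
    refine Finset.sum_le_sum fun p hp => Finset.sum_le_sum fun q _ => ?_
    have hp' := Finset.mem_range.mp hp
    calc e p * (e' q - e' p) ≤ |e p * (e' q - e' p)| := le_abs_self _
      _ = |e p| * |e' q - e' p| := abs_mul _ _
      _ ≤ 1 * |e' q - e' p| := by
        refine mul_le_mul_of_nonneg_right ?_ (abs_nonneg _)
        rw [abs_of_nonneg (h0 p hp')]
        exact h1 p hp'
      _ = |e' q - e' p| := one_mul _
  have a3 : ∑ s ∈ Finset.range n, ∑ p ∈ Finset.range (n - s), |e' (p + s) - e' p| ≤ n * D := by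
    refine (Finset.sum_le_sum fun s hs => hD s (Finset.mem_range.mp hs)).trans ?_
    rw [Finset.sum_const, Finset.card_range, nsmul_eq_mul]
  have a4 := full_sum n e'
  rw [half_sum] at a4
  rw [a1]
  linarith

end RK
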