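import Pool.Agent.Helper90.RK.B15
import Pool.Agent.Helper90.RK.B16

/-!
# RK-B17: the contradiction in one tower (about 200 lines)

`F = ⋃ {G k j | 2 j < k}`, `F' = ⋃ {G k j | k ≤ 2 j, j < k}`.  The sets `G k j` are pairwise disjoint (`sep` and `od z z = 0 < ρ`).
* `u(F) ≥ ⌈k/2⌉ (1 - eta k)/k ≥ 49/100`, `u(F') ≥ ⌊k/2⌋ (1 - eta k)/k ≥ 49/100` for `k ≥ 400`.
* `β = u(L 0)`, `n β ≤ 1`, `n β ≥ 1 - ε ≥ 99/100` (`col_total`), so `β > 0`.  `e p = u(L p ∩ F)/β`, `e' p = u(L p ∩ F')/β`, both in `[0,1]`.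
  `∑_{p<n} e p ≥ (u(F) - ε)/β ≥ (48/100) n` as `1/β ≥ n` (`col_sum_ge`); same for `e'`.
* For `s < n < 16 N (k+1)`, `B = Bs T (G k) k s`: for `x ∈ B`: `x ∈ F' ↔ T^s x ∈ F'` (disjointness), so by `tower_pers`
  `∑_{p<n-s} |e' (p+s) - e' p| ≤ u(Bᶜ)/β ≤ (1/(k+1) + 2 eta k)/β ≤ (1/400)/β =: D`.
* `pair_sum`: `n ∑_{p<n} e p e' p ≥ (48/100)^2 n^2 - 2 n (1/400)/β`, and `1/β ≤ n/(1-ε) ≤ (100/99) n`.  So `∑_{p<n} e p e' p ≥ n (0.2304 - 0.0051) ≥ (22/100) n`.
* `min (e p) (e' p) ≥ e p * e' p`, and the terms `p ≥ n + 1 - N k` are at most `N k - 1 ≤ n/16` many, each `≤ 1`.  So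
  `∑_{p < n+1-N k} min (u(L p ∩ F)) (u(L p ∩ F')) ≥ β n (22/100 - 1/16) ≥ 1/16`.
* `tower_min` bounds it by `2/ρ (ω + ε)`.
-/

namespace RK

open MeasureTheory Set Filter Topology

variable {X : Type*} [MeasurableSpace X] {T : X → X} {u : Measure X} [IsProbabilityMeasure u]
  {n : ℕ} {L : ℕ → Set X}

/-- the sets `G k j` are disjoint -/
theorem sep_disj {φ : X → ℝ} {ρ : ℝ} (hρ : 0 < ρ) {C : ℕ} {N : ℕ → ℕ} {G : ℕ → ℕ → Set X}
    (hS : Sep T φ ρ C N G u) {k : ℕ} (hk : 2 ≤ k) :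
    ∀ i < k, ∀ j < k, i ≠ j → Disjoint (G k i) (G k j) := by
  intro i hi j hj hij
  rw [Set.disjoint_left]
  intro x hx hx'
  have h := hS.sep k hk i hi j hj hij x hx x hx'
  have h0 : od T φ (N k) x x = 0 := by simp [od]
  linarith

theorem eta_small {k : ℕ} (hk : 400 ≤ k) :
    0 < eta k ∧ eta k ≤ 1 / 100 ∧ 1 / ((k : ℝ) + 1) + 2 * eta k ≤ 1 / 400 := by
  have hk' : (400 : ℝ) ≤ k := by exact_mod_cast hk
  have h2 : (512 : ℝ) ≤ 2 ^ (k + 3) := by
    calc (512 : ℝ) = 2 ^ 9 := by norm_num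
      _ ≤ 2 ^ (k + 3) := pow_le_pow_right₀ (by norm_num) (by omega)
  have h3 : (2 : ℝ) ^ (k + 4) = 2 * 2 ^ (k + 3) := by
    rw [show k + 4 = (k + 3) + 1 from rfl, pow_succ]; ring
  unfold eta
  rw [h3]
  set P : ℝ := 2 ^ (k + 3) with hP
  have hP0 : 0 < P := by positivity
  refine ⟨by positivity, ?_, ?_⟩
  · rw [div_le_div_iff₀ (by positivity) (by norm_num)]
    nlinarith
  · have e1 : 1 / ((k : ℝ) + 1) + 2 * (1 / (((k : ℝ) + 1) * (2 * P))) =
        (P + 1) / (((k : ℝ) + 1) * P) := by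
      field_simp
    rw [e1, div_le_div_iff₀ (by positivity) (by norm_num)]
    nlinarith

theorem union_mass {φ : X → ℝ} {ρ : ℝ} (hρ : 0 < ρ) {C : ℕ} {N : ℕ → ℕ} {G : ℕ → ℕ → Set X}
    (hS : Sep T φ ρ C N G u) {k : ℕ} (hk : 2 ≤ k) {J : Finset ℕ} (hJ : ∀ j ∈ J, j < k) :
    J.card * ((1 - eta k) / k) ≤ u.real (⋃ j ∈ J, G k j) := by
  rw [measureReal_biUnion_finset]
  · calc (J.card : ℝ) * ((1 - eta k) / k) = ∑ j ∈ J, (1 - eta k) / k := by simp
      _ ≤ _ := Finset.sum_le_sum fun j hj => (hS.mass k hk j (hJ j hj)).le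
  · intro i hi j hj hij
    exact sep_disj hρ hS hk i (hJ i hi) j (hJ j hj) hij
  · exact fun j hj => hS.meas k hk j (hJ j hj)

theorem union_mass' {φ : X → ℝ} {ρ : ℝ} (hρ : 0 < ρ) {C : ℕ} {N : ℕ → ℕ} {G : ℕ → ℕ → Set X}
    (hS : Sep T φ ρ C N G u) {k : ℕ} (hk : 400 ≤ k) {J : Finset ℕ} (hJ : ∀ j ∈ J, j < k)
    (hc : k ≤ 2 * J.card + 1) :
    49 / 100 ≤ u.real (⋃ j ∈ J, G k j) := by
  refine le_trans ?_ (union_mass hρ hS (by omega) hJ)
  obtain ⟨h1, h2, -⟩ := eta_small hk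
  have hk' : (400 : ℝ) ≤ k := by exact_mod_cast hk
  have hc' : (k : ℝ) ≤ 2 * J.card + 1 := by exact_mod_cast hc
  have h3 : (99 / 100) / (k : ℝ) ≤ (1 - eta k) / k := by
    apply div_le_div_of_nonneg_right _ (by linarith)
    linarith
  have h4 : 0 ≤ (99 / 100) / (k : ℝ) := by positivity
  calc (49 / 100 : ℝ) ≤ ((k - 1) / 2) * ((99 / 100) / (k : ℝ)) := by
        rw [← sub_nonneg]
        have : ((k : ℝ) - 1) / 2 * ((99 / 100) / (k : ℝ)) - 49 / 100 =
            (k - 99) / (200 * k) := by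
          field_simp
          ring
        rw [this]
        apply div_nonneg <;> linarith
    _ ≤ J.card * ((99 / 100) / (k : ℝ)) := by
        apply mul_le_mul_of_nonneg_right _ h4
        linarith
    _ ≤ _ := by
        apply mul_le_mul_of_nonneg_left h3
        positivity

theorem core (hinv : MeasurePreserving T u u) {φ : X → ℝ} (hφm : Measurable φ)
    (hφ : ∀ x, φ x ∈ Icc (0 : ℝ) 1) {ρ : ℝ} (hρ : 0 < ρ) {N : ℕ → ℕ} {G : ℕ → ℕ → Set X}
    (hS : Sep T φ ρ 16 N G u) {k : ℕ} (hk : 400 ≤ k) (h : Col T u n L)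
    (h1 : 16 * N k ≤ n) (h2 : n < 16 * N (k + 1)) {ε ω : ℝ} (hε : ε ≤ 1 / 100) (hω : 0 ≤ ω)
    (hcov : u.real {x | ∀ i < n, x ∉ L i} ≤ ε) {Y : Set X} (hY : NullMeasurableSet Y u)
    (hYε : u.real Yᶜ ≤ ε) {a : ℕ → ℝ} (ha : ∀ i < n, a i ∈ Icc (0 : ℝ) 1)
    (haY : ∀ i < n, ∀ x ∈ L i ∩ Y, |φ x - a i| ≤ ω) :
    1 / 16 ≤ 2 / ρ * (ω + ε) := by
  have hk2 : 2 ≤ k := by omega
  have hdisj := sep_disj hρ hS hk2
  obtain ⟨he0, he1, he2⟩ := eta_small hk
  set J : Finset ℕ := Finset.range (k / 2) with hJdef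
  set J' : Finset ℕ := Finset.Ico (k / 2) k with hJ'def
  have hJ : ∀ j ∈ J, j < k := by
    intro j hj
    rw [hJdef, Finset.mem_range] at hj
    omega
  have hJ' : ∀ j ∈ J', j < k := by
    intro j hj
    rw [hJ'def, Finset.mem_Ico] at hj
    exact hj.2
  have hJJ : ∀ i ∈ J, ∀ j ∈ J', i ≠ j := by
    intro i hi j hj
    rw [hJdef, Finset.mem_range] at hi
    rw [hJ'def, Finset.mem_Ico] at hj
    omega
  set F : Set X := ⋃ j ∈ J, G k j with hFdef
  set F' : Set X := ⋃ j ∈ J', G k j with hF'def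
  have hF : MeasurableSet F :=
    MeasurableSet.biUnion J.countable_toSet fun j hj => hS.meas k hk2 j (hJ j hj)
  have hF' : MeasurableSet F' :=
    MeasurableSet.biUnion J'.countable_toSet fun j hj => hS.meas k hk2 j (hJ' j hj)
  have hFF : ∀ x, x ∈ F → x ∉ F' := by
    intro x hx hx'
    rw [hFdef, Set.mem_iUnion₂] at hx
    rw [hF'def, Set.mem_iUnion₂] at hx'
    obtain ⟨i, hi, hxi⟩ := hx
    obtain ⟨j, hj, hxj⟩ := hx'
    exact Set.disjoint_left.1 (hdisj i (hJ i hi) j (hJ' j hj) (hJJ i hi j hj)) hxi hxj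
  have hsep : ∀ x ∈ F, ∀ y ∈ F', ρ ≤ od T φ (N k) x y := by
    intro x hx y hy
    rw [hFdef, Set.mem_iUnion₂] at hx
    rw [hF'def, Set.mem_iUnion₂] at hy
    obtain ⟨i, hi, hxi⟩ := hx
    obtain ⟨j, hj, hyj⟩ := hy
    exact hS.sep k hk2 i (hJ i hi) j (hJ' j hj) (hJJ i hi j hj) x hxi y hyj
  have huF : 49 / 100 ≤ u.real F := by
    refine union_mass' hρ hS hk hJ ?_
    rw [hJdef, Finset.card_range]
    omega
  have huF' : 49 / 100 ≤ u.real F' := by
    refine union_mass' hρ hS hk hJ' ?_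
    rw [hJ'def, Nat.card_Ico]
    omega
  have hNk := hS.npos k
  have hNn : N k ≤ n := by omega
  refine le_trans ?_ (tower_min hinv h hφm hφ hNk hNn hF hF' hρ hsep hY hω hYε ha haY)
  -- numbers
  obtain ⟨hb1, hb2⟩ := col_total hinv h hcov
  set β : ℝ := u.real (L 0) with hβ
  have hn0 : (0 : ℝ) < n := by exact_mod_cast h.pos
  have hb0 : 0 < β := by
    by_contra hcon
    have : n * β ≤ 0 := mul_nonpos_of_nonneg_of_nonpos hn0.le (not_lt.1 hcon)
    linarith
  have hle : ∀ (A : Set X), ∀ p < n, u.real (L p ∩ A) ≤ β := by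
    intro A p hp
    rw [hβ, ← col_real hinv h hp]
    exact measureReal_mono Set.inter_subset_left
  have hsumF := col_sum_ge h hF hcov
  have hsumF' := col_sum_ge h hF' hcov
  set f : ℕ → ℝ := fun p => u.real (L p ∩ F) with hf
  set f' : ℕ → ℝ := fun p => u.real (L p ∩ F') with hf'
  have hD : ∀ s < n, ∑ p ∈ Finset.range (n - s), |f' (p + s) / β - f' p / β| ≤
      (1 / 400) / β := by
    intro s hs
    have hBm : MeasurableSet (Bs T (G k) k s) := by
      have : Bs T (G k) k s = ⋃ j ∈ Finset.range k, (G k j ∩ T^[s] ⁻¹' (G k j)) := by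
        ext x
        simp only [Bs, Set.mem_setOf_eq, Set.mem_iUnion, Finset.mem_range, Set.mem_inter_iff,
          Set.mem_preimage, exists_prop]
      rw [this]
      refine MeasurableSet.biUnion (Finset.range k).countable_toSet fun j hj => ?_
      have hj' : j < k := Finset.mem_range.1 hj
      exact (hS.meas k hk2 j hj').inter
        ((hinv.measurable.iterate s) (hS.meas k hk2 j hj'))
    have hFB : ∀ x ∈ Bs T (G k) k s, (x ∈ F' ↔ T^[s] x ∈ F') := by
      rintro x ⟨j, hj, hx1, hx2⟩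
      by_cases hjJ : j ∈ J'
      · have h1' : x ∈ F' := by
          rw [hF'def]; exact Set.mem_iUnion₂.2 ⟨j, hjJ, hx1⟩
        have h2' : T^[s] x ∈ F' := by
          rw [hF'def]; exact Set.mem_iUnion₂.2 ⟨j, hjJ, hx2⟩
        exact ⟨fun _ => h2', fun _ => h1'⟩
      · have hjJ2 : j ∈ J := by
          rw [hJdef, Finset.mem_range]
          rw [hJ'def, Finset.mem_Ico] at hjJ
          omega
        have h1' : x ∈ F := by
          rw [hFdef]; exact Set.mem_iUnion₂.2 ⟨j, hjJ2, hx1⟩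
        have h2' : T^[s] x ∈ F := by
          rw [hFdef]; exact Set.mem_iUnion₂.2 ⟨j, hjJ2, hx2⟩
        exact ⟨fun hh => absurd hh (hFF _ h1'), fun hh => absurd hh (hFF _ h2')⟩
    have hpers := tower_pers hinv h hF' hBm hs hFB
    have hp2 := hS.pers k hk2 s (by omega)
    have hcompl : u.real (Bs T (G k) k s)ᶜ = 1 - u.real (Bs T (G k) k s) :=
      probReal_compl_eq_one_sub hBm
    have hBc : u.real (Bs T (G k) k s)ᶜ ≤ 1 / 400 := by
      rw [hcompl]; linarith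
    calc ∑ p ∈ Finset.range (n - s), |f' (p + s) / β - f' p / β|
        = (∑ p ∈ Finset.range (n - s), |f' (p + s) - f' p|) / β := by
          rw [Finset.sum_div]
          refine Finset.sum_congr rfl fun p _ => ?_
          rw [← sub_div, abs_div, abs_of_pos hb0]
      _ ≤ (1 / 400) / β := by
          apply div_le_div_of_nonneg_right _ hb0.le
          exact hpers.trans hBc
  have hf0 : ∀ p, 0 ≤ f p := fun p => measureReal_nonneg
  have hf0' : ∀ p, 0 ≤ f' p := fun p => measureReal_nonneg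
  have hf1 : ∀ p < n, f p ≤ β := hle F
  have hf1' : ∀ p < n, f' p ≤ β := hle F'
  have hps := pair_sum (n := n) (e := fun p => f p / β) (e' := fun p => f' p / β)
    (fun p _ => div_nonneg (hf0 p) hb0.le) (fun p hp => (div_le_one hb0).2 (hf1 p hp)) hD
  rw [← Finset.sum_div, ← Finset.sum_div] at hps
  set S : ℝ := ∑ p ∈ Finset.range n, f p with hSdef
  set S' : ℝ := ∑ p ∈ Finset.range n, f' p with hS'def
  set M : ℝ := ∑ p ∈ Finset.range n, min (f p) (f' p) with hMdef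
  have hS1 : 48 / 100 ≤ S := by
    have : S = ∑ p ∈ Finset.range n, u.real (L p ∩ F) := rfl
    rw [this]
    linarith
  have hS1' : 48 / 100 ≤ S' := by
    have : S' = ∑ p ∈ Finset.range n, u.real (L p ∩ F') := rfl
    rw [this]
    linarith
  have hprod : ∑ p ∈ Finset.range n, f p / β * (f' p / β) ≤ M / β := by
    rw [hMdef, Finset.sum_div]
    refine Finset.sum_le_sum fun p hp => ?_
    have hp' := Finset.mem_range.1 hp
    have a1 : f p / β ≤ 1 := (div_le_one hb0).2 (hf1 p hp')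
    have a2 : f' p / β ≤ 1 := (div_le_one hb0).2 (hf1' p hp')
    have a3 : 0 ≤ f p / β := div_nonneg (hf0 p) hb0.le
    have a4 : 0 ≤ f' p / β := div_nonneg (hf0' p) hb0.le
    rcases le_total (f p) (f' p) with hh | hh
    · rw [min_eq_left hh]
      nlinarith
    · rw [min_eq_right hh]
      nlinarith
  have hM : 22 / 100 ≤ M := by
    have h1 : S / β * (S' / β) ≤ n * (M / β) + 2 * n * ((1 / 400) / β) := by
      refine hps.trans ?_
      have := mul_le_mul_of_nonneg_left hprod hn0.le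
      linarith
    have h2 : S * S' ≤ (n * β) * M + (n * β) / 200 := by
      have h3 := mul_le_mul_of_nonneg_left h1 (mul_pos hb0 hb0).le
      have e1 : β * β * (S / β * (S' / β)) = S * S' := by
        field_simp
      have e2 : β * β * (n * (M / β) + 2 * n * ((1 / 400) / β)) =
          (n * β) * M + (n * β) / 200 := by
        field_simp
        ring
      rw [e1, e2] at h3
      exact h3
    have h4 : (48 / 100 : ℝ) * (48 / 100) ≤ S * S' :=
      mul_le_mul hS1 hS1' (by norm_num) (by linarith)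
    have hM0 : 0 ≤ M := Finset.sum_nonneg fun p _ => le_min (hf0 p) (hf0' p)
    have h5 : (n * β) * M ≤ 1 * M := mul_le_mul_of_nonneg_right hb1 hM0
    nlinarith
  have hsplit : M ≤ (∑ p ∈ Finset.range (n + 1 - N k), min (f p) (f' p)) +
      (n : ℝ) / 16 * β := by
    have hle' : n + 1 - N k ≤ n := by omega
    rw [hMdef, ← Finset.sum_range_add_sum_Ico _ hle']
    gcongr
    calc ∑ p ∈ Finset.Ico (n + 1 - N k) n, min (f p) (f' p)
        ≤ ∑ p ∈ Finset.Ico (n + 1 - N k) n, β := by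
          refine Finset.sum_le_sum fun p hp => ?_
          exact (min_le_left _ _).trans (hf1 p (Finset.mem_Ico.1 hp).2)
      _ = ((n - (n + 1 - N k) : ℕ) : ℝ) * β := by simp
      _ ≤ (n : ℝ) / 16 * β := by
          apply mul_le_mul_of_nonneg_right _ hb0.le
          rw [le_div_iff₀ (by norm_num)]
          have : (n - (n + 1 - N k)) * 16 ≤ n := by omega
          exact_mod_cast this
  have hfin : (n : ℝ) / 16 * β ≤ 1 / 16 := by
    have : (n : ℝ) / 16 * β = (n * β) / 16 := by ring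
    rw [this]
    linarith
  change 1 / 16 ≤ ∑ p ∈ Finset.range (n + 1 - N k), min (f p) (f' p)
  linarith

end RK
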