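import Pool.Agent.Helper90.RK.B17

/-!
# RK-B18: the limit measure does not have rank one (about 250 lines)

Suppose `RankLE T u 1`.
0. `RankLE` for partitions `q : X → α` with values in a finite type `α`: compose with an equivalence `α ≃ Fin m`.
1. `u(G k j) ≤ 1/k + eta k` for `j < k` (the others are disjoint from it and have measure `> (1 - eta k)/k`), and the complement of `⋃_{j<k} G k j` has measure `≤ eta k`.
2. Constants: `ω = ρ/128`, `ε > 0` with `ε ≤ ρ/128`, `ε ≤ 1/100`, `ε ≤ 1/(64 * N 400)`; `k₁ ≥ 400` with `k₁ ≥ 64 * N 400`; so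
   `1/k₁ + eta k₁ ≤ 2/k₁ ≤ 1/(32 * N 400)`.
3. The partition `q`: the pair of `⌊φ x / ω⌋` (in `{0, ..., ⌊1/ω⌋}`) and of the index `j < k₁` with `x ∈ G k₁ j` (or `k₁` if there is none).  Its fibres are measurable.
4. The tower `L = P.L 0`, `n = P.h 0` (`Col T u n L`), `Y`.  For each `i < n` there is a value `(c, j)` with `L i ∩ Y ⊆ q⁻¹ (c, j)`.  Put `a i = ω c` if
   `L i ∩ Y` is nonempty (then `ω c ≤ φ x ≤ 1` and `|φ x - ω c| ≤ ω` on `L i ∩ Y`), `a i = 0` otherwise.
5. `β = u(L 0) ≤ u(L 0 ∩ Y) + u(Yᶜ) ≤ 1/k₁ + eta k₁ + ε ≤ 3/(64 * N 400)` and `n β ≥ 1 - ε ≥ 99/100` (`col_total`), so `n ≥ 16 * N 400`.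
6. `N` is strictly increasing from `2` on, so there is `k ≥ 400` with `16 * N k ≤ n < 16 * N (k+1)` (e.g. `Nat.find` of `n < 16 * N (400 + i)`, `N (400+i) ≥ i`).  `core` gives `1/16 ≤ (2/ρ) (ω + ε) ≤ 1/32`, contradiction.
(`μ Yᶜ ≤ ENNReal.ofReal ε` gives `u.real Yᶜ ≤ ε`.)
-/

namespace RK

open MeasureTheory Set Filter Topology

variable {X : Type*} [MeasurableSpace X] {T : X → X} {u : Measure X} [IsProbabilityMeasure u]

theorem sep_atom {φ : X → ℝ} {ρ : ℝ} (hρ : 0 < ρ) {C : ℕ} {N : ℕ → ℕ} {G : ℕ → ℕ → Set X}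
    (hS : Sep T φ ρ C N G u) {k : ℕ} (hk : 2 ≤ k) :
    (∀ j < k, u.real (G k j) ≤ 1 / k + eta k) ∧ u.real {x | ∀ j < k, x ∉ G k j} ≤ eta k := by
  have hk0 : (0 : ℝ) < k := by exact_mod_cast (by omega : 0 < k)
  have hη : 0 ≤ eta k := by unfold eta; positivity
  have hdis := sep_disj hρ hS hk
  have hdis' : Set.PairwiseDisjoint (↑(Finset.range k)) (G k) := by
    intro i hi j hj hij
    exact hdis i (Finset.mem_range.1 hi) j (Finset.mem_range.1 hj) hij
  have hmeas : ∀ j ∈ Finset.range k, MeasurableSet (G k j) :=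
    fun j hj => hS.meas k hk j (Finset.mem_range.1 hj)
  have hU : u.real (⋃ j ∈ Finset.range k, G k j) = ∑ j ∈ Finset.range k, u.real (G k j) :=
    measureReal_biUnion_finset hdis' hmeas
  have hle1 : ∑ j ∈ Finset.range k, u.real (G k j) ≤ 1 := by
    rw [← hU]
    exact measureReal_le_one
  constructor
  · intro j hj
    have h1 := Finset.add_sum_erase (Finset.range k) (fun j => u.real (G k j))
      (Finset.mem_range.2 hj)
    have h2 : ∑ i ∈ (Finset.range k).erase j, (1 - eta k) / k ≤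
        ∑ i ∈ (Finset.range k).erase j, u.real (G k i) :=
      Finset.sum_le_sum fun i hi =>
        (hS.mass k hk i (Finset.mem_range.1 (Finset.mem_of_mem_erase hi))).le
    rw [Finset.sum_const, Finset.card_erase_of_mem (Finset.mem_range.2 hj), Finset.card_range,
      nsmul_eq_mul, Nat.cast_sub (by omega), Nat.cast_one] at h2
    have h3 : ((k : ℝ) - 1) * ((1 - eta k) / k) = 1 - 1 / k - (1 - 1 / k) * eta k := by
      field_simp
    have h4 : (1 - 1 / (k : ℝ)) * eta k ≤ eta k := by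
      have : (0 : ℝ) ≤ 1 / k := by positivity
      nlinarith
    rw [h3] at h2
    linarith
  · have h1 : {x | ∀ j < k, x ∉ G k j} = (⋃ j ∈ Finset.range k, G k j)ᶜ := by
      ext x
      simp
    have h2 : MeasurableSet (⋃ j ∈ Finset.range k, G k j) := Finset.measurableSet_biUnion _ hmeas
    rw [h1, probReal_compl_eq_one_sub h2, hU]
    have h3 : ∑ j ∈ Finset.range k, (1 - eta k) / k ≤ ∑ j ∈ Finset.range k, u.real (G k j) :=
      Finset.sum_le_sum fun j hj => (hS.mass k hk j (Finset.mem_range.1 hj)).le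
    rw [Finset.sum_const, Finset.card_range, nsmul_eq_mul, mul_div_cancel₀ _ hk0.ne'] at h3
    linarith

/-- the index of the set which contains a point -/
private noncomputable def idx (G : ℕ → Set X) (k : ℕ) (x : X) : ℕ :=
  ∑ j ∈ Finset.range k, (G j).indicator (fun _ => j + 1) x

private lemma idx_of_mem {G : ℕ → Set X} {k : ℕ}
    (hd : ∀ i < k, ∀ j < k, i ≠ j → Disjoint (G i) (G j)) {j : ℕ} (hj : j < k) {x : X}
    (hx : x ∈ G j) : idx G k x = j + 1 := by
  unfold idx
  rw [Finset.sum_eq_single j]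
  · rw [Set.indicator_of_mem hx]
  · intro i hi hij
    refine Set.indicator_of_notMem (fun hxi => ?_) _
    exact Set.disjoint_left.1 (hd i (Finset.mem_range.1 hi) j hj hij) hxi hx
  · intro h
    exact absurd (Finset.mem_range.2 hj) h

private lemma idx_of_notMem {G : ℕ → Set X} {k : ℕ} {x : X} (hx : ∀ j < k, x ∉ G j) :
    idx G k x = 0 := by
  unfold idx
  exact Finset.sum_eq_zero fun j hj => Set.indicator_of_notMem (hx j (Finset.mem_range.1 hj)) _

private lemma idx_le {G : ℕ → Set X} {k : ℕ}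
    (hd : ∀ i < k, ∀ j < k, i ≠ j → Disjoint (G i) (G j)) (x : X) : idx G k x ≤ k := by
  by_cases h : ∃ j < k, x ∈ G j
  · obtain ⟨j, hj, hx⟩ := h
    rw [idx_of_mem hd hj hx]
    omega
  · push Not at h
    rw [idx_of_notMem h]
    omega

private lemma mem_of_idx {G : ℕ → Set X} {k : ℕ}
    (hd : ∀ i < k, ∀ j < k, i ≠ j → Disjoint (G i) (G j)) {j : ℕ} {x : X}
    (hx : idx G k x = j + 1) : x ∈ G j := by
  by_cases h : ∃ j < k, x ∈ G j
  · obtain ⟨i, hi, hxi⟩ := h
    rw [idx_of_mem hd hi hxi] at hx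
    have : i = j := by omega
    rwa [this] at hxi
  · push Not at h
    rw [idx_of_notMem h] at hx
    omega

private lemma notMem_of_idx {G : ℕ → Set X} {k : ℕ}
    (hd : ∀ i < k, ∀ j < k, i ≠ j → Disjoint (G i) (G j)) {x : X}
    (hx : idx G k x = 0) : ∀ j < k, x ∉ G j := by
  intro j hj h
  rw [idx_of_mem hd hj h] at hx
  omega

private lemma measurable_idx {G : ℕ → Set X} {k : ℕ} (hG : ∀ j < k, MeasurableSet (G j)) :
    Measurable (idx G k) := by
  unfold idx
  exact Finset.measurable_sum _ fun j hj =>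
    measurable_const.indicator (hG j (Finset.mem_range.1 hj))

private lemma eta_le {k : ℕ} (hk : 0 < k) : eta k ≤ 1 / k := by
  unfold eta
  have h1 : (0 : ℝ) < k := by exact_mod_cast hk
  apply one_div_le_one_div_of_le h1
  have h2 : (1 : ℝ) ≤ 2 ^ (k + 4) := one_le_pow₀ (by norm_num)
  nlinarith

theorem not_rank_one (hinv : MeasurePreserving T u u) {φ : X → ℝ} (hφm : Measurable φ)
    (hφ : ∀ x, φ x ∈ Icc (0 : ℝ) 1) {ρ : ℝ} (hρ : 0 < ρ) {N : ℕ → ℕ} {G : ℕ → ℕ → Set X}
    (hS : Sep T φ ρ 16 N G u) : ¬ RankLE T u 1 := by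
  classical
  intro hR
  set ω : ℝ := ρ / 128 with hω
  have hω0 : 0 < ω := by positivity
  have hN4 : (0 : ℝ) < N 400 := by exact_mod_cast hS.npos 400
  set ε : ℝ := min (ρ / 128) (min (1 / 100) (1 / (64 * N 400))) with hε
  have hε0 : 0 < ε := lt_min (by positivity) (lt_min (by norm_num) (by positivity))
  have hε1 : ε ≤ ρ / 128 := min_le_left _ _
  have hε2 : ε ≤ 1 / 100 := (min_le_right _ _).trans (min_le_left _ _)
  have hε3 : ε ≤ 1 / (64 * N 400) := (min_le_right _ _).trans (min_le_right _ _)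
  set k₁ : ℕ := max 400 (64 * N 400) with hk₁
  have hk400 : 400 ≤ k₁ := le_max_left _ _
  have hkN : 64 * N 400 ≤ k₁ := le_max_right _ _
  have hk2 : 2 ≤ k₁ := by omega
  have hd := sep_disj hρ hS hk2
  obtain ⟨hat, hco⟩ := sep_atom hρ hS hk2
  -- the partition
  set c : X → ℕ := fun x => ⌊φ x / ω⌋₊ with hc
  have hcm : Measurable c := Nat.measurable_floor.comp (hφm.div_const ω)
  have him : Measurable (idx (G k₁) k₁) := measurable_idx fun j hj => hS.meas k₁ hk2 j hj
  set M : ℕ := ⌊1 / ω⌋₊ with hM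
  have hcM : ∀ x, c x ≤ M := by
    intro x
    exact Nat.floor_le_floor (div_le_div_of_nonneg_right (hφ x).2 hω0.le)
  have hlt : ∀ x, c x * (k₁ + 1) + idx (G k₁) k₁ x < (M + 1) * (k₁ + 1) := by
    intro x
    have h1 := idx_le hd x
    have h2 := Nat.mul_le_mul_right (k₁ + 1) (hcM x)
    rw [add_mul]
    omega
  set q : X → Fin ((M + 1) * (k₁ + 1)) := fun x => ⟨c x * (k₁ + 1) + idx (G k₁) k₁ x, hlt x⟩ with hq
  have hqm : ∀ j, NullMeasurableSet (q ⁻¹' {j}) u := by
    intro j
    have h1 : q ⁻¹' {j} = (fun x => c x * (k₁ + 1) + idx (G k₁) k₁ x) ⁻¹' {(j : ℕ)} := by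
      ext x
      simp only [hq, Set.mem_preimage, Set.mem_singleton_iff, Fin.ext_iff]
    rw [h1]
    have h2 : Measurable fun x => c x * (k₁ + 1) + idx (G k₁) k₁ x :=
      (hcm.mul_const _).add him
    exact (h2 (measurableSet_singleton _)).nullMeasurableSet
  have hqeq : ∀ x y, q x = q y → c x = c y ∧ idx (G k₁) k₁ x = idx (G k₁) k₁ y := by
    intro x y hxy
    have h1 : c x * (k₁ + 1) + idx (G k₁) k₁ x = c y * (k₁ + 1) + idx (G k₁) k₁ y := by
      simpa only [hq, Fin.ext_iff] using hxy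
    have h2 := idx_le hd x
    have h3 := idx_le hd y
    have h4 := congrArg (fun t => t / (k₁ + 1)) h1
    have h5 : ∀ a b : ℕ, b ≤ k₁ → (a * (k₁ + 1) + b) / (k₁ + 1) = a := by
      intro a b hb
      rw [add_comm, Nat.add_mul_div_right _ _ (by omega), Nat.div_eq_of_lt (by omega), zero_add]
    simp only [h5 _ _ h2, h5 _ _ h3] at h4
    refine ⟨h4, ?_⟩
    rw [h4] at h1
    omega
  obtain ⟨P, hrem, Y, hY, hYε, hlev, -⟩ := hR _ q hqm ε hε0
  set n : ℕ := P.h 0 with hn
  set L : ℕ → Set X := P.L 0 with hL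
  have hcol : Col T u n L := by
    refine ⟨P.pos 0, fun i hi => P.meas 0 i hi, fun i hi j hj hij => ?_, fun i hi => P.step 0 i hi⟩
    refine P.disj 0 i 0 j hi hj ?_
    intro h
    exact hij (Prod.ext_iff.1 h).2
  have hremeq : P.rem = {x | ∀ i < n, x ∉ L i} := by
    ext x
    simp only [TowerPartition.rem, Set.mem_ofPred_eq]
    constructor
    · intro h i hi
      exact h 0 i hi
    · intro h l i hi
      have hl : l = 0 := Subsingleton.elim _ _
      subst hl
      exact h i hi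
  have hcov : u.real {x | ∀ i < n, x ∉ L i} ≤ ε := by
    rw [← hremeq]
    exact ENNReal.toReal_le_of_le_ofReal hε0.le hrem.le
  have hYr : u.real Yᶜ ≤ ε := ENNReal.toReal_le_of_le_ofReal hε0.le hYε
  -- the levels
  have hsame : ∀ i < n, ∀ x ∈ L i ∩ Y, ∀ y ∈ L i ∩ Y,
      c x = c y ∧ idx (G k₁) k₁ x = idx (G k₁) k₁ y := by
    intro i hi x hx y hy
    obtain ⟨j, hj⟩ := hlev 0 i hi
    have h1 : q x = j := hj hx
    have h2 : q y = j := hj hy
    exact hqeq x y (h1.trans h2.symm)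
  have hcφ : ∀ x, ω * c x ≤ φ x ∧ φ x ≤ ω * c x + ω := by
    intro x
    have h1 : 0 ≤ φ x / ω := div_nonneg (hφ x).1 hω0.le
    have h2 := Nat.floor_le h1
    have h3 := (Nat.lt_floor_add_one (φ x / ω)).le
    rw [le_div_iff₀ hω0] at h2
    rw [div_le_iff₀ hω0] at h3
    constructor
    · simp only [hc]
      linarith
    · simp only [hc]
      linarith
  set a : ℕ → ℝ := fun i => if h : (L i ∩ Y).Nonempty then ω * c h.some else 0 with ha
  have ha01 : ∀ i < n, a i ∈ Icc (0 : ℝ) 1 := by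
    intro i _
    simp only [ha]
    split_ifs with h
    · exact ⟨by positivity, (hcφ _).1.trans (hφ _).2⟩
    · exact ⟨le_rfl, zero_le_one⟩
  have haY : ∀ i < n, ∀ x ∈ L i ∩ Y, |φ x - a i| ≤ ω := by
    intro i hi x hx
    have h : (L i ∩ Y).Nonempty := ⟨x, hx⟩
    have h1 : a i = ω * c x := by
      simp only [ha]
      rw [dif_pos h, (hsame i hi _ h.some_mem x hx).1]
    rw [h1, abs_le]
    have h2 := hcφ x
    constructor <;> linarith [h2.1, h2.2]
  -- the height
  have hηk : eta k₁ ≤ 1 / k₁ := eta_le (by omega)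
  have hη0 : 0 ≤ eta k₁ := by unfold eta; positivity
  have hk₁r : (64 * N 400 : ℝ) ≤ k₁ := by exact_mod_cast hkN
  have hinvk : 1 / (k₁ : ℝ) ≤ 1 / (64 * N 400) :=
    one_div_le_one_div_of_le (by positivity) hk₁r
  have hL0Y : u.real (L 0 ∩ Y) ≤ 1 / k₁ + eta k₁ := by
    by_cases hne : (L 0 ∩ Y).Nonempty
    · obtain ⟨x, hx⟩ := hne
      by_cases hj : ∃ j < k₁, x ∈ G k₁ j
      · obtain ⟨j, hj, hxj⟩ := hj
        refine le_trans (measureReal_mono ?_) (hat j hj)
        intro y hy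
        have h1 := (hsame 0 hcol.pos y hy x hx).2
        rw [idx_of_mem hd hj hxj] at h1
        exact mem_of_idx hd h1
      · push Not at hj
        have h2 : u.real (L 0 ∩ Y) ≤ eta k₁ := by
          refine le_trans (measureReal_mono ?_) hco
          intro y hy
          have h1 := (hsame 0 hcol.pos y hy x hx).2
          rw [idx_of_notMem hj] at h1
          exact notMem_of_idx hd h1
        have h3 : (0 : ℝ) ≤ 1 / k₁ := by positivity
        linarith
    · rw [Set.not_nonempty_iff_eq_empty.1 hne, measureReal_empty]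
      positivity
  have hβ : u.real (L 0) ≤ 3 * (1 / (64 * N 400)) := by
    have h1 : u.real (L 0) ≤ u.real ((L 0 ∩ Y) ∪ Yᶜ) := by
      refine measureReal_mono ?_
      intro x hx
      by_cases hxY : x ∈ Y
      · exact Or.inl ⟨hx, hxY⟩
      · exact Or.inr hxY
    have h2 := measureReal_union_le (μ := u) (L 0 ∩ Y) Yᶜ
    linarith
  have hnβ := (col_total hinv hcol hcov).2
  have hn16 : 16 * N 400 ≤ n := by
    have h1 : (n : ℝ) * u.real (L 0) ≤ n * (3 * (1 / (64 * N 400))) :=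
      mul_le_mul_of_nonneg_left hβ (by positivity)
    have h2 : (99 / 100 : ℝ) ≤ n * (3 * (1 / (64 * N 400))) := by linarith
    have h3 : (n : ℝ) * (3 * (1 / (64 * N 400))) * (64 * N 400) = 3 * n := by
      field_simp
    have h4 := mul_le_mul_of_nonneg_right h2 (by positivity : (0 : ℝ) ≤ 64 * N 400)
    rw [h3] at h4
    have h5 : (16 * N 400 : ℝ) ≤ n := by linarith
    exact_mod_cast h5
  -- the scale
  have hgrow : ∀ i, i + 1 ≤ N (400 + i) := by
    intro i
    induction i with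
    | zero => exact hS.npos 400
    | succ i ih =>
      have h1 := hS.mono (400 + i) (by omega)
      have h2 : 400 + (i + 1) = 400 + i + 1 := by omega
      rw [h2]
      omega
  have hex : ∃ i, n < 16 * N (400 + i) := ⟨n, by have := hgrow n; omega⟩
  obtain ⟨t, ht⟩ : ∃ t, Nat.find hex = t + 1 := by
    apply Nat.exists_eq_succ_of_ne_zero
    intro h0
    have h1 := Nat.find_spec hex
    rw [h0, add_zero] at h1
    omega
  have h2 : n < 16 * N (400 + t + 1) := by
    have h1 := Nat.find_spec hex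
    rwa [ht, ← add_assoc] at h1
  have h1 : 16 * N (400 + t) ≤ n := by
    have h3 := Nat.find_min hex (m := t) (by omega)
    omega
  have hcore := core hinv hφm hφ hρ hS (k := 400 + t) (by omega) hcol h1 h2 hε2 hω0.le hcov hY
    hYr ha01 haY
  have h3 : 2 / ρ * (ω + ε) ≤ 1 / 32 := by
    have h4 : ω + ε ≤ ρ / 64 := by linarith
    calc 2 / ρ * (ω + ε) ≤ 2 / ρ * (ρ / 64) := mul_le_mul_of_nonneg_left h4 (by positivity)
      _ = 1 / 32 := by field_simp; norm_num
  linarith

end RK
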