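import Pool.Agent.Helper90.RK.Defs

/-!
# RK-B19: literal towers are towers, for injective maps (about 100 lines)

Let `T` be a measurable embedding (e.g. an injective continuous map of a compact metric space) preserving `u`.
* If `A` is null measurable then so is `T '' A`: `A = A₀ ∪ A₁` up to: there are measurable `A₀ ⊆ A` and a measurable null set `M ⊇ A \ A₀`; `T '' A₀` is measurable, and
  `T '' (A \ A₀) ⊆ T '' M`, which is measurable with `u (T '' M) = u (T⁻¹' (T '' M)) = u M = 0` (injectivity and invariance).
* So the levels `L l i = T^[i] '' B l` are null measurable, `T⁻¹' (T^[i+1] '' B) = T^[i] '' B` by injectivity (`Function.iterate_succ'`,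
  `preimage_image_eq`).  So a `LitTower` gives a `TowerPartition` with the same remainder.
* `one_of_rank_eq_one`: if the infimum is `1` then it is attained (`ℕ∞` is well ordered; if `RankLE T u 1` is false, every `k` in the infimum has `k ≥ 2`).
-/

namespace RK

open MeasureTheory Set Filter Topology

variable {X : Type*} [MeasurableSpace X] {T : X → X} {u : Measure X}

theorem nullMeasurable_image (hT : MeasurableEmbedding T) (hinv : MeasurePreserving T u u)
    {A : Set X} (hA : NullMeasurableSet A u) : NullMeasurableSet (T '' A) u := by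
  obtain ⟨A₀, hsub, hmeas, hae⟩ := hA.exists_measurable_subset_ae_eq
  have h0 : u (A \ A₀) = 0 := by
    have := ae_le_set.1 hae.symm.le
    exact this
  have hM0 : u (toMeasurable u (A \ A₀)) = 0 := by rw [measure_toMeasurable, h0]
  have hMm : MeasurableSet (toMeasurable u (A \ A₀)) := measurableSet_toMeasurable _ _
  have hTM : u (T '' toMeasurable u (A \ A₀)) = 0 := by
    rw [← hinv.measure_preimage (hT.measurableSet_image.2 hMm).nullMeasurableSet,
      preimage_image_eq _ hT.injective, hM0]
  have hsub2 : T '' A ⊆ T '' A₀ ∪ T '' toMeasurable u (A \ A₀) := by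
    rintro _ ⟨a, ha, rfl⟩
    by_cases h : a ∈ A₀
    · exact Or.inl ⟨a, h, rfl⟩
    · exact Or.inr ⟨a, subset_toMeasurable _ _ ⟨ha, h⟩, rfl⟩
  have hae2 : T '' A₀ =ᵐ[u] T '' A := by
    refine Filter.EventuallyLE.antisymm (image_mono hsub).eventuallyLE ?_
    rw [ae_le_set]
    refine measure_mono_null ?_ hTM
    rintro x ⟨hx, hx'⟩
    rcases hsub2 hx with h | h
    · exact absurd h hx'
    · exact h
  exact (hT.measurableSet_image.2 hmeas).nullMeasurableSet.congr hae2

theorem nullMeasurable_iterate (hT : MeasurableEmbedding T) (hinv : MeasurePreserving T u u)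
    {A : Set X} (hA : NullMeasurableSet A u) (i : ℕ) : NullMeasurableSet (T^[i] '' A) u := by
  induction i with
  | zero => simpa using hA
  | succ i ih =>
    rw [Function.iterate_succ', image_comp]
    exact nullMeasurable_image hT hinv ih

theorem rankLE_of_lit (hT : MeasurableEmbedding T) (hinv : MeasurePreserving T u u) {k : ℕ}
    (h : RankLELit T u k) : RankLE T u k := by
  intro m q hq ε hε
  obtain ⟨P, h1, Y, hY, hY2, hY3, hY4⟩ := h m q hq ε hε
  refine ⟨⟨P.h, P.pos, fun l i => T^[i] '' P.B l, fun l i _ =>
    nullMeasurable_iterate hT hinv (P.meas l) i, P.disj, fun l i _ => ?_⟩, h1, Y, hY, hY2, hY3, hY4⟩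
  have h5 : T ⁻¹' (T^[i + 1] '' P.B l) = T^[i] '' P.B l := by
    rw [Function.iterate_succ', image_comp, preimage_image_eq _ hT.injective]
  exact Filter.EventuallyEq.of_eq h5

theorem rankLE_of_rank (h : rank T u = 1) : RankLE T u 1 := by
  by_contra h1
  have h2 : (2 : ℕ∞) ≤ rank T u := by
    refine le_iInf fun k => le_iInf fun hk => ?_
    have h3 : k ≠ 1 := fun h => h1 (h ▸ hk.2)
    have h4 : 2 ≤ k := by have := hk.1; omega
    exact_mod_cast h4
  rw [h] at h2
  exact absurd h2 (by decide)

theorem rankLELit_of_rankLit (h : rankLit T u = 1) : RankLELit T u 1 := by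
  by_contra h1
  have h2 : (2 : ℕ∞) ≤ rankLit T u := by
    refine le_iInf fun k => le_iInf fun hk => ?_
    have h3 : k ≠ 1 := fun h => h1 (h ▸ hk.2)
    have h4 : 2 ≤ k := by have := hk.1; omega
    exact_mod_cast h4
  rw [h] at h2
  exact absurd h2 (by decide)

end RK
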