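import Pool.Agent.Helper90.RK.B03
import Pool.Agent.Helper90.RK.B09
import Pool.Agent.Helper90.RK.B10
import Pool.Agent.Helper90.RK.B11
import Pool.Agent.Helper90.RK.B12
import Pool.Agent.Helper90.RK.B13
import Pool.Agent.Helper90.RK.B18

/-!
# RK-B20: assembly of the dynamical part (helper90)
-/

namespace RK

open MeasureTheory Set Filter Topology

theorem exists_bad {X : Type*} [MetricSpace X] [CompactSpace X] [MeasurableSpace X] [BorelSpace X]
    {T : X → X} (hT : Continuous T)
    (hdense : ∀ μ : ProbabilityMeasure X, MeasurePreserving T (μ : Measure X) (μ : Measure X) →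
      ∀ O : Set (ProbabilityMeasure X), IsOpen O → μ ∈ O → ∃ ν ∈ O, Ergodic T (ν : Measure X))
    (h2 : ∃ c c' : ProbabilityMeasure X, Ergodic T (c : Measure X) ∧ Ergodic T (c' : Measure X) ∧
      c ≠ c') :
    ∃ u : ProbabilityMeasure X, Ergodic T (u : Measure X) ∧ ¬ RankLE T (u : Measure X) 1 := by
  obtain ⟨c₀, c₁, h₀, h₁, hne⟩ := h2
  obtain ⟨φ, hφc, hφ, d, hd, hbase⟩ := base_stage hT h₀ h₁ hne
  obtain ⟨ψ, hψ, hψd⟩ := exists_dense_seq X
  have hg2 : ∃ s : St X, Good T φ d ψ 2 s := by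
    refine good_two hT hψ (c := fun j => if j = 0 then c₀ else c₁) ?_ ?_ ?_
    · simpa using h₀
    · simpa using h₁
    · exact hbase _ (by simp) (by simp)
  obtain ⟨u, s, hinv, hG, hN, hu⟩ := exists_limit hT 16 hg2
    (fun k hk s hs => step hT hφ hd hψ hdense 16 hk hs)
  refine ⟨u, ?_, ?_⟩
  · refine ergodic_of_av hinv hψ hψd (N := fun k => (s k).N) ?_ (avg_tendsto hT hψ hG hN hu)
    filter_upwards [eventually_ge_atTop 2] with k hk
    exact (hG k hk).stage.npos
  · exact not_rank_one hinv hφc.measurable hφ (by positivity) (sep_of_seq hd hG hN hu)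

end RK
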