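import Pool.Agent.Helper90.RK.Defs

/-!
# Definitions for the dynamical part (MP_6e7b64_an)

* `av T N f x = (1/N) ∑_{i<N} f (T^i x)`; `od T φ N x y = (1/N) ∑_{i<N} |φ (T^i x) - φ (T^i y)|`.
* `vis T G N x`: the number of `t < N` with `T^t x ∈ G` (a real number).
* `ee d i j`: the limit distances between the types; `theta k = 1/2 + 2^(-k)`, `eta k = 1/((k+1) 2^(k+4))`.
* `Bs T G k s`: the points `x` with `x ∈ G j` and `T^s x ∈ G j` for the same `j < k`.
* `mixP c k`: the mean of `c 0, ..., c (k-1)`.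
* `Stage`: at scale `N` the `k` ergodic measures `c j` are separated by the open sets `G j`.
* `St`, `Good`, `Next`: the states of the inductive construction.
* `Sep`: what is known about the limit measure.
-/

namespace RK

open MeasureTheory Set Filter Topology

section

variable {X : Type*}

/-- averages -/
noncomputable def av (T : X → X) (N : ℕ) (f : X → ℝ) (x : X) : ℝ :=
  (∑ i ∈ Finset.range N, f (T^[i] x)) / N

/-- mean distance of two orbits -/
noncomputable def od (T : X → X) (φ : X → ℝ) (N : ℕ) (x y : X) : ℝ :=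
  (∑ i ∈ Finset.range N, |φ (T^[i] x) - φ (T^[i] y)|) / N

/-- number of visits -/
noncomputable def vis (T : X → X) (G : Set X) (N : ℕ) (x : X) : ℝ :=
  ∑ t ∈ Finset.range N, G.indicator (fun _ => (1 : ℝ)) (T^[t] x)

/-- distances between the types -/
noncomputable def ee (d : ℝ) (i j : ℕ) : ℝ :=
  if i = j then 0 else if max i j ≤ 1 then d else if min i j ≤ 1 then d / 2 else d / 3

/-- decreasing constants -/
noncomputable def theta (k : ℕ) : ℝ := 1 / 2 + (1 / 2) ^ k

/-- errors -/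
noncomputable def eta (k : ℕ) : ℝ := 1 / ((k + 1) * 2 ^ (k + 4))

/-- the points whose type is the same after time `s` -/
def Bs (T : X → X) (G : ℕ → Set X) (k s : ℕ) : Set X :=
  {x | ∃ j < k, x ∈ G j ∧ T^[s] x ∈ G j}

end

variable {X : Type*} [MeasurableSpace X]

open scoped Classical in
/-- the mean of `c 0, ..., c (k-1)` (a probability measure if `0 < k`) -/
noncomputable def mixP (c : ℕ → ProbabilityMeasure X) (k : ℕ) : ProbabilityMeasure X :=
  if h : IsProbabilityMeasure ((k : ENNReal)⁻¹ • ∑ j ∈ Finset.range k, (c j : Measure X)) then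
    ⟨(k : ENNReal)⁻¹ • ∑ j ∈ Finset.range k, (c j : Measure X), h⟩ else c 0

/-- separation of `k` measures at scale `N` -/
structure Stage [TopologicalSpace X] (T : X → X) (φ : X → ℝ) (d : ℝ) (c : ℕ → ProbabilityMeasure X)
    (k N : ℕ) (G : ℕ → Set X) : Prop where
  npos : 0 < N
  opn : ∀ j < k, IsOpen (G j)
  mass : ∀ j < k, 1 - eta k < (c j : Measure X).real (G j)
  sep : ∀ i < k, ∀ j < k, i ≠ j → ∀ x ∈ G i, ∀ y ∈ G j, theta k * ee d i j ≤ od T φ N x y

/-- states of the construction -/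
structure St (X : Type*) [MeasurableSpace X] where
  /-- measures -/
  c : ℕ → ProbabilityMeasure X
  /-- scale -/
  N : ℕ
  /-- separating sets -/
  G : ℕ → Set X
  /-- open set of measures -/
  O : Set (ProbabilityMeasure X)

/-- the state `s` is good for `k` -/
structure Good [TopologicalSpace X] [OpensMeasurableSpace X] (T : X → X) (φ : X → ℝ) (d : ℝ)
    (ψ : ℕ → X → ℝ) (k : ℕ) (s : St X) : Prop where
  erg : ∀ j < k, Ergodic T (s.c j : Measure X)
  stage : Stage T φ d s.c k s.N s.G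
  opn : IsOpen s.O
  mem : mixP s.c k ∈ s.O
  mass : ∀ μ ∈ s.O, ∀ j < k, (1 - eta k) / k < (μ : Measure X).real (s.G j)
  near : ∀ μ ∈ s.O, ∀ i < k,
    |∫ x, ψ i x ∂(μ : Measure X) - ∫ x, ψ i x ∂(mixP s.c k : Measure X)| < 1 / k
  avg : ∀ μ ∈ s.O, ∀ i < k,
    ∫ x, |av T s.N (ψ i) x - ∫ y, ψ i y ∂(mixP s.c k : Measure X)| ∂(μ : Measure X) <
      ∫ x, |av T s.N (ψ i) x - ∫ y, ψ i y ∂(mixP s.c k : Measure X)|
        ∂(mixP s.c k : Measure X) + 1 / k
  large : ∀ j < k, ∀ i < k,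
    ∫ x, |av T s.N (ψ i) x - ∫ y, ψ i y ∂(s.c j : Measure X)| ∂(s.c j : Measure X) < 1 / k

/-- `s'` (for `k + 1`) continues `s` (for `k`) -/
structure Next [TopologicalSpace X] [OpensMeasurableSpace X] (T : X → X) (C k : ℕ)
    (s s' : St X) : Prop where
  agree : ∀ j < k, s'.c j = s.c j
  scale : s.N < s'.N
  clos : closure s'.O ⊆ s.O
  new : s'.c k ∈ s.O
  pers : ∀ μ ∈ s'.O, ∀ t < C * s'.N,
    1 - 1 / ((k : ℝ) + 1) - 2 * eta k < (μ : Measure X).real (Bs T s.G k t)

/-- what is known about the limit measure `u`: scales `N k`, separated sets `G k j` (`j < k`) of measure `≈ 1/k`, whose types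
persist up to the time `C * N (k+1)` -/
structure Sep (T : X → X) (φ : X → ℝ) (ρ : ℝ) (C : ℕ) (N : ℕ → ℕ) (G : ℕ → ℕ → Set X)
    (u : Measure X) : Prop where
  npos : ∀ k, 0 < N k
  mono : ∀ k ≥ 2, N k < N (k + 1)
  meas : ∀ k ≥ 2, ∀ j < k, MeasurableSet (G k j)
  sep : ∀ k ≥ 2, ∀ i < k, ∀ j < k, i ≠ j → ∀ x ∈ G k i, ∀ y ∈ G k j, ρ ≤ od T φ (N k) x y
  mass : ∀ k ≥ 2, ∀ j < k, (1 - eta k) / k < u.real (G k j)
  pers : ∀ k ≥ 2, ∀ s < C * N (k + 1),
    1 - 1 / ((k : ℝ) + 1) - 2 * eta k < u.real (Bs T (G k) k s)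

end RK
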