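import Mathlib

/-!
# Definitions for MP_6e7b64_an (realizing rank functions on Choquet simplices)

* `coneOver K`: the cone over the base `K × {1}` in `E × ℝ`.
* `IsSimplex K`: `K` is a Choquet simplex: nonempty, compact, convex, and the cone over `K` is a lattice in
  its own order.
* `IsLU f`: Young class LU.
* `AdditiveRule K r`: the additive rule.
* `TowerPartition`, `RankLE`, `rank`: towers, in the measure theoretic sense: the levels are null measurable,
  pairwise disjoint, and `T⁻¹ (level (i+1)) = level i` up to a null set.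
* `LitTower`, `RankLELit`, `rankLit`: towers in the literal sense: the levels are the images `T^i B`.
* `InvM T`: the invariant probability measures, with the weak-* topology; `Realizes`, `RealizesLit`.
-/

namespace RK

open MeasureTheory Set Filter Topology

/-- the cone over `K × {1}` -/
def coneOver {E : Type*} [AddCommGroup E] [Module ℝ E] (K : Set E) : Set (E × ℝ) :=
  {v | 0 ≤ v.2 ∧ ∃ x ∈ K, v.1 = v.2 • x}

/-- Choquet simplices: compact convex sets whose cone is a lattice in its own order -/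
structure IsSimplex {E : Type*} [AddCommGroup E] [Module ℝ E] [TopologicalSpace E]
    (K : Set E) : Prop where
  nonempty : K.Nonempty
  compact : IsCompact K
  convex : Convex ℝ K
  lattice : ∀ x ∈ coneOver K, ∀ y ∈ coneOver K, ∃ z ∈ coneOver K,
    z - x ∈ coneOver K ∧ z - y ∈ coneOver K ∧
      ∀ w ∈ coneOver K, w - x ∈ coneOver K → w - y ∈ coneOver K → w - z ∈ coneOver K

/-- Young class LU: pointwise limits of nondecreasing sequences of upper semicontinuous functions -/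
def IsLU {S : Type*} [TopologicalSpace S] (f : S → EReal) : Prop :=
  ∃ g : ℕ → S → EReal, (∀ n, ∀ t : ℝ, IsOpen {x | g n x < (t : EReal)}) ∧
    (∀ n x, g n x ≤ g (n + 1) x) ∧ ∀ x, Tendsto (fun n => g n x) atTop (𝓝 (f x))

/-- the additive rule -/
structure AdditiveRule {E : Type*} [AddCommGroup E] [Module ℝ E] (K : Set E)
    (r : K → ℕ∞) : Prop where
  pos : ∀ x, 1 ≤ r x
  add : ∀ (m : ℕ) (e : Fin m → K) (p : Fin m → ℝ) (x : K), Function.Injective e →
    (∀ i, (e i : E) ∈ K.extremePoints ℝ) → (∀ i, 0 < p i) → ∑ i, p i = 1 →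
      (x : E) = ∑ i, p i • (e i : E) → r x = ∑ i, r (e i)
  top : ∀ x : K, (¬ ∃ (m : ℕ) (e : Fin m → K) (p : Fin m → ℝ),
    (∀ i, (e i : E) ∈ K.extremePoints ℝ) ∧ (∀ i, 0 < p i) ∧ ∑ i, p i = 1 ∧
      (x : E) = ∑ i, p i • (e i : E)) → r x = ⊤

section towers

variable {X : Type*} [MeasurableSpace X]

/-- partitions into `k` towers: `k` towers with heights `h l ≥ 1` and levels `L l i`, `i < h l` -/
structure TowerPartition (T : X → X) (μ : Measure X) (k : ℕ) where
  /-- heights -/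
  h : Fin k → ℕ
  pos : ∀ l, 1 ≤ h l
  /-- levels -/
  L : Fin k → ℕ → Set X
  meas : ∀ l i, i < h l → NullMeasurableSet (L l i) μ
  disj : ∀ l i l' i', i < h l → i' < h l' → (l, i) ≠ (l', i') → Disjoint (L l i) (L l' i')
  step : ∀ l i, i + 1 < h l → T ⁻¹' (L l (i + 1)) =ᵐ[μ] L l i

/-- the remainder -/
def TowerPartition.rem {T : X → X} {μ : Measure X} {k : ℕ} (P : TowerPartition T μ k) : Set X :=
  {x | ∀ l i, i < P.h l → x ∉ P.L l i}

/-- `rank μ ≤ k` -/
def RankLE (T : X → X) (μ : Measure X) (k : ℕ) : Prop :=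
  ∀ (m : ℕ) (q : X → Fin m), (∀ j, NullMeasurableSet (q ⁻¹' {j}) μ) → ∀ ε : ℝ, 0 < ε →
    ∃ P : TowerPartition T μ k, μ P.rem < ENNReal.ofReal ε ∧
      ∃ Y : Set X, NullMeasurableSet Y μ ∧ μ Yᶜ ≤ ENNReal.ofReal ε ∧
        (∀ l i, i < P.h l → ∃ j, P.L l i ∩ Y ⊆ q ⁻¹' {j}) ∧ ∃ j, P.rem ∩ Y ⊆ q ⁻¹' {j}

/-- the rank -/
noncomputable def rank (T : X → X) (μ : Measure X) : ℕ∞ :=
  ⨅ (k : ℕ) (_ : 1 ≤ k ∧ RankLE T μ k), (k : ℕ∞)

/-- partitions into `k` towers, literally: the levels are the images `T^i B` -/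
structure LitTower (T : X → X) (μ : Measure X) (k : ℕ) where
  /-- heights -/
  h : Fin k → ℕ
  pos : ∀ l, 1 ≤ h l
  /-- bases -/
  B : Fin k → Set X
  meas : ∀ l, NullMeasurableSet (B l) μ
  disj : ∀ l i l' i', i < h l → i' < h l' → (l, i) ≠ (l', i') →
    Disjoint (T^[i] '' B l) (T^[i'] '' B l')

/-- the remainder -/
def LitTower.rem {T : X → X} {μ : Measure X} {k : ℕ} (P : LitTower T μ k) : Set X :=
  {x | ∀ l i, i < P.h l → x ∉ T^[i] '' P.B l}

/-- `rank μ ≤ k` in the literal sense -/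
def RankLELit (T : X → X) (μ : Measure X) (k : ℕ) : Prop :=
  ∀ (m : ℕ) (q : X → Fin m), (∀ j, NullMeasurableSet (q ⁻¹' {j}) μ) → ∀ ε : ℝ, 0 < ε →
    ∃ P : LitTower T μ k, μ P.rem < ENNReal.ofReal ε ∧
      ∃ Y : Set X, NullMeasurableSet Y μ ∧ μ Yᶜ ≤ ENNReal.ofReal ε ∧
        (∀ l i, i < P.h l → ∃ j, (T^[i] '' P.B l) ∩ Y ⊆ q ⁻¹' {j}) ∧ ∃ j, P.rem ∩ Y ⊆ q ⁻¹' {j}

/-- the rank in the literal sense -/
noncomputable def rankLit (T : X → X) (μ : Measure X) : ℕ∞ :=
  ⨅ (k : ℕ) (_ : 1 ≤ k ∧ RankLELit T μ k), (k : ℕ∞)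

end towers

section real

variable {X : Type*} [MeasurableSpace X] [TopologicalSpace X] [OpensMeasurableSpace X]

/-- the invariant Borel probability measures, with the weak-* topology -/
abbrev InvM (T : X → X) : Type _ :=
  {μ : ProbabilityMeasure X // MeasurePreserving T (μ : Measure X) (μ : Measure X)}

/-- affine maps on the set of invariant measures -/
def IsAffineMap {E : Type*} [AddCommGroup E] [Module ℝ E] {T : X → X} {K : Set E}
    (π : InvM T → K) : Prop :=
  ∀ (μ ν ρ : InvM T) (t : ℝ), 0 ≤ t → t ≤ 1 →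
    (ρ.1 : Measure X) = ENNReal.ofReal t • (μ.1 : Measure X) +
      ENNReal.ofReal (1 - t) • (ν.1 : Measure X) →
        (π ρ : E) = t • (π μ : E) + (1 - t) • (π ν : E)

/-- `(X, T)` realizes `r` -/
def Realizes {E : Type*} [AddCommGroup E] [Module ℝ E] [TopologicalSpace E] (T : X → X)
    (K : Set E) (r : K → ℕ∞) : Prop :=
  ∃ π : InvM T ≃ₜ K, IsAffineMap (T := T) π ∧ ∀ μ : InvM T, r (π μ) = rank T (μ.1 : Measure X)

/-- `(X, T)` realizes `r`, for the literal definition of towers -/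
def RealizesLit {E : Type*} [AddCommGroup E] [Module ℝ E] [TopologicalSpace E] (T : X → X)
    (K : Set E) (r : K → ℕ∞) : Prop :=
  ∃ π : InvM T ≃ₜ K, IsAffineMap (T := T) π ∧
    ∀ μ : InvM T, r (π μ) = rankLit T (μ.1 : Measure X)

end real

end RK
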