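import Pool.Agent.Helper90.RK.Defs

/-!
# The simplex of MP_6e7b64_an: shift invariant measures on `{0,1}^ℕ` (the Poulsen simplex)

* `PP`: the cone of the functions `p` on words, nonnegative, additive on the right and on the left (a finite
  measure on `{0,1}^ℕ`, `p w` = measure of the cylinder of `w`; invariant under the shift).
* `KK`: the base `p [] = 1`.
* `Ind m x`: there are `m` linearly independent elements of `PP` below multiples of `x`.
* `rK x`: the supremum of these `m`.
* `occ x t w`: the word `w` occurs in the sequence `x` at position `t`.
* `perP x M`: the periodic measure of a sequence `x` of period `M`.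
-/

namespace RK

open Set Filter Topology

/-- functions on words -/
abbrev V : Type := List Bool → ℝ

/-- finite shift invariant measures -/
def PP : Set V :=
  {p | (∀ w, 0 ≤ p w) ∧ (∀ w, p w = p (w ++ [false]) + p (w ++ [true])) ∧
    ∀ w, p w = p (false :: w) + p (true :: w)}

/-- shift invariant probability measures -/
def KK : Set V := {p | p ∈ PP ∧ p [] = 1}

/-- `m` linearly independent elements below multiples of `x` -/
def Ind (m : ℕ) (x : V) : Prop :=
  ∃ y : Fin m → V, LinearIndependent ℝ y ∧ ∀ i, y i ∈ PP ∧ ∃ l : ℝ, l • x - y i ∈ PP

/-- the function `r` -/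
noncomputable def rK (x : KK) : ℕ∞ := ⨆ (m : ℕ) (_ : Ind m (x : V)), (m : ℕ∞)

/-- the word occurs in the sequence at the position -/
def occ (x : ℕ → Bool) : ℕ → List Bool → Bool
  | _, [] => true
  | t, b :: w => (x t == b) && occ x (t + 1) w

/-- the periodic measure -/
noncomputable def perP (x : ℕ → Bool) (M : ℕ) : V := fun w =>
  (((Finset.range M).filter (fun t => occ x t w = true)).card : ℝ) / M

end RK
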